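import Pool.Agent.Lib.MP_b0a977_co.DW.Iface

/-!
# The block structure of a graph without good vertex (part (4) of `PAPER.md`)
-/

set_option linter.unusedSectionVars false

namespace Pool.Agent.Lib.MP_b0a977_co.DW.Blk

open Finset

section basic

variable {V : Type} {G : SimpleGraph V}

theorem cn_refl {v x : V} (h : x ≠ v) : Cn G v x x :=
  ⟨SimpleGraph.Walk.nil, by simpa using fun e => h e.symm⟩

theorem cn_symm {v x y : V} (h : Cn G v x y) : Cn G v y x := by
  obtain ⟨p, hp⟩ := h
  exact ⟨p.reverse, by simpa using hp⟩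

theorem cn_trans {v x y z : V} (h : Cn G v x y) (h' : Cn G v y z) : Cn G v x z := by
  obtain ⟨p, hp⟩ := h
  obtain ⟨q, hq⟩ := h'
  refine ⟨p.append q, ?_⟩
  rw [SimpleGraph.Walk.mem_support_append_iff]
  tauto

theorem cn_left {v x y : V} (h : Cn G v x y) : x ≠ v := by
  obtain ⟨p, hp⟩ := h
  rintro rfl
  exact hp p.start_mem_support

theorem cn_right {v x y : V} (h : Cn G v x y) : y ≠ v := by
  obtain ⟨p, hp⟩ := h
  rintro rfl
  exact hp p.end_mem_support

theorem dist_split (hG : G.Connected) {v x y : V} (h : ¬ Cn G v x y) :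
    G.dist x y = G.dist x v + G.dist v y := by
  obtain ⟨p, hp⟩ := hG.exists_walk_length_eq_dist x y
  have hv : v ∈ p.support := by
    by_contra hv
    exact h ⟨p, hv⟩
  obtain ⟨q, r, rfl⟩ := SimpleGraph.Walk.mem_support_iff_exists_append.mp hv
  have h1 := SimpleGraph.dist_le q
  have h2 := SimpleGraph.dist_le r
  have h3 := hG.dist_triangle (u := x) (v := v) (w := y)
  rw [SimpleGraph.Walk.length_append] at hp
  omega

/-- Every vertex of a walk that avoids `v` is joined to the start by a walk that avoids `v`. -/
theorem cn_of_mem {v x y z : V} (p : G.Walk x y) (hv : v ∉ p.support) (hz : z ∈ p.support) :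
    Cn G v x z := by
  obtain ⟨q, r, rfl⟩ := SimpleGraph.Walk.mem_support_iff_exists_append.mp hz
  refine ⟨q, fun h => hv ?_⟩
  rw [SimpleGraph.Walk.mem_support_append_iff]
  exact Or.inl h

theorem exists_next (hG : G.Connected) {x b : V} (hne : x ≠ b) :
    ∃ y, G.Adj x y ∧ G.dist y b + 1 = G.dist x b := by
  obtain ⟨p, hp⟩ := hG.exists_walk_length_eq_dist x b
  cases p with
  | nil => exact absurd rfl hne
  | @cons _ y _ had q =>
    refine ⟨y, had, ?_⟩
    have h2 := SimpleGraph.dist_le q
    have h3 := hG.dist_triangle (u := x) (v := y) (w := b)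
    rw [SimpleGraph.dist_eq_one_iff_adj.2 had] at h3
    rw [SimpleGraph.Walk.length_cons] at hp
    omega

end basic

section finite

variable {V : Type} [Fintype V] [DecidableEq V] {G : SimpleGraph V}

open Classical in
/-- The component of `x` in `G - v`. -/
noncomputable def cp (G : SimpleGraph V) (v x : V) : Finset V := univ.filter fun y => Cn G v x y

theorem mem_cp {v x y : V} : y ∈ cp G v x ↔ Cn G v x y := by simp [cp]

theorem card_cp (v x : V) : Nat.card {y : V // Cn G v x y} = (cp G v x).card := by
  classical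
  rw [Nat.card_eq_fintype_card, Fintype.card_subtype]
  unfold cp
  congr

theorem card_two {v x x' : V} (h : ¬ Cn G v x x') :
    (cp G v x).card + (cp G v x').card + 1 ≤ Fintype.card V := by
  have hd : Disjoint (cp G v x) (cp G v x') := by
    rw [Finset.disjoint_left]
    intro y h1 h2
    exact h (cn_trans (mem_cp.1 h1) (cn_symm (mem_cp.1 h2)))
  have hv : v ∉ cp G v x ∪ cp G v x' := by
    rw [Finset.mem_union]
    rintro (h1 | h1)
    · exact cn_right (mem_cp.1 h1) rfl
    · exact cn_right (mem_cp.1 h1) rfl
  rw [← Finset.card_union_of_disjoint hd]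
  have h3 : (cp G v x ∪ cp G v x').card < (univ : Finset V).card :=
    Finset.card_lt_card (Finset.ssubset_univ_iff.2 fun e => hv (e ▸ mem_univ v))
  rw [Finset.card_univ] at h3
  omega

theorem exists_far (hG : G.Connected) (h2 : 2 ≤ Fintype.card V) (v : V) :
    ∃ x, x ≠ v ∧ ∀ y, G.dist y v ≤ G.dist x v := by
  obtain ⟨x, -, hx⟩ := Finset.exists_max_image (univ : Finset V) (fun y => G.dist y v)
    ⟨v, mem_univ _⟩
  refine ⟨x, ?_, fun y => hx y (mem_univ _)⟩
  rintro rfl
  have : Nontrivial V := Fintype.one_lt_card_iff_nontrivial.mp (by omega)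
  obtain ⟨y, hy⟩ := exists_ne x
  have h1 : G.dist y x ≤ G.dist x x := hx y (mem_univ _)
  have h3 := hG.pos_dist_of_ne hy
  rw [SimpleGraph.dist_self] at h1
  omega

/-- The data of the proof: a farthest vertex `f v` for every `v`, and no good vertex. -/
structure Ctx (G : SimpleGraph V) (f : V → V) : Prop where
  con : G.Connected
  ne : ∀ v, f v ≠ v
  far : ∀ v y, G.dist y v ≤ G.dist (f v) v
  big : ∀ v x, x ≠ v → (∀ y, G.dist y v ≤ G.dist x v) →
    Fintype.card V ≤ 2 * (cp G v x).card

variable {f : V → V}

theorem Ctx.bigf (h : Ctx G f) (v : V) : Fintype.card V ≤ 2 * (cp G v (f v)).card :=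
  h.big v (f v) (h.ne v) (h.far v)

/-- All farthest vertices are in the big component. -/
theorem Ctx.far_big (h : Ctx G f) {v x : V} (hx : x ≠ v) (hf : ∀ y, G.dist y v ≤ G.dist x v) :
    Cn G v (f v) x := by
  by_contra hc
  have h1 := card_two hc
  have h2 := h.bigf v
  have h3 := h.big v x hx hf
  omega

theorem Ctx.self_small (v : V) : ¬ Cn G v (f v) v := fun h => cn_right h rfl

/-- The height bound. -/
theorem Ctx.height (h : Ctx G f) {d : ℕ} (hd : ∀ x y, G.dist x y ≤ d) {v x : V}
    (hx : ¬ Cn G v (f v) x) : 2 * G.dist x v + 1 ≤ d := by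
  have h1 : G.dist x v < G.dist (f v) v := by
    rcases eq_or_ne x v with rfl | hne
    · rw [SimpleGraph.dist_self]
      exact h.con.pos_dist_of_ne (h.ne x)
    · refine lt_of_le_of_ne (h.far v x) fun e => hx (h.far_big hne fun y => ?_)
      rw [e]
      exact h.far v y
  have h2 := dist_split h.con hx
  have h3 := hd (f v) x
  rw [SimpleGraph.dist_comm (u := v) (v := x)] at h2
  omega

/-- A shortest walk from `v` into the big component avoids every other vertex outside of it. -/
theorem Ctx.reach (h : Ctx G f) {v x y : V} (hx : ¬ Cn G v (f v) x) (hxv : x ≠ v)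
    (hy : Cn G v (f v) y) : Cn G x v y := by
  obtain ⟨p, hp⟩ := h.con.exists_walk_length_eq_dist v y
  have hpath : p.IsPath := SimpleGraph.Walk.isPath_of_length_eq_dist p hp
  cases p with
  | nil => exact absurd rfl (cn_right hy)
  | @cons _ z _ had q =>
    rw [SimpleGraph.Walk.cons_isPath_iff] at hpath
    refine ⟨SimpleGraph.Walk.cons had q, fun hm => ?_⟩
    rw [SimpleGraph.Walk.support_cons, List.mem_cons] at hm
    rcases hm with hm | hm
    · exact hxv hm
    · have h1 : Cn G v z x := cn_of_mem q hpath.2 hm
      have h2 : Cn G v z y := cn_of_mem q hpath.2 q.end_mem_support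
      exact hx (cn_trans hy (cn_trans (cn_symm h2) h1))

/-- (a) If `x ≠ v` is outside the big component of `v`, then `v` and the big component of `v` are
in the big component of `x`. -/
theorem Ctx.nest (h : Ctx G f) {v x : V} (hx : ¬ Cn G v (f v) x) (hxv : x ≠ v) :
    Cn G x (f x) v := by
  by_contra hc
  have h1 := card_two hc
  have h2 := h.bigf x
  have h3 := h.bigf v
  have h4 : insert v (cp G v (f v)) ⊆ cp G x v := by
    intro y hy
    rw [Finset.mem_insert] at hy
    rcases hy with rfl | hy
    · exact mem_cp.2 (cn_refl hxv.symm)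
    · exact mem_cp.2 (h.reach hx hxv (mem_cp.1 hy))
  have h5 := Finset.card_le_card h4
  rw [Finset.card_insert_of_notMem fun hm => cn_right (mem_cp.1 hm) rfl] at h5
  omega

theorem Ctx.nest2 (h : Ctx G f) {v x y : V} (hx : ¬ Cn G v (f v) x) (hxv : x ≠ v)
    (hy : ¬ Cn G x (f x) y) : ¬ Cn G v (f v) y ∧ y ≠ v := by
  constructor
  · intro hc
    exact hy (cn_trans (h.nest hx hxv) (h.reach hx hxv hc))
  · rintro rfl
    exact hy (h.nest hx hxv)

/-- The set `H v` of the vertices outside the big component of `v`. -/
noncomputable def Hs (G : SimpleGraph V) (f : V → V) (v : V) : Finset V := (cp G v (f v))ᶜ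

theorem mem_Hs {v x : V} : x ∈ Hs G f v ↔ ¬ Cn G v (f v) x := by
  rw [Hs, Finset.mem_compl, mem_cp]

theorem Ctx.card_Hs (h : Ctx G f) (v : V) : 2 * (Hs G f v).card ≤ Fintype.card V := by
  have h1 := h.bigf v
  have h2 := Finset.card_compl_add_card (cp G v (f v))
  rw [Hs]
  omega

/-- The set `B`. -/
def InB (G : SimpleGraph V) (f : V → V) (b : V) : Prop := ∀ v, b ≠ v → Cn G v (f v) b

/-- (b) Every vertex is in `H b` for some `b` in `B`. -/
theorem Ctx.cover (h : Ctx G f) (x : V) : ∃ b, InB G f b ∧ ¬ Cn G b (f b) x := by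
  classical
  obtain ⟨v, hv, hmax⟩ := Finset.exists_max_image
    (univ.filter fun v => ¬ Cn G v (f v) x) (fun v => (Hs G f v).card)
    ⟨x, by simpa using Ctx.self_small x⟩
  rw [Finset.mem_filter] at hv
  refine ⟨v, fun u hu => ?_, hv.2⟩
  by_contra hc
  have h1 : ∀ y, y ∈ Hs G f v → y ∈ (Hs G f u).erase u := by
    intro y hy
    have := h.nest2 hc hu (mem_Hs.1 hy)
    exact Finset.mem_erase.2 ⟨this.2, mem_Hs.2 this.1⟩
  have h2 := Finset.card_le_card h1
  rw [Finset.card_erase_of_mem (mem_Hs.2 (Ctx.self_small u))] at h2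
  have h3 : (Hs G f u).card ≤ (Hs G f v).card := by
    refine hmax u ?_
    rw [Finset.mem_filter]
    exact ⟨mem_univ _, (h.nest2 hc hu hv.2).1⟩
  have h4 : 0 < (Hs G f u).card := Finset.card_pos.2 ⟨u, mem_Hs.2 (Ctx.self_small u)⟩
  omega

/-- (c) The sets `H b` are disjoint. -/
theorem Ctx.disj (h : Ctx G f) {b c x : V} (hb : InB G f b) (hc : InB G f c)
    (h1 : ¬ Cn G b (f b) x) (h2 : ¬ Cn G c (f c) x) : b = c := by
  by_contra hne
  have h3 : ¬ Cn G b c x := fun h' => h1 (cn_trans (hc b (Ne.symm hne)) h')
  have h4 : ¬ Cn G c b x := fun h' => h2 (cn_trans (hb c hne) h')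
  have h5 := dist_split h.con h3
  have h6 := dist_split h.con h4
  have h7 := h.con.pos_dist_of_ne hne
  rw [SimpleGraph.dist_comm (u := c) (v := b)] at h5
  omega

theorem Ctx.dist3 (h : Ctx G f) {b c x y : V} (hb : InB G f b) (hc : InB G f c)
    (h1 : ¬ Cn G b (f b) x) (h2 : ¬ Cn G c (f c) y) (hne : b ≠ c) :
    G.dist x y = G.dist x b + G.dist b c + G.dist c y := by
  have h3 : Cn G b (f b) y := by
    by_contra h3
    exact hne (h.disj hb hc h3 h2)
  have h4 : ¬ Cn G b x y := fun h' => h1 (cn_trans h3 (cn_symm h'))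
  have h5 : ¬ Cn G c b y := fun h' => h2 (cn_trans (hb c hne) h')
  have h6 := dist_split h.con h4
  have h7 := dist_split h.con h5
  omega

end finite

/-- A discrete intermediate value statement along a walk. -/
theorem walk_hit {V : Type} {G : SimpleGraph V} (B : V → Prop) (g : V → ℕ)
    (hg : ∀ x y, G.Adj x y → g x < g y → B y ∧ g y = g x + 1) (i : ℕ) :
    ∀ {x y : V} (p : G.Walk x y), g x < i → i ≤ g y → ∃ z ∈ p.support, B z ∧ g z = i := by
  intro x y p
  induction p with
  | nil => intro h1 h2; omega
  | @cons x z y had q ih =>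
    intro h1 h2
    rw [SimpleGraph.Walk.support_cons]
    by_cases hz : g z < i
    · obtain ⟨w, hw, hB⟩ := ih hz h2
      exact ⟨w, List.mem_cons_of_mem _ hw, hB⟩
    · have h3 := hg x z had (by omega)
      exact ⟨z, List.mem_cons_of_mem _ q.start_mem_support, h3.1, by omega⟩

theorem blocks : BlocksS := by
  classical
  intro V _ _ G d h2 hG hd hgood
  choose f hf using fun v => exists_far hG h2 v
  have h : Ctx G f :=
    { con := hG
      ne := fun v => (hf v).1
      far := fun v => (hf v).2
      big := by
        intro v x hx hfar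
        by_contra hc
        refine hgood ⟨v, x, hx, hfar, ?_⟩
        rw [card_cp]
        omega }
  choose π hπ using fun x => h.cover x
  have hfix : ∀ b, InB G f b → π b = b := fun b hb =>
    h.disj (hπ b).1 hb (hπ b).2 (Ctx.self_small b)
  have hdist : ∀ x y, π x ≠ π y →
      G.dist x y = G.dist x (π x) + G.dist (π x) (π y) + G.dist (π y) y := fun x y hne =>
    h.dist3 (hπ x).1 (hπ y).1 (hπ x).2 (hπ y).2 hne
  have hadj : ∀ x y, G.Adj x y → π x ≠ π y → x = π x ∧ y = π y ∧ G.dist (π x) (π y) = 1 := by
    intro x y had hne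
    have h1 := hdist x y hne
    rw [SimpleGraph.dist_eq_one_iff_adj.2 had] at h1
    have h3 := hG.pos_dist_of_ne hne
    have h4 : G.dist x (π x) = 0 := by omega
    have h5 : G.dist (π y) y = 0 := by omega
    exact ⟨(hG.dist_eq_zero_iff).1 h4, ((hG.dist_eq_zero_iff).1 h5).symm, by omega⟩
  refine ⟨univ.filter fun b => InB G f b, π, ?_⟩
  exact
    { mem := fun x => by simpa using (hπ x).1
      fix := fun b hb => hfix b (by simpa using hb)
      half := by
        intro b _
        refine le_trans (Nat.mul_le_mul_left 2 (Finset.card_le_card fun x hx => ?_)) (h.card_Hs b)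
        rw [Finset.mem_filter] at hx
        rw [mem_Hs, ← hx.2]
        exact (hπ x).2
      dist := hdist
      down := by
        intro x hx
        obtain ⟨y, had, hy⟩ := exists_next hG hx
        refine ⟨y, had, hy, ?_⟩
        by_contra hne
        exact hx (hadj x y had (Ne.symm hne)).1
      level := by
        intro b hb c hc i hi hic
        have hb' : InB G f b := by simpa using hb
        have hc' : InB G f c := by simpa using hc
        have key : ∀ p : G.Walk b c, ∃ z ∈ p.support, InB G f z ∧ G.dist b z = i := by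
          intro p
          obtain ⟨z, hz, hB, hg⟩ := walk_hit (fun z => InB G f z ∧ π z = z)
            (fun z => G.dist b (π z)) (by
              intro x y had hlt
              have hne : π x ≠ π y := fun e => by
                rw [e] at hlt
                exact lt_irrefl _ hlt
              obtain ⟨h1, h3, h4⟩ := hadj x y had hne
              refine ⟨⟨?_, h3.symm⟩, ?_⟩
              · rw [h3]
                exact (hπ y).1
              · have h5 := hG.dist_triangle (u := b) (v := π x) (w := π y)
                omega) i p (by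
              show G.dist b (π b) < i
              rw [hfix b hb', SimpleGraph.dist_self]
              omega) (by
              show i ≤ G.dist b (π c)
              rw [hfix c hc']
              omega)
          refine ⟨z, hz, hB.1, ?_⟩
          have : G.dist b (π z) = i := hg
          rwa [hB.2] at this
        obtain ⟨p0⟩ := hG.preconnected b c
        obtain ⟨z, -, hzB, hzi⟩ := key p0
        have hbz : b ≠ z := by
          rintro rfl
          rw [SimpleGraph.dist_self] at hzi
          omega
        have hcz : c ≠ z := by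
          rintro rfl
          omega
        obtain ⟨p, hp⟩ := cn_trans (cn_symm (hb' z hbz)) (hc' z hcz)
        obtain ⟨z', hz', hzB', hzi'⟩ := key p
        have hne : z ≠ z' := by
          rintro rfl
          exact hp hz'
        have hsub : ({z, z'} : Finset V) ⊆
            ((univ.filter fun b => InB G f b).filter fun z => G.dist b z = i) := by
          intro w hw
          rw [Finset.mem_insert, Finset.mem_singleton] at hw
          rcases hw with rfl | rfl
          · simp [hzB, hzi]
          · simp [hzB', hzi']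
        have := Finset.card_le_card hsub
        rwa [Finset.card_pair hne] at this
      height := fun x => h.height hd (hπ x).2 }

end Pool.Agent.Lib.MP_b0a977_co.DW.Blk

namespace Pool.Agent.Lib.MP_b0a977_co.DW

/-- BLOCKS. -/
theorem blocks : BlocksS := Blk.blocks

end Pool.Agent.Lib.MP_b0a977_co.DW
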