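import Pool.Agent.Lib.MP_b0a977_co.DW.Iface

/-!
# COMBINE: the bound from the block structure (helper73)
-/

namespace Pool.Agent.Lib.MP_b0a977_co.DW

open Finset

namespace Comb

variable {V : Type} [Fintype V] [DecidableEq V] {G : SimpleGraph V} {d : ℕ} {B : Finset V}
  {π : V → V}

/-- the number of vertices of `B` at distance at least `j` from `b` -/
lemma lvl (hB : Blocks G d B π) {b : V} (hb : b ∈ B) {j : ℕ} (hj : 1 ≤ j)
    (hne : (B.filter fun z => j ≤ G.dist b z).Nonempty) :
    (B.filter fun z => j ≤ G.dist b z).card + 2 * j ≤ B.card + 1 := by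
  obtain ⟨c0, hc0⟩ := hne
  rw [mem_filter] at hc0
  obtain ⟨k, rfl⟩ : ∃ k, j = k + 1 := ⟨j - 1, by omega⟩
  have h1 : (B.filter fun z => G.dist b z < k + 1).card
      = ∑ i ∈ range (k + 1), (B.filter fun z => G.dist b z = i).card := by
    rw [card_eq_sum_card_fiberwise (f := fun z => G.dist b z) (t := range (k + 1))]
    · refine sum_congr rfl fun i hi => ?_
      rw [mem_range] at hi
      congr 1
      ext z
      simp only [mem_filter]
      constructor
      · rintro ⟨⟨h1, h2⟩, h3⟩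
        exact ⟨h1, h3⟩
      · rintro ⟨h1, h3⟩
        exact ⟨⟨h1, by omega⟩, h3⟩
    · intro z hz
      simp only [coe_filter, Set.mem_ofPred_eq] at hz
      simp only [coe_range, Set.mem_Iio]
      exact hz.2
  have h2 : 1 + 2 * k ≤ ∑ i ∈ range (k + 1), (B.filter fun z => G.dist b z = i).card := by
    rw [sum_range_succ']
    have h3 : ∀ i ∈ range k, 2 ≤ (B.filter fun z => G.dist b z = i + 1).card := by
      intro i hi
      rw [mem_range] at hi
      exact hB.level b hb c0 hc0.1 (i + 1) (by omega) (by omega)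
    have h4 : 2 * k ≤ ∑ i ∈ range k, (B.filter fun z => G.dist b z = i + 1).card := by
      have := card_nsmul_le_sum (range k) (fun i => (B.filter fun z => G.dist b z = i + 1).card) 2 h3
      rw [card_range, smul_eq_mul] at this
      omega
    have h5 : 1 ≤ (B.filter fun z => G.dist b z = 0).card := by
      apply card_pos.2
      exact ⟨b, mem_filter.2 ⟨hb, SimpleGraph.dist_self⟩⟩
    omega
  have h6 : (B.filter fun z => k + 1 ≤ G.dist b z).card
      + (B.filter fun z => G.dist b z < k + 1).card = B.card := by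
    rw [← card_filter_add_card_filter_not (s := B) (fun z => k + 1 ≤ G.dist b z)]
    congr 2
    ext z
    simp only [mem_filter, not_le]
  omega

/-- the diameter of the centres -/
lemma dist_le_half (hB : Blocks G d B π) {b c : V} (hb : b ∈ B) (hc : c ∈ B) :
    G.dist b c ≤ B.card / 2 := by
  rcases Nat.eq_zero_or_pos (G.dist b c) with h | h
  · omega
  · have hne : (B.filter fun z => G.dist b c ≤ G.dist b z).Nonempty :=
      ⟨c, mem_filter.2 ⟨hc, le_rfl⟩⟩
    have := lvl hB hb h hne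
    have h2 := card_pos.2 hne
    omega

lemma sum_arith (s : ℕ) : ∀ k, 2 * k ≤ s → ∑ j ∈ Icc 1 k, (s + 1 - 2 * j) = k * (s - k) := by
  intro k
  induction k with
  | zero => simp
  | succ k ih =>
    intro hk
    rw [sum_Icc_succ_top (by omega), ih (by omega)]
    obtain ⟨t, rfl⟩ : ∃ t, s = 2 * (k + 1) + t := ⟨s - 2 * (k + 1), by omega⟩
    rw [show 2 * (k + 1) + t - k = k + 2 + t by omega,
      show 2 * (k + 1) + t + 1 - 2 * (k + 1) = t + 1 by omega,
      show 2 * (k + 1) + t - (k + 1) = k + 1 + t by omega]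
    ring

lemma half_mul (s : ℕ) : s / 2 * (s - s / 2) = s ^ 2 / 4 := by
  rcases Nat.even_or_odd' s with ⟨k, rfl | rfl⟩
  · rw [show 2 * k / 2 = k by omega, show 2 * k - k = k by omega,
      show (2 * k) ^ 2 = 4 * (k * k) by ring]
    omega
  · rw [show (2 * k + 1) / 2 = k by omega, show 2 * k + 1 - k = k + 1 by omega,
      show (2 * k + 1) ^ 2 = 4 * (k * (k + 1)) + 1 by ring]
    omega

/-- the distance sum of a centre -/
lemma sum_dist_le (hB : Blocks G d B π) {b : V} (hb : b ∈ B) :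
    ∑ c ∈ B, G.dist b c ≤ B.card ^ 2 / 4 := by
  have h1 : ∑ c ∈ B, G.dist b c
      = ∑ j ∈ Icc 1 (B.card / 2), (B.filter fun z => j ≤ G.dist b z).card := by
    simp_rw [card_filter]
    rw [sum_comm]
    refine sum_congr rfl fun c hc => ?_
    rw [← card_filter]
    have h2 : (Icc 1 (B.card / 2)).filter (fun j => j ≤ G.dist b c) = Icc 1 (G.dist b c) := by
      ext j
      have := dist_le_half hB hb hc
      simp only [mem_filter, mem_Icc]
      omega
    rw [h2, Nat.card_Icc]
    omega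
  rw [h1, ← half_mul, ← sum_arith B.card (B.card / 2) (by omega)]
  refine sum_le_sum fun j hj => ?_
  rw [mem_Icc] at hj
  rcases (B.filter fun z => j ≤ G.dist b z).eq_empty_or_nonempty with h0 | h0
  · rw [h0, card_empty]
    omega
  · have := lvl hB hb hj.1 h0
    omega

/-- the block of `b` without `b` -/
def A (π : V → V) (b : V) : Finset V := univ.filter fun x => π x = b ∧ x ≠ b

lemma mem_A {b x : V} : x ∈ A π b ↔ π x = b ∧ x ≠ b := by
  simp [A]

lemma H_eq (hB : Blocks G d B π) {b : V} (hb : b ∈ B) :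
    (univ.filter fun x => π x = b) = insert b (A π b) := by
  ext x
  simp only [mem_filter, mem_univ, true_and, mem_insert, mem_A]
  constructor
  · intro h
    by_cases h1 : x = b
    · exact Or.inl h1
    · exact Or.inr ⟨h, h1⟩
  · rintro (h | h)
    · rw [h]
      exact hB.fix b hb
    · exact h.1

lemma dist_pos_A (hB : Blocks G d B π) {b x : V} (hx : x ∈ A π b) : 1 ≤ G.dist x b := by
  rw [mem_A] at hx
  obtain ⟨y, -, h, -⟩ := hB.down x (by rw [hx.1]; exact hx.2)
  rw [hx.1] at h
  omega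

lemma chain (hB : Blocks G d B π) {b : V} : ∀ m x, x ∈ A π b → G.dist x b = m →
    Icc 1 m ⊆ (A π b).image fun y => G.dist y b := by
  intro m
  induction m with
  | zero => intro x _ _; simp
  | succ m ih =>
    intro x hx hm j hj
    rw [mem_Icc] at hj
    rcases Nat.lt_or_ge m j with h | h
    · rw [mem_image]
      exact ⟨x, hx, by omega⟩
    · have hx' := mem_A.1 hx
      obtain ⟨y, -, h1, h2⟩ := hB.down x (by rw [hx'.1]; exact hx'.2)
      rw [hx'.1] at h1 h2
      have hyb : y ≠ b := by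
        rintro rfl
        rw [SimpleGraph.dist_self] at h1
        omega
      exact ih y (mem_A.2 ⟨h2, hyb⟩) (by omega) (mem_Icc.2 ⟨hj.1, h⟩)

lemma dist_le_card (hB : Blocks G d B π) {b x : V} (hx : x ∈ A π b) :
    G.dist x b ≤ (A π b).card := by
  have h1 := card_le_card (chain hB (G.dist x b) x hx rfl)
  rw [Nat.card_Icc] at h1
  have h2 := card_image_le (s := A π b) (f := fun y => G.dist y b)
  omega

/-- the height of the block -/
noncomputable def hgt (G : SimpleGraph V) (π : V → V) (b : V) : ℕ := (A π b).sup fun x => G.dist x b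

lemma le_hgt {b x : V} (hx : x ∈ A π b) : G.dist x b ≤ hgt G π b :=
  le_sup (f := fun x => G.dist x b) hx

lemma exists_hgt {b : V} (h : (A π b).Nonempty) : ∃ x ∈ A π b, G.dist x b = hgt G π b := by
  obtain ⟨x, hx, h1⟩ := exists_mem_eq_sup (A π b) h (fun x => G.dist x b)
  exact ⟨x, hx, h1.symm⟩

end Comb

open Comb

theorem combine (hT : TreeS) : CombineS := by
  intro V _ _ G d B π hn hd hB T hT0 ⟨μ, hμ0, hμ1, hμ⟩
  set n := Fintype.card V with hnn
  set s := B.card with hs
  set H : V → Finset V := fun b => univ.filter fun x => π x = b with hH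
  set k : V → ℝ := fun b => ((H b).card : ℝ) with hk
  set ν : V → ℝ := fun b => ((A π b).card : ℝ) with hν
  set δ : V → ℝ := fun b => ∑ x ∈ A π b, (G.dist x b : ℝ) with hδ
  set E : V → ℝ := fun b => ∑ x ∈ H b, ∑ y ∈ H b, (G.dist x y : ℝ) with hE
  have hbA : ∀ b, b ∉ A π b := fun b h => (mem_A.1 h).2 rfl
  have hHe : ∀ b ∈ B, H b = insert b (A π b) := fun b hb => H_eq hB hb
  have hkν : ∀ b ∈ B, k b = 1 + ν b := by
    intro b hb
    show ((H b).card : ℝ) = 1 + ((A π b).card : ℝ)
    rw [hHe b hb, card_insert_of_notMem (hbA b)]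
    push_cast
    ring
  have hδH : ∀ b ∈ B, ∑ x ∈ H b, (G.dist x b : ℝ) = δ b := by
    intro b hb
    rw [hHe b hb, sum_insert (hbA b), SimpleGraph.dist_self, Nat.cast_zero, zero_add]
  -- the total counts
  have hksum : ∑ b ∈ B, k b = n := by
    have h1 : (univ : Finset V).card = ∑ b ∈ B, (H b).card :=
      card_eq_sum_card_fiberwise (fun x _ => hB.mem x)
    have h2 : (n : ℝ) = ((univ : Finset V).card : ℝ) := rfl
    rw [h2, h1]
    push_cast
    rfl
  have hνn : ∑ b ∈ B, (A π b).card + s = n := by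
    have h1 : (univ : Finset V).card = ∑ b ∈ B, (H b).card :=
      card_eq_sum_card_fiberwise (fun x _ => hB.mem x)
    have h2 : ∑ b ∈ B, (H b).card = ∑ b ∈ B, ((A π b).card + 1) := by
      refine sum_congr rfl fun b hb => ?_
      rw [hHe b hb, card_insert_of_notMem (hbA b)]
    rw [h2, sum_add_distrib] at h1
    simp only [sum_const, smul_eq_mul, mul_one] at h1
    exact h1.symm
  set N := ∑ b ∈ B, (A π b).card with hN
  have hNr : ∑ b ∈ B, ν b = N := by
    rw [hN]
    push_cast
    rfl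
  -- the tree bound on a block
  have htree : ∀ b ∈ B, E b + 2 * ((n : ℝ) - k b) * δ b ≤ 2 * w n (hgt G π b) ^ 2 * ν b := by
    intro b hb
    have h1 := hT V G b (A π b) (hgt G π b) (hbA b) (by
      intro x hx
      have hx' := mem_A.1 hx
      obtain ⟨y, h1, h2, h3⟩ := hB.down x (by rw [hx'.1]; exact hx'.2)
      rw [hx'.1] at h2 h3
      refine ⟨y, h1, h2, ?_⟩
      by_cases h4 : y = b
      · exact Or.inl h4
      · exact Or.inr (mem_A.2 ⟨h3, h4⟩)) (fun x hx => le_hgt hx)
    have h2 : E b = (∑ x ∈ A π b, ∑ y ∈ A π b, (G.dist x y : ℝ)) + 2 * δ b := by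
      show ∑ x ∈ H b, ∑ y ∈ H b, (G.dist x y : ℝ) = _
      rw [hHe b hb, sum_insert (hbA b)]
      simp_rw [sum_insert (hbA b)]
      rw [SimpleGraph.dist_self, Nat.cast_zero, zero_add, sum_add_distrib]
      have h3 : ∑ y ∈ A π b, (G.dist b y : ℝ) = δ b :=
        sum_congr rfl fun y _ => by rw [SimpleGraph.dist_comm]
      rw [h3]
      show δ b + (δ b + _) = _
      ring
    rw [h2, hkν b hb]
    have h3 : (∑ x ∈ A π b, (G.dist x b : ℝ)) = δ b := rfl
    rw [h3] at h1
    show _ ≤ 2 * w n (hgt G π b) ^ 2 * ((A π b).card : ℝ)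
    have h4 : ν b = ((A π b).card : ℝ) := rfl
    rw [h4]
    linarith
  -- the decomposition
  have hD : ∑ x, ∑ y, (G.dist x y : ℝ) = ∑ b ∈ B, (E b + 2 * ((n : ℝ) - k b) * δ b)
      + ∑ b ∈ B, ∑ c ∈ B, k b * k c * G.dist b c := by
    have h1 : ∑ x, ∑ y, (G.dist x y : ℝ)
        = ∑ b ∈ B, ∑ c ∈ B, ∑ x ∈ H b, ∑ y ∈ H c, (G.dist x y : ℝ) := by
      have hf : ∀ F : V → ℝ, ∑ x, F x = ∑ b ∈ B, ∑ x ∈ H b, F x := fun F =>
        (sum_fiberwise_of_maps_to (s := univ) (t := B) (g := π) (fun x _ => hB.mem x) F).symm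
      rw [hf]
      refine sum_congr rfl fun b _ => ?_
      exact (sum_congr rfl fun x _ => hf _).trans sum_comm
    have h2 : ∀ b ∈ B, ∀ c ∈ B, ∑ x ∈ H b, ∑ y ∈ H c, (G.dist x y : ℝ)
        = (k c * δ b + k b * k c * G.dist b c + k b * δ c)
          + (if b = c then E b - 2 * k b * δ b else 0) := by
      intro b hb c hc
      by_cases hbc : b = c
      · subst hbc
        rw [if_pos rfl, SimpleGraph.dist_self]
        show E b = _
        push_cast
        ring
      · rw [if_neg hbc, add_zero]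
        have h3 : ∀ x ∈ H b, ∀ y ∈ H c, (G.dist x y : ℝ)
            = (G.dist x b : ℝ) + G.dist b c + G.dist y c := by
          intro x hx y hy
          have hx' : π x = b := (mem_filter.1 hx).2
          have hy' : π y = c := (mem_filter.1 hy).2
          have h4 := hB.dist x y (by rw [hx', hy']; exact hbc)
          rw [hx', hy'] at h4
          rw [h4, SimpleGraph.dist_comm (u := y)]
          push_cast
          ring
        rw [sum_congr rfl fun x hx => sum_congr rfl fun y hy => h3 x hx y hy]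
        simp_rw [sum_add_distrib, sum_const, nsmul_eq_mul]
        rw [← mul_sum, hδH b hb, hδH c hc]
        show k c * δ b + k b * (k c * _) + k b * δ c = _
        ring
    rw [h1, sum_congr rfl fun b hb => sum_congr rfl fun c hc => h2 b hb c hc]
    simp_rw [sum_add_distrib]
    have h3 : ∑ b ∈ B, ∑ c ∈ B, k c * δ b = ∑ b ∈ B, n * δ b := by
      refine sum_congr rfl fun b _ => ?_
      rw [← sum_mul, hksum]
    have h4 : ∑ b ∈ B, ∑ c ∈ B, k b * δ c = ∑ b ∈ B, n * δ b := by
      rw [sum_comm]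
      refine sum_congr rfl fun b _ => ?_
      rw [← sum_mul, hksum]
    have h5 : ∑ b ∈ B, ∑ c ∈ B, (if b = c then E b - 2 * k b * δ b else 0)
        = ∑ b ∈ B, (E b - 2 * k b * δ b) := by
      refine sum_congr rfl fun b hb => ?_
      rw [sum_ite_eq, if_pos hb]
    rw [h3, h4, h5]
    have h6 : ∑ b ∈ B, 2 * ((n : ℝ) - k b) * δ b
        = ∑ b ∈ B, n * δ b + ∑ b ∈ B, n * δ b - ∑ b ∈ B, 2 * k b * δ b := by
      rw [← sum_add_distrib, ← sum_sub_distrib]
      exact sum_congr rfl fun b _ => by ring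
    rw [h6, sum_sub_distrib]
    ring
  -- the sums over the centres
  set q : ℝ := ((s ^ 2 / 4 : ℕ) : ℝ) with hq
  have hrow : ∀ b ∈ B, ∑ c ∈ B, (G.dist b c : ℝ) ≤ q := by
    intro b hb
    have := sum_dist_le hB hb
    rw [hq]
    exact_mod_cast this
  have hν0 : ∀ b, 0 ≤ ν b := fun b => Nat.cast_nonneg _
  have hpair : ∑ b ∈ B, ∑ c ∈ B, k b * k c * G.dist b c ≤ s * q + 2 * N * q
      + ∑ b ∈ B, ∑ c ∈ B, ν b * ν c * G.dist b c := by
    have h1 : ∑ b ∈ B, ∑ c ∈ B, k b * k c * G.dist b c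
        = ∑ b ∈ B, ∑ c ∈ B, (G.dist b c : ℝ) + ∑ b ∈ B, ∑ c ∈ B, ν b * G.dist b c
          + ∑ b ∈ B, ∑ c ∈ B, ν c * G.dist b c + ∑ b ∈ B, ∑ c ∈ B, ν b * ν c * G.dist b c := by
      simp_rw [← sum_add_distrib]
      refine sum_congr rfl fun b hb => sum_congr rfl fun c hc => ?_
      rw [hkν b hb, hkν c hc]
      ring
    have h2 : ∑ b ∈ B, ∑ c ∈ B, (G.dist b c : ℝ) ≤ s * q := by
      have := sum_le_card_nsmul B _ q hrow
      rwa [nsmul_eq_mul] at this
    have h3 : ∑ b ∈ B, ∑ c ∈ B, ν b * G.dist b c ≤ N * q := by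
      rw [← hNr, sum_mul]
      refine sum_le_sum fun b hb => ?_
      rw [← mul_sum]
      exact mul_le_mul_of_nonneg_left (hrow b hb) (hν0 b)
    have h4 : ∑ b ∈ B, ∑ c ∈ B, ν c * G.dist b c ≤ N * q := by
      rw [sum_comm]
      refine le_trans (le_of_eq ?_) h3
      refine sum_congr rfl fun b _ => sum_congr rfl fun c _ => ?_
      rw [SimpleGraph.dist_comm]
    linarith
  -- the heights
  set g : V → ℝ := fun b => (1 - μ) * ((s / 2 : ℕ) : ℝ) + μ * ((d : ℝ) - 2 * hgt G π b) with hg
  have hdh : ∀ b ∈ B, ν b ≠ 0 → 1 ≤ hgt G π b ∧ hgt G π b ≤ (A π b).card ∧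
      2 * hgt G π b + 1 ≤ d := by
    intro b hb h0
    have hne : (A π b).Nonempty := by
      rw [nonempty_iff_ne_empty]
      intro h
      apply h0
      show ((A π b).card : ℝ) = 0
      rw [h]; simp
    obtain ⟨x, hx, h1⟩ := exists_hgt (G := G) hne
    have h2 := dist_pos_A hB hx
    have h3 := dist_le_card hB hx
    have h4 := hB.height x
    rw [(mem_A.1 hx).1] at h4
    omega
  have hg0 : ∀ b ∈ B, ν b ≠ 0 → 0 ≤ g b := by
    intro b hb h0
    obtain ⟨-, -, h1⟩ := hdh b hb h0
    have h2 : 2 * (hgt G π b : ℝ) + 1 ≤ d := by exact_mod_cast h1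
    have h3 : (0 : ℝ) ≤ ((s / 2 : ℕ) : ℝ) := Nat.cast_nonneg _
    show 0 ≤ (1 - μ) * ((s / 2 : ℕ) : ℝ) + μ * ((d : ℝ) - 2 * hgt G π b)
    have h4 := mul_nonneg (sub_nonneg.2 hμ1) h3
    have h5 := mul_nonneg hμ0 (by linarith : (0 : ℝ) ≤ (d : ℝ) - 2 * hgt G π b)
    linarith
  have hQ1 : ∀ b ∈ B, ∀ c ∈ B, ν b * ν c * G.dist b c
      ≤ (ν b * ν c * g b + ν b * ν c * g c) / 2 - (if b = c then ν b * ν b * g b else 0) := by
    intro b hb c hc
    by_cases hbc : b = c
    · subst hbc
      rw [if_pos rfl, SimpleGraph.dist_self]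
      push_cast
      linarith
    · rw [if_neg hbc, sub_zero]
      by_cases hb0 : ν b = 0
      · rw [hb0]; simp
      by_cases hc0 : ν c = 0
      · rw [hc0]; simp
      have hneb : (A π b).Nonempty := by
        rw [nonempty_iff_ne_empty]
        intro h
        apply hb0
        show ((A π b).card : ℝ) = 0
        rw [h]; simp
      have hnec : (A π c).Nonempty := by
        rw [nonempty_iff_ne_empty]
        intro h
        apply hc0
        show ((A π c).card : ℝ) = 0
        rw [h]; simp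
      obtain ⟨x, hx, h1⟩ := exists_hgt (G := G) hneb
      obtain ⟨y, hy, h2⟩ := exists_hgt (G := G) hnec
      have hx' := (mem_A.1 hx).1
      have hy' := (mem_A.1 hy).1
      have h3 := hB.dist x y (by rw [hx', hy']; exact hbc)
      rw [hx', hy'] at h3
      have h4 := hd x y
      rw [SimpleGraph.dist_comm (u := c)] at h3
      have h5 : hgt G π b + G.dist b c + hgt G π c ≤ d := by omega
      have h6 : (hgt G π b : ℝ) + G.dist b c + hgt G π c ≤ d := by exact_mod_cast h5
      have h7 : (G.dist b c : ℝ) ≤ ((s / 2 : ℕ) : ℝ) := by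
        exact_mod_cast dist_le_half hB hb hc
      have h8 : (G.dist b c : ℝ) ≤ (g b + g c) / 2 := by
        show (G.dist b c : ℝ) ≤ (((1 - μ) * ((s / 2 : ℕ) : ℝ) + μ * ((d : ℝ) - 2 * hgt G π b))
          + ((1 - μ) * ((s / 2 : ℕ) : ℝ) + μ * ((d : ℝ) - 2 * hgt G π c))) / 2
        have h9 := mul_le_mul_of_nonneg_left h7 (sub_nonneg.2 hμ1)
        have h10 := mul_le_mul_of_nonneg_left
          (by linarith : (G.dist b c : ℝ) ≤ d - hgt G π b - hgt G π c) hμ0
        nlinarith
      have h11 := mul_le_mul_of_nonneg_left h8 (mul_nonneg (hν0 b) (hν0 c))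
      linarith
  have hQ : ∑ b ∈ B, ∑ c ∈ B, ν b * ν c * G.dist b c
      ≤ ∑ b ∈ B, ν b * ((N - hgt G π b) * g b) := by
    refine (sum_le_sum fun b hb => sum_le_sum fun c hc => hQ1 b hb c hc).trans ?_
    simp_rw [sum_sub_distrib]
    have h1 : ∑ b ∈ B, ∑ c ∈ B, (ν b * ν c * g b + ν b * ν c * g c) / 2
        = ∑ b ∈ B, ν b * N * g b := by
      have h2 : ∑ b ∈ B, ∑ c ∈ B, ν b * ν c * g b = ∑ b ∈ B, ν b * N * g b := by
        refine sum_congr rfl fun b _ => ?_
        rw [← sum_mul, ← mul_sum, hNr]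
      have h3 : ∑ b ∈ B, ∑ c ∈ B, ν b * ν c * g c = ∑ b ∈ B, ν b * N * g b := by
        rw [sum_comm, ← h2]
        refine sum_congr rfl fun b _ => sum_congr rfl fun c _ => by ring
      simp_rw [add_div, sum_add_distrib, ← sum_div]
      rw [h2, h3]
      ring
    rw [h1]
    have h5 : ∑ b ∈ B, ∑ c ∈ B, (if b = c then ν b * ν b * g b else 0)
        = ∑ b ∈ B, ν b * ν b * g b := by
      refine sum_congr rfl fun b hb => ?_
      rw [sum_ite_eq, if_pos hb]
    rw [h5, ← sum_sub_distrib]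
    refine sum_le_sum fun b hb => ?_
    by_cases h0 : ν b = 0
    · rw [h0]; simp
    · obtain ⟨-, h6, -⟩ := hdh b hb h0
      have h7 : (hgt G π b : ℝ) ≤ ν b := by
        show (hgt G π b : ℝ) ≤ ((A π b).card : ℝ)
        exact_mod_cast h6
      have h8 := mul_le_mul_of_nonneg_right h7 (mul_nonneg (hν0 b) (hg0 b hb h0))
      nlinarith
  -- the sizes
  have hsn : s + N = n := by omega
  have hhalf : n ≤ s * (n / 2) := by
    have h1 : (univ : Finset V).card = ∑ b ∈ B, (H b).card :=
      card_eq_sum_card_fiberwise (fun x _ => hB.mem x)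
    have h2 : ∑ b ∈ B, (H b).card ≤ s • (n / 2) := by
      apply sum_le_card_nsmul
      intro b hb
      have := hB.half b hb
      show (univ.filter fun x => π x = b).card ≤ n / 2
      omega
    rw [smul_eq_mul] at h2
    have h3 : n = (univ : Finset V).card := rfl
    omega
  set F : V → ℝ := fun b => 2 * q + 2 * w n (hgt G π b) ^ 2 + ((N : ℝ) - hgt G π b) * g b with hF
  have hmain : ∑ x, ∑ y, (G.dist x y : ℝ) ≤ s * q + ∑ b ∈ B, ν b * F b := by
    rw [hD]
    have h1 : ∑ b ∈ B, (E b + 2 * ((n : ℝ) - k b) * δ b)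
        ≤ ∑ b ∈ B, 2 * w n (hgt G π b) ^ 2 * ν b := sum_le_sum htree
    have h2 : ∑ b ∈ B, ν b * F b = 2 * N * q + ∑ b ∈ B, 2 * w n (hgt G π b) ^ 2 * ν b
        + ∑ b ∈ B, ν b * ((N - hgt G π b) * g b) := by
      rw [← hNr, mul_sum, sum_mul, ← sum_add_distrib, ← sum_add_distrib]
      refine sum_congr rfl fun b _ => ?_
      show ν b * (2 * q + 2 * w n (hgt G π b) ^ 2 + ((N : ℝ) - hgt G π b) * g b) = _
      rw [hNr]
      ring
    rw [h2]
    linarith
  refine lt_of_le_of_lt hmain ?_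
  have hFb : ∀ b ∈ B, ν b ≠ 0 → s * q + N * F b < T := by
    intro b hb h0
    obtain ⟨h1, h2, h3⟩ := hdh b hb h0
    have h4 : (A π b).card ≤ N := single_le_sum (f := fun b => (A π b).card)
      (fun _ _ => Nat.zero_le _) hb
    exact hμ s N (hgt G π b) hsn hhalf h1 (by omega) h3
  rcases Nat.eq_zero_or_pos N with hN0 | hN0
  · have h1 : ∀ b ∈ B, ν b * F b = 0 := by
      intro b hb
      have h4 : (A π b).card ≤ N := single_le_sum (f := fun b => (A π b).card)
        (fun _ _ => Nat.zero_le _) hb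
      have h5 : (A π b).card = 0 := by omega
      have h6 : ν b = 0 := by
        show ((A π b).card : ℝ) = 0
        rw [h5]; simp
      rw [h6, zero_mul]
    rw [sum_eq_zero h1, add_zero]
    have h2 : s = n := by omega
    rw [hq, h2]
    exact hT0
  · have hNp : (0 : ℝ) < N := by exact_mod_cast hN0
    have h1 : N * (s * q + ∑ b ∈ B, ν b * F b) = ∑ b ∈ B, ν b * (s * q + N * F b) := by
      have h2 : ∑ b ∈ B, ν b * (s * q + N * F b) = ∑ b ∈ B, ν b * (s * q)
          + N * ∑ b ∈ B, ν b * F b := by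
        rw [mul_sum, ← sum_add_distrib]
        exact sum_congr rfl fun b _ => by ring
      rw [h2, ← sum_mul, hNr]
      ring
    have h2 : ∑ b ∈ B, ν b * (s * q + N * F b) < ∑ b ∈ B, ν b * T := by
      have hex : ∃ b ∈ B, ν b ≠ 0 := by
        by_contra hcon
        push Not at hcon
        rw [sum_eq_zero hcon] at hNr
        linarith
      obtain ⟨b0, hb0, h0⟩ := hex
      refine sum_lt_sum (fun b hb => ?_) ⟨b0, hb0, ?_⟩
      · by_cases h : ν b = 0
        · rw [h]; simp
        · exact mul_le_mul_of_nonneg_left (hFb b hb h).le (hν0 b)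
      · exact mul_lt_mul_of_pos_left (hFb b0 hb0 h0) (lt_of_le_of_ne (hν0 b0) (Ne.symm h0))
    rw [← sum_mul, hNr, ← h1] at h2
    exact lt_of_mul_lt_mul_left h2 hNp.le

end Pool.Agent.Lib.MP_b0a977_co.DW
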