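import Pool.Agent.Lib.MP_b0a977_co.DW.Seq

/-!
# Interface, second part: order `2d-k`, the cycle with a path attached

For `k ≥ 0` and `d ≥ 100 (k+1)` the maximum is attained by the cycle of length `2(d-k)` with a path
of length `k` attached at one vertex.
-/

namespace Pool.Agent.Lib.MP_b0a977_co.DW

open Finset

/-- Twice the Wiener index of the cycle of length `2(d-k)` with a path of length `k` attached. -/
noncomputable def tad (d k : ℕ) : ℝ :=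
  2 * d * ((d : ℝ) - k) ^ 2 + (2 * d - k) * k * (k + 1) - k * (k + 1) * (2 * k + 1) / 3

/-- TAD: the lower bound. -/
def TadS : Prop := ∀ a k : ℕ, 2 ≤ a → ∃ G : SimpleGraph (Fin (2 * a + k)),
  G.Connected ∧ G.diam = a + k ∧
  3 * ∑ x, ∑ y, G.dist x y + k * (k + 1) * (2 * k + 1)
    = 6 * (a + k) * a ^ 2 + 3 * (2 * a + k) * k * (k + 1)

/-- TREE2: the path is the worst tree of given size. -/
def Tree2S : Prop := ∀ (V : Type) [Fintype V] [DecidableEq V] (G : SimpleGraph V) (v : V)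
  (A : Finset V), v ∉ A →
  (∀ x ∈ A, ∃ y, G.Adj x y ∧ G.dist y v + 1 = G.dist x v ∧ (y = v ∨ y ∈ A)) →
  2 * A.card ≤ Fintype.card V →
  (∑ x ∈ A, ∑ y ∈ A, (G.dist x y : ℝ))
      + 2 * ((Fintype.card V : ℝ) - A.card) * ∑ x ∈ A, (G.dist x v : ℝ)
    ≤ (Fintype.card V : ℝ) * A.card * (A.card + 1) - A.card * (A.card + 1) * (2 * A.card + 1) / 3

/-- TAIL: the bound by the cycle with one tail. -/
def TailS : Prop := ∀ (V : Type) [Fintype V] [DecidableEq V] (G : SimpleGraph V) (d : ℕ)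
  (B : Finset V) (π : V → V), 2 ≤ Fintype.card V → Blocks G d B π →
  ∀ N : ℕ, B.card + N = Fintype.card V → 5 * N + 6 ≤ 3 * Fintype.card V →
  ∑ x, ∑ y, (G.dist x y : ℝ) ≤ ((B.card : ℝ) + 2 * N) * (B.card ^ 2 / 4 : ℕ)
    + (Fintype.card V : ℝ) * N * (N + 1) - N * (N + 1) * (2 * N + 1) / 3

/-- NGE: the hanging part is large if the diameter is `d`. -/
def NgeS : Prop := ∀ (V : Type) [Fintype V] [DecidableEq V] (G : SimpleGraph V) (d : ℕ)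
  (B : Finset V) (π : V → V), 2 ≤ Fintype.card V → G.Connected → Blocks G d B π →
  (∃ x y, G.dist x y = d) →
  ∀ N : ℕ, B.card + N = Fintype.card V → d ≤ N + B.card / 2

/-- COMBINE2: `CombineS` for the given number of blocks only. -/
def Combine2S : Prop := ∀ (V : Type) [Fintype V] [DecidableEq V] (G : SimpleGraph V) (d : ℕ)
  (B : Finset V) (π : V → V), 2 ≤ Fintype.card V → (∀ x y, G.dist x y ≤ d) →
  Blocks G d B π → ∀ (N : ℕ) (T μ : ℝ), B.card + N = Fintype.card V → 1 ≤ N → 0 ≤ μ → μ ≤ 1 →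
  (∀ h : ℕ, 1 ≤ h → h ≤ N → 2 * h + 1 ≤ d →
    (B.card : ℝ) * (B.card ^ 2 / 4 : ℕ) + N * (2 * (B.card ^ 2 / 4 : ℕ)
      + 2 * w (Fintype.card V) h ^ 2
      + ((N : ℝ) - h) * ((1 - μ) * (B.card / 2 : ℕ) + μ * ((d : ℝ) - 2 * h))) < T) →
  ∑ x, ∑ y, (G.dist x y : ℝ) < T

/-- NUM3, part 1. -/
def Num3I : Prop := ∀ d k n : ℕ, n + k = 2 * d → 100 * (k + 1) ≤ d → ∀ h : ℕ, h ≤ d →
  ((n : ℝ) - 1) * (w n h ^ 2 + w n (d - h) ^ 2) < tad d k

/-- NUM3, part 2. -/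
def Num3II : Prop := ∀ d k n : ℕ, n + k = 2 * d → 100 * (k + 1) ≤ d →
  ∀ s N h : ℕ, s + N = n → 1 ≤ s → 7 * n ≤ 20 * N → 1 ≤ h → 2 * h + 1 ≤ d →
  (s : ℝ) * (s ^ 2 / 4 : ℕ) + N * (2 * (s ^ 2 / 4 : ℕ) + 2 * w n h ^ 2
    + ((N : ℝ) - h) * ((1 - 3 / 10) * (s / 2 : ℕ) + 3 / 10 * ((d : ℝ) - 2 * h))) < tad d k

/-- NUM3, part 3. -/
def Num3P : Prop := ∀ d k n : ℕ, n + k = 2 * d → 100 * (k + 1) ≤ d →
  ∀ s N : ℕ, s + N = n → k ≤ N → 20 * N ≤ 7 * n →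
  ((s : ℝ) + 2 * N) * (s ^ 2 / 4 : ℕ) + (n : ℝ) * N * (N + 1) - N * (N + 1) * (2 * N + 1) / 3
    ≤ tad d k

/-- UPPER2. -/
def Upper2S : Prop := ∀ (V : Type) [Fintype V] [DecidableEq V] (G : SimpleGraph V) (d k : ℕ),
  G.Connected → (∀ x y, G.dist x y ≤ d) → (∃ x y, G.dist x y = d) →
  Fintype.card V + k = 2 * d → 100 * (k + 1) ≤ d →
  ∑ x, ∑ y, (G.dist x y : ℝ) ≤ tad d k

end Pool.Agent.Lib.MP_b0a977_co.DW
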