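import Pool.Agent.Lib.MP_b0a977_co.DW.Combine
import Pool.Agent.Lib.MP_b0a977_co.DW.Iface2

/-!
# COMBINE2: the bound from the block structure, for the given number of blocks (helper9)

The proof is that of `combine` (helper73).
-/

namespace Pool.Agent.Lib.MP_b0a977_co.DW

open Finset Comb

theorem combine2 (hT : TreeS) : Combine2S := by
  intro V _ _ G d B π hn hd hB N' T μ hN' hN'1 hμ0 hμ1 hμ
  set n := Fintype.card V with hnn
  set s := B.card with hs
  set H : V → Finset V := fun b => univ.filter fun x => π x = b with hH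
  set k : V → ℝ := fun b => ((H b).card : ℝ) with hk
  set ν : V → ℝ := fun b => ((A π b).card : ℝ) with hν
  set δ : V → ℝ := fun b => ∑ x ∈ A π b, (G.dist x b : ℝ) with hδ
  set E : V → ℝ := fun b => ∑ x ∈ H b, ∑ y ∈ H b, (G.dist x y : ℝ) with hE
  have hbA : ∀ b, b ∉ A π b := fun b h => (mem_A.1 h).2 rfl
  have hHe : ∀ b ∈ B, H b = insert b (A π b) := fun b hb => H_eq hB hb
  have hkν : ∀ b ∈ B, k b = 1 + ν b := by
    intro b hb
    show ((H b).card : ℝ) = 1 + ((A π b).card : ℝ)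
    rw [hHe b hb, card_insert_of_notMem (hbA b)]
    push_cast
    ring
  have hδH : ∀ b ∈ B, ∑ x ∈ H b, (G.dist x b : ℝ) = δ b := by
    intro b hb
    rw [hHe b hb, sum_insert (hbA b), SimpleGraph.dist_self, Nat.cast_zero, zero_add]
  -- the total counts
  have hksum : ∑ b ∈ B, k b = n := by
    have h1 : (univ : Finset V).card = ∑ b ∈ B, (H b).card :=
      card_eq_sum_card_fiberwise (fun x _ => hB.mem x)
    have h2 : (n : ℝ) = ((univ : Finset V).card : ℝ) := rfl
    rw [h2, h1]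
    push_cast
    rfl
  have hνn : ∑ b ∈ B, (A π b).card + s = n := by
    have h1 : (univ : Finset V).card = ∑ b ∈ B, (H b).card :=
      card_eq_sum_card_fiberwise (fun x _ => hB.mem x)
    have h2 : ∑ b ∈ B, (H b).card = ∑ b ∈ B, ((A π b).card + 1) := by
      refine sum_congr rfl fun b hb => ?_
      rw [hHe b hb, card_insert_of_notMem (hbA b)]
    rw [h2, sum_add_distrib] at h1
    simp only [sum_const, smul_eq_mul, mul_one] at h1
    exact h1.symm
  set N := ∑ b ∈ B, (A π b).card with hN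
  have hNr : ∑ b ∈ B, ν b = N := by
    rw [hN]
    push_cast
    rfl
  -- the tree bound on a block
  have htree : ∀ b ∈ B, E b + 2 * ((n : ℝ) - k b) * δ b ≤ 2 * w n (hgt G π b) ^ 2 * ν b := by
    intro b hb
    have h1 := hT V G b (A π b) (hgt G π b) (hbA b) (by
      intro x hx
      have hx' := mem_A.1 hx
      obtain ⟨y, h1, h2, h3⟩ := hB.down x (by rw [hx'.1]; exact hx'.2)
      rw [hx'.1] at h2 h3
      refine ⟨y, h1, h2, ?_⟩
      by_cases h4 : y = b
      · exact Or.inl h4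
      · exact Or.inr (mem_A.2 ⟨h3, h4⟩)) (fun x hx => le_hgt hx)
    have h2 : E b = (∑ x ∈ A π b, ∑ y ∈ A π b, (G.dist x y : ℝ)) + 2 * δ b := by
      show ∑ x ∈ H b, ∑ y ∈ H b, (G.dist x y : ℝ) = _
      rw [hHe b hb, sum_insert (hbA b)]
      simp_rw [sum_insert (hbA b)]
      rw [SimpleGraph.dist_self, Nat.cast_zero, zero_add, sum_add_distrib]
      have h3 : ∑ y ∈ A π b, (G.dist b y : ℝ) = δ b :=
        sum_congr rfl fun y _ => by rw [SimpleGraph.dist_comm]
      rw [h3]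
      show δ b + (δ b + _) = _
      ring
    rw [h2, hkν b hb]
    have h3 : (∑ x ∈ A π b, (G.dist x b : ℝ)) = δ b := rfl
    rw [h3] at h1
    show _ ≤ 2 * w n (hgt G π b) ^ 2 * ((A π b).card : ℝ)
    have h4 : ν b = ((A π b).card : ℝ) := rfl
    rw [h4]
    linarith
  -- the decomposition
  have hD : ∑ x, ∑ y, (G.dist x y : ℝ) = ∑ b ∈ B, (E b + 2 * ((n : ℝ) - k b) * δ b)
      + ∑ b ∈ B, ∑ c ∈ B, k b * k c * G.dist b c := by
    have h1 : ∑ x, ∑ y, (G.dist x y : ℝ)
        = ∑ b ∈ B, ∑ c ∈ B, ∑ x ∈ H b, ∑ y ∈ H c, (G.dist x y : ℝ) := by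
      have hf : ∀ F : V → ℝ, ∑ x, F x = ∑ b ∈ B, ∑ x ∈ H b, F x := fun F =>
        (sum_fiberwise_of_maps_to (s := univ) (t := B) (g := π) (fun x _ => hB.mem x) F).symm
      rw [hf]
      refine sum_congr rfl fun b _ => ?_
      exact (sum_congr rfl fun x _ => hf _).trans sum_comm
    have h2 : ∀ b ∈ B, ∀ c ∈ B, ∑ x ∈ H b, ∑ y ∈ H c, (G.dist x y : ℝ)
        = (k c * δ b + k b * k c * G.dist b c + k b * δ c)
          + (if b = c then E b - 2 * k b * δ b else 0) := by
      intro b hb c hc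
      by_cases hbc : b = c
      · subst hbc
        rw [if_pos rfl, SimpleGraph.dist_self]
        show E b = _
        push_cast
        ring
      · rw [if_neg hbc, add_zero]
        have h3 : ∀ x ∈ H b, ∀ y ∈ H c, (G.dist x y : ℝ)
            = (G.dist x b : ℝ) + G.dist b c + G.dist y c := by
          intro x hx y hy
          have hx' : π x = b := (mem_filter.1 hx).2
          have hy' : π y = c := (mem_filter.1 hy).2
          have h4 := hB.dist x y (by rw [hx', hy']; exact hbc)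
          rw [hx', hy'] at h4
          rw [h4, SimpleGraph.dist_comm (u := y)]
          push_cast
          ring
        rw [sum_congr rfl fun x hx => sum_congr rfl fun y hy => h3 x hx y hy]
        simp_rw [sum_add_distrib, sum_const, nsmul_eq_mul]
        rw [← mul_sum, hδH b hb, hδH c hc]
        show k c * δ b + k b * (k c * _) + k b * δ c = _
        ring
    rw [h1, sum_congr rfl fun b hb => sum_congr rfl fun c hc => h2 b hb c hc]
    simp_rw [sum_add_distrib]
    have h3 : ∑ b ∈ B, ∑ c ∈ B, k c * δ b = ∑ b ∈ B, n * δ b := by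
      refine sum_congr rfl fun b _ => ?_
      rw [← sum_mul, hksum]
    have h4 : ∑ b ∈ B, ∑ c ∈ B, k b * δ c = ∑ b ∈ B, n * δ b := by
      rw [sum_comm]
      refine sum_congr rfl fun b _ => ?_
      rw [← sum_mul, hksum]
    have h5 : ∑ b ∈ B, ∑ c ∈ B, (if b = c then E b - 2 * k b * δ b else 0)
        = ∑ b ∈ B, (E b - 2 * k b * δ b) := by
      refine sum_congr rfl fun b hb => ?_
      rw [sum_ite_eq, if_pos hb]
    rw [h3, h4, h5]
    have h6 : ∑ b ∈ B, 2 * ((n : ℝ) - k b) * δ b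
        = ∑ b ∈ B, n * δ b + ∑ b ∈ B, n * δ b - ∑ b ∈ B, 2 * k b * δ b := by
      rw [← sum_add_distrib, ← sum_sub_distrib]
      exact sum_congr rfl fun b _ => by ring
    rw [h6, sum_sub_distrib]
    ring
  -- the sums over the centres
  set q : ℝ := ((s ^ 2 / 4 : ℕ) : ℝ) with hq
  have hrow : ∀ b ∈ B, ∑ c ∈ B, (G.dist b c : ℝ) ≤ q := by
    intro b hb
    have := sum_dist_le hB hb
    rw [hq]
    exact_mod_cast this
  have hν0 : ∀ b, 0 ≤ ν b := fun b => Nat.cast_nonneg _
  have hpair : ∑ b ∈ B, ∑ c ∈ B, k b * k c * G.dist b c ≤ s * q + 2 * N * q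
      + ∑ b ∈ B, ∑ c ∈ B, ν b * ν c * G.dist b c := by
    have h1 : ∑ b ∈ B, ∑ c ∈ B, k b * k c * G.dist b c
        = ∑ b ∈ B, ∑ c ∈ B, (G.dist b c : ℝ) + ∑ b ∈ B, ∑ c ∈ B, ν b * G.dist b c
          + ∑ b ∈ B, ∑ c ∈ B, ν c * G.dist b c + ∑ b ∈ B, ∑ c ∈ B, ν b * ν c * G.dist b c := by
      simp_rw [← sum_add_distrib]
      refine sum_congr rfl fun b hb => sum_congr rfl fun c hc => ?_
      rw [hkν b hb, hkν c hc]
      ring
    have h2 : ∑ b ∈ B, ∑ c ∈ B, (G.dist b c : ℝ) ≤ s * q := by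
      have := sum_le_card_nsmul B _ q hrow
      rwa [nsmul_eq_mul] at this
    have h3 : ∑ b ∈ B, ∑ c ∈ B, ν b * G.dist b c ≤ N * q := by
      rw [← hNr, sum_mul]
      refine sum_le_sum fun b hb => ?_
      rw [← mul_sum]
      exact mul_le_mul_of_nonneg_left (hrow b hb) (hν0 b)
    have h4 : ∑ b ∈ B, ∑ c ∈ B, ν c * G.dist b c ≤ N * q := by
      rw [sum_comm]
      refine le_trans (le_of_eq ?_) h3
      refine sum_congr rfl fun b _ => sum_congr rfl fun c _ => ?_
      rw [SimpleGraph.dist_comm]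
    linarith
  -- the heights
  set g : V → ℝ := fun b => (1 - μ) * ((s / 2 : ℕ) : ℝ) + μ * ((d : ℝ) - 2 * hgt G π b) with hg
  have hdh : ∀ b ∈ B, ν b ≠ 0 → 1 ≤ hgt G π b ∧ hgt G π b ≤ (A π b).card ∧
      2 * hgt G π b + 1 ≤ d := by
    intro b hb h0
    have hne : (A π b).Nonempty := by
      rw [nonempty_iff_ne_empty]
      intro h
      apply h0
      show ((A π b).card : ℝ) = 0
      rw [h]; simp
    obtain ⟨x, hx, h1⟩ := exists_hgt (G := G) hne
    have h2 := dist_pos_A hB hx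
    have h3 := dist_le_card hB hx
    have h4 := hB.height x
    rw [(mem_A.1 hx).1] at h4
    omega
  have hg0 : ∀ b ∈ B, ν b ≠ 0 → 0 ≤ g b := by
    intro b hb h0
    obtain ⟨-, -, h1⟩ := hdh b hb h0
    have h2 : 2 * (hgt G π b : ℝ) + 1 ≤ d := by exact_mod_cast h1
    have h3 : (0 : ℝ) ≤ ((s / 2 : ℕ) : ℝ) := Nat.cast_nonneg _
    show 0 ≤ (1 - μ) * ((s / 2 : ℕ) : ℝ) + μ * ((d : ℝ) - 2 * hgt G π b)
    have h4 := mul_nonneg (sub_nonneg.2 hμ1) h3
    have h5 := mul_nonneg hμ0 (by linarith : (0 : ℝ) ≤ (d : ℝ) - 2 * hgt G π b)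
    linarith
  have hQ1 : ∀ b ∈ B, ∀ c ∈ B, ν b * ν c * G.dist b c
      ≤ (ν b * ν c * g b + ν b * ν c * g c) / 2 - (if b = c then ν b * ν b * g b else 0) := by
    intro b hb c hc
    by_cases hbc : b = c
    · subst hbc
      rw [if_pos rfl, SimpleGraph.dist_self]
      push_cast
      linarith
    · rw [if_neg hbc, sub_zero]
      by_cases hb0 : ν b = 0
      · rw [hb0]; simp
      by_cases hc0 : ν c = 0
      · rw [hc0]; simp
      have hneb : (A π b).Nonempty := by
        rw [nonempty_iff_ne_empty]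
        intro h
        apply hb0
        show ((A π b).card : ℝ) = 0
        rw [h]; simp
      have hnec : (A π c).Nonempty := by
        rw [nonempty_iff_ne_empty]
        intro h
        apply hc0
        show ((A π c).card : ℝ) = 0
        rw [h]; simp
      obtain ⟨x, hx, h1⟩ := exists_hgt (G := G) hneb
      obtain ⟨y, hy, h2⟩ := exists_hgt (G := G) hnec
      have hx' := (mem_A.1 hx).1
      have hy' := (mem_A.1 hy).1
      have h3 := hB.dist x y (by rw [hx', hy']; exact hbc)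
      rw [hx', hy'] at h3
      have h4 := hd x y
      rw [SimpleGraph.dist_comm (u := c)] at h3
      have h5 : hgt G π b + G.dist b c + hgt G π c ≤ d := by omega
      have h6 : (hgt G π b : ℝ) + G.dist b c + hgt G π c ≤ d := by exact_mod_cast h5
      have h7 : (G.dist b c : ℝ) ≤ ((s / 2 : ℕ) : ℝ) := by
        exact_mod_cast dist_le_half hB hb hc
      have h8 : (G.dist b c : ℝ) ≤ (g b + g c) / 2 := by
        show (G.dist b c : ℝ) ≤ (((1 - μ) * ((s / 2 : ℕ) : ℝ) + μ * ((d : ℝ) - 2 * hgt G π b))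
          + ((1 - μ) * ((s / 2 : ℕ) : ℝ) + μ * ((d : ℝ) - 2 * hgt G π c))) / 2
        have h9 := mul_le_mul_of_nonneg_left h7 (sub_nonneg.2 hμ1)
        have h10 := mul_le_mul_of_nonneg_left
          (by linarith : (G.dist b c : ℝ) ≤ d - hgt G π b - hgt G π c) hμ0
        nlinarith
      have h11 := mul_le_mul_of_nonneg_left h8 (mul_nonneg (hν0 b) (hν0 c))
      linarith
  have hQ : ∑ b ∈ B, ∑ c ∈ B, ν b * ν c * G.dist b c
      ≤ ∑ b ∈ B, ν b * ((N - hgt G π b) * g b) := by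
    refine (sum_le_sum fun b hb => sum_le_sum fun c hc => hQ1 b hb c hc).trans ?_
    simp_rw [sum_sub_distrib]
    have h1 : ∑ b ∈ B, ∑ c ∈ B, (ν b * ν c * g b + ν b * ν c * g c) / 2
        = ∑ b ∈ B, ν b * N * g b := by
      have h2 : ∑ b ∈ B, ∑ c ∈ B, ν b * ν c * g b = ∑ b ∈ B, ν b * N * g b := by
        refine sum_congr rfl fun b _ => ?_
        rw [← sum_mul, ← mul_sum, hNr]
      have h3 : ∑ b ∈ B, ∑ c ∈ B, ν b * ν c * g c = ∑ b ∈ B, ν b * N * g b := by
        rw [sum_comm, ← h2]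
        refine sum_congr rfl fun b _ => sum_congr rfl fun c _ => by ring
      simp_rw [add_div, sum_add_distrib, ← sum_div]
      rw [h2, h3]
      ring
    rw [h1]
    have h5 : ∑ b ∈ B, ∑ c ∈ B, (if b = c then ν b * ν b * g b else 0)
        = ∑ b ∈ B, ν b * ν b * g b := by
      refine sum_congr rfl fun b hb => ?_
      rw [sum_ite_eq, if_pos hb]
    rw [h5, ← sum_sub_distrib]
    refine sum_le_sum fun b hb => ?_
    by_cases h0 : ν b = 0
    · rw [h0]; simp
    · obtain ⟨-, h6, -⟩ := hdh b hb h0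
      have h7 : (hgt G π b : ℝ) ≤ ν b := by
        show (hgt G π b : ℝ) ≤ ((A π b).card : ℝ)
        exact_mod_cast h6
      have h8 := mul_le_mul_of_nonneg_right h7 (mul_nonneg (hν0 b) (hg0 b hb h0))
      nlinarith
  -- the sizes
  have hsn : s + N = n := by omega
  obtain rfl : N' = N := by omega
  set F : V → ℝ := fun b => 2 * q + 2 * w n (hgt G π b) ^ 2 + ((N : ℝ) - hgt G π b) * g b with hF
  have hmain : ∑ x, ∑ y, (G.dist x y : ℝ) ≤ s * q + ∑ b ∈ B, ν b * F b := by
    rw [hD]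
    have h1 : ∑ b ∈ B, (E b + 2 * ((n : ℝ) - k b) * δ b)
        ≤ ∑ b ∈ B, 2 * w n (hgt G π b) ^ 2 * ν b := sum_le_sum htree
    have h2 : ∑ b ∈ B, ν b * F b = 2 * N * q + ∑ b ∈ B, 2 * w n (hgt G π b) ^ 2 * ν b
        + ∑ b ∈ B, ν b * ((N - hgt G π b) * g b) := by
      rw [← hNr, mul_sum, sum_mul, ← sum_add_distrib, ← sum_add_distrib]
      refine sum_congr rfl fun b _ => ?_
      show ν b * (2 * q + 2 * w n (hgt G π b) ^ 2 + ((N : ℝ) - hgt G π b) * g b) = _
      rw [hNr]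
      ring
    rw [h2]
    linarith
  refine lt_of_le_of_lt hmain ?_
  have hFb : ∀ b ∈ B, ν b ≠ 0 → s * q + N * F b < T := by
    intro b hb h0
    obtain ⟨h1, h2, h3⟩ := hdh b hb h0
    have h4 : (A π b).card ≤ N := single_le_sum (f := fun b => (A π b).card)
      (fun _ _ => Nat.zero_le _) hb
    exact hμ (hgt G π b) h1 (by omega) h3
  have hNp : (0 : ℝ) < N := by exact_mod_cast hN'1
  have h1 : N * (s * q + ∑ b ∈ B, ν b * F b) = ∑ b ∈ B, ν b * (s * q + N * F b) := by
    have h2 : ∑ b ∈ B, ν b * (s * q + N * F b) = ∑ b ∈ B, ν b * (s * q)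
        + N * ∑ b ∈ B, ν b * F b := by
      rw [mul_sum, ← sum_add_distrib]
      exact sum_congr rfl fun b _ => by ring
    rw [h2, ← sum_mul, hNr]
    ring
  have h2 : ∑ b ∈ B, ν b * (s * q + N * F b) < ∑ b ∈ B, ν b * T := by
    have hex : ∃ b ∈ B, ν b ≠ 0 := by
      by_contra hcon
      push Not at hcon
      rw [sum_eq_zero hcon] at hNr
      linarith
    obtain ⟨b0, hb0, h0⟩ := hex
    refine sum_lt_sum (fun b hb => ?_) ⟨b0, hb0, ?_⟩
    · by_cases h : ν b = 0
      · rw [h]; simp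
      · exact mul_le_mul_of_nonneg_left (hFb b hb h).le (hν0 b)
    · exact mul_lt_mul_of_pos_left (hFb b0 hb0 h0) (lt_of_le_of_ne (hν0 b0) (Ne.symm h0))
  rw [← sum_mul, hNr, ← h1] at h2
  exact lt_of_mul_lt_mul_left h2 hNp.le

end Pool.Agent.Lib.MP_b0a977_co.DW
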