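import Pool.Agent.Lib.MP_b0a977_co.DW.Iface3
import Pool.Agent.Lib.MP_b0a977_co.DW.Combine

/-!
# COMBINE3: two and four blocks (helper18)

Modification of `Combine.lean`: `∑_(b≠c) ν_b ν_c dist(b,c) ≤ N² + (⌊s²/4⌋ - s) ∑ ν_b²`.
-/

namespace Pool.Agent.Lib.MP_b0a977_co.DW

open Finset

open Comb

theorem combine3 (hT : TreeS) : Combine3S := by
  intro V _ _ G d B π hn hconn hB N' T hN' hN1 hcase
  set n := Fintype.card V with hnn
  set s := B.card with hs
  set H : V → Finset V := fun b => univ.filter fun x => π x = b with hH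
  set k : V → ℝ := fun b => ((H b).card : ℝ) with hk
  set ν : V → ℝ := fun b => ((A π b).card : ℝ) with hν
  set δ : V → ℝ := fun b => ∑ x ∈ A π b, (G.dist x b : ℝ) with hδ
  set E : V → ℝ := fun b => ∑ x ∈ H b, ∑ y ∈ H b, (G.dist x y : ℝ) with hE
  have hbA : ∀ b, b ∉ A π b := fun b h => (mem_A.1 h).2 rfl
  have hHe : ∀ b ∈ B, H b = insert b (A π b) := fun b hb => H_eq hB hb
  have hkν : ∀ b ∈ B, k b = 1 + ν b := by
    intro b hb
    show ((H b).card : ℝ) = 1 + ((A π b).card : ℝ)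
    rw [hHe b hb, card_insert_of_notMem (hbA b)]
    push_cast
    ring
  have hδH : ∀ b ∈ B, ∑ x ∈ H b, (G.dist x b : ℝ) = δ b := by
    intro b hb
    rw [hHe b hb, sum_insert (hbA b), SimpleGraph.dist_self, Nat.cast_zero, zero_add]
  -- the total counts
  have hksum : ∑ b ∈ B, k b = n := by
    have h1 : (univ : Finset V).card = ∑ b ∈ B, (H b).card :=
      card_eq_sum_card_fiberwise (fun x _ => hB.mem x)
    have h2 : (n : ℝ) = ((univ : Finset V).card : ℝ) := rfl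
    rw [h2, h1]
    push_cast
    rfl
  have hνn : ∑ b ∈ B, (A π b).card + s = n := by
    have h1 : (univ : Finset V).card = ∑ b ∈ B, (H b).card :=
      card_eq_sum_card_fiberwise (fun x _ => hB.mem x)
    have h2 : ∑ b ∈ B, (H b).card = ∑ b ∈ B, ((A π b).card + 1) := by
      refine sum_congr rfl fun b hb => ?_
      rw [hHe b hb, card_insert_of_notMem (hbA b)]
    rw [h2, sum_add_distrib] at h1
    simp only [sum_const, smul_eq_mul, mul_one] at h1
    exact h1.symm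
  set N := ∑ b ∈ B, (A π b).card with hN
  have hNN : N' = N := by omega
  subst hNN
  have hNr : ∑ b ∈ B, ν b = N := by
    rw [hN]
    push_cast
    rfl
  -- the tree bound on a block
  have htree : ∀ b ∈ B, E b + 2 * ((n : ℝ) - k b) * δ b ≤ 2 * w n (hgt G π b) ^ 2 * ν b := by
    intro b hb
    have h1 := hT V G b (A π b) (hgt G π b) (hbA b) (by
      intro x hx
      have hx' := mem_A.1 hx
      obtain ⟨y, h1, h2, h3⟩ := hB.down x (by rw [hx'.1]; exact hx'.2)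
      rw [hx'.1] at h2 h3
      refine ⟨y, h1, h2, ?_⟩
      by_cases h4 : y = b
      · exact Or.inl h4
      · exact Or.inr (mem_A.2 ⟨h3, h4⟩)) (fun x hx => le_hgt hx)
    have h2 : E b = (∑ x ∈ A π b, ∑ y ∈ A π b, (G.dist x y : ℝ)) + 2 * δ b := by
      show ∑ x ∈ H b, ∑ y ∈ H b, (G.dist x y : ℝ) = _
      rw [hHe b hb, sum_insert (hbA b)]
      simp_rw [sum_insert (hbA b)]
      rw [SimpleGraph.dist_self, Nat.cast_zero, zero_add, sum_add_distrib]
      have h3 : ∑ y ∈ A π b, (G.dist b y : ℝ) = δ b :=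
        sum_congr rfl fun y _ => by rw [SimpleGraph.dist_comm]
      rw [h3]
      show δ b + (δ b + _) = _
      ring
    rw [h2, hkν b hb]
    have h3 : (∑ x ∈ A π b, (G.dist x b : ℝ)) = δ b := rfl
    rw [h3] at h1
    show _ ≤ 2 * w n (hgt G π b) ^ 2 * ((A π b).card : ℝ)
    have h4 : ν b = ((A π b).card : ℝ) := rfl
    rw [h4]
    linarith
  -- the decomposition
  have hD : ∑ x, ∑ y, (G.dist x y : ℝ) = ∑ b ∈ B, (E b + 2 * ((n : ℝ) - k b) * δ b)
      + ∑ b ∈ B, ∑ c ∈ B, k b * k c * G.dist b c := by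
    have h1 : ∑ x, ∑ y, (G.dist x y : ℝ)
        = ∑ b ∈ B, ∑ c ∈ B, ∑ x ∈ H b, ∑ y ∈ H c, (G.dist x y : ℝ) := by
      have hf : ∀ F : V → ℝ, ∑ x, F x = ∑ b ∈ B, ∑ x ∈ H b, F x := fun F =>
        (sum_fiberwise_of_maps_to (s := univ) (t := B) (g := π) (fun x _ => hB.mem x) F).symm
      rw [hf]
      refine sum_congr rfl fun b _ => ?_
      exact (sum_congr rfl fun x _ => hf _).trans sum_comm
    have h2 : ∀ b ∈ B, ∀ c ∈ B, ∑ x ∈ H b, ∑ y ∈ H c, (G.dist x y : ℝ)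
        = (k c * δ b + k b * k c * G.dist b c + k b * δ c)
          + (if b = c then E b - 2 * k b * δ b else 0) := by
      intro b hb c hc
      by_cases hbc : b = c
      · subst hbc
        rw [if_pos rfl, SimpleGraph.dist_self]
        show E b = _
        push_cast
        ring
      · rw [if_neg hbc, add_zero]
        have h3 : ∀ x ∈ H b, ∀ y ∈ H c, (G.dist x y : ℝ)
            = (G.dist x b : ℝ) + G.dist b c + G.dist y c := by
          intro x hx y hy
          have hx' : π x = b := (mem_filter.1 hx).2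
          have hy' : π y = c := (mem_filter.1 hy).2
          have h4 := hB.dist x y (by rw [hx', hy']; exact hbc)
          rw [hx', hy'] at h4
          rw [h4, SimpleGraph.dist_comm (u := y)]
          push_cast
          ring
        rw [sum_congr rfl fun x hx => sum_congr rfl fun y hy => h3 x hx y hy]
        simp_rw [sum_add_distrib, sum_const, nsmul_eq_mul]
        rw [← mul_sum, hδH b hb, hδH c hc]
        show k c * δ b + k b * (k c * _) + k b * δ c = _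
        ring
    rw [h1, sum_congr rfl fun b hb => sum_congr rfl fun c hc => h2 b hb c hc]
    simp_rw [sum_add_distrib]
    have h3 : ∑ b ∈ B, ∑ c ∈ B, k c * δ b = ∑ b ∈ B, n * δ b := by
      refine sum_congr rfl fun b _ => ?_
      rw [← sum_mul, hksum]
    have h4 : ∑ b ∈ B, ∑ c ∈ B, k b * δ c = ∑ b ∈ B, n * δ b := by
      rw [sum_comm]
      refine sum_congr rfl fun b _ => ?_
      rw [← sum_mul, hksum]
    have h5 : ∑ b ∈ B, ∑ c ∈ B, (if b = c then E b - 2 * k b * δ b else 0)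
        = ∑ b ∈ B, (E b - 2 * k b * δ b) := by
      refine sum_congr rfl fun b hb => ?_
      rw [sum_ite_eq, if_pos hb]
    rw [h3, h4, h5]
    have h6 : ∑ b ∈ B, 2 * ((n : ℝ) - k b) * δ b
        = ∑ b ∈ B, n * δ b + ∑ b ∈ B, n * δ b - ∑ b ∈ B, 2 * k b * δ b := by
      rw [← sum_add_distrib, ← sum_sub_distrib]
      exact sum_congr rfl fun b _ => by ring
    rw [h6, sum_sub_distrib]
    ring
  -- the sums over the centres
  set q : ℝ := ((s ^ 2 / 4 : ℕ) : ℝ) with hq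
  have hrow : ∀ b ∈ B, ∑ c ∈ B, (G.dist b c : ℝ) ≤ q := by
    intro b hb
    have := sum_dist_le hB hb
    rw [hq]
    exact_mod_cast this
  have hν0 : ∀ b, 0 ≤ ν b := fun b => Nat.cast_nonneg _
  have hpair : ∑ b ∈ B, ∑ c ∈ B, k b * k c * G.dist b c ≤ s * q + 2 * N * q
      + ∑ b ∈ B, ∑ c ∈ B, ν b * ν c * G.dist b c := by
    have h1 : ∑ b ∈ B, ∑ c ∈ B, k b * k c * G.dist b c
        = ∑ b ∈ B, ∑ c ∈ B, (G.dist b c : ℝ) + ∑ b ∈ B, ∑ c ∈ B, ν b * G.dist b c
          + ∑ b ∈ B, ∑ c ∈ B, ν c * G.dist b c + ∑ b ∈ B, ∑ c ∈ B, ν b * ν c * G.dist b c := by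
      simp_rw [← sum_add_distrib]
      refine sum_congr rfl fun b hb => sum_congr rfl fun c hc => ?_
      rw [hkν b hb, hkν c hc]
      ring
    have h2 : ∑ b ∈ B, ∑ c ∈ B, (G.dist b c : ℝ) ≤ s * q := by
      have := sum_le_card_nsmul B _ q hrow
      rwa [nsmul_eq_mul] at this
    have h3 : ∑ b ∈ B, ∑ c ∈ B, ν b * G.dist b c ≤ N * q := by
      rw [← hNr, sum_mul]
      refine sum_le_sum fun b hb => ?_
      rw [← mul_sum]
      exact mul_le_mul_of_nonneg_left (hrow b hb) (hν0 b)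
    have h4 : ∑ b ∈ B, ∑ c ∈ B, ν c * G.dist b c ≤ N * q := by
      rw [sum_comm]
      refine le_trans (le_of_eq ?_) h3
      refine sum_congr rfl fun b _ => sum_congr rfl fun c _ => ?_
      rw [SimpleGraph.dist_comm]
    linarith
  -- the heights
  have hdh : ∀ b ∈ B, ν b ≠ 0 → 1 ≤ hgt G π b ∧ 2 * hgt G π b + 1 ≤ d := by
    intro b hb h0
    have hne : (A π b).Nonempty := by
      rw [nonempty_iff_ne_empty]
      intro h
      apply h0
      show ((A π b).card : ℝ) = 0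
      rw [h]; simp
    obtain ⟨x, hx, h1⟩ := exists_hgt (G := G) hne
    have h2 := dist_pos_A hB hx
    have h4 := hB.height x
    rw [(mem_A.1 hx).1] at h4
    omega
  -- the pairs of blocks
  have hQ1 : ∀ b ∈ B, ∀ c ∈ B, ν b * ν c * G.dist b c
      ≤ ν b * ν c + (ν b ^ 2 + ν c ^ 2) / 2 * ((G.dist b c : ℝ) - 1) := by
    intro b hb c hc
    by_cases hbc : b = c
    · subst hbc
      rw [SimpleGraph.dist_self]
      push_cast
      apply le_of_eq
      ring
    · have h1 : 1 ≤ G.dist b c := hconn.pos_dist_of_ne hbc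
      have h2 : (1 : ℝ) ≤ (G.dist b c : ℝ) := by exact_mod_cast h1
      nlinarith [sq_nonneg (ν b - ν c), mul_nonneg (sq_nonneg (ν b - ν c)) (sub_nonneg.2 h2)]
  have hQ : ∑ b ∈ B, ∑ c ∈ B, ν b * ν c * G.dist b c
      ≤ (N : ℝ) ^ 2 + (q - s) * ∑ b ∈ B, ν b ^ 2 := by
    refine (sum_le_sum fun b hb => sum_le_sum fun c hc => hQ1 b hb c hc).trans ?_
    have h1 : ∑ b ∈ B, ∑ c ∈ B, ν b * ν c = (N : ℝ) ^ 2 := by
      rw [sq, ← hNr, sum_mul_sum]
    have h2 : ∑ b ∈ B, ∑ c ∈ B, ν b ^ 2 * ((G.dist b c : ℝ) - 1) ≤ (q - s) * ∑ b ∈ B, ν b ^ 2 := by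
      rw [mul_sum]
      refine sum_le_sum fun b hb => ?_
      rw [← mul_sum, sum_sub_distrib]
      have h3 := hrow b hb
      have h4 : ∑ c ∈ B, (1 : ℝ) = s := by
        rw [sum_const, nsmul_eq_mul, mul_one]
      rw [h4]
      nlinarith [mul_nonneg (sq_nonneg (ν b)) (sub_nonneg.2 h3)]
    have h3 : ∑ b ∈ B, ∑ c ∈ B, ν c ^ 2 * ((G.dist b c : ℝ) - 1)
        = ∑ b ∈ B, ∑ c ∈ B, ν b ^ 2 * ((G.dist b c : ℝ) - 1) := by
      rw [sum_comm]
      refine sum_congr rfl fun b _ => sum_congr rfl fun c _ => ?_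
      rw [SimpleGraph.dist_comm]
    have h4 : ∑ b ∈ B, ∑ c ∈ B, (ν b * ν c + (ν b ^ 2 + ν c ^ 2) / 2 * ((G.dist b c : ℝ) - 1))
        = ∑ b ∈ B, ∑ c ∈ B, ν b * ν c
          + (∑ b ∈ B, ∑ c ∈ B, ν b ^ 2 * ((G.dist b c : ℝ) - 1)
            + ∑ b ∈ B, ∑ c ∈ B, ν c ^ 2 * ((G.dist b c : ℝ) - 1)) / 2 := by
      rw [add_div, sum_div, sum_div]
      simp_rw [sum_div, ← sum_add_distrib]
      refine sum_congr rfl fun b _ => sum_congr rfl fun c _ => by ring
    rw [h4, h1, h3]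
    linarith
  -- the main bound
  obtain ⟨C, hC1, hC2⟩ : ∃ C : ℝ, s * q + 2 * N * q + ((N : ℝ) ^ 2 + (q - s) * ∑ b ∈ B, ν b ^ 2) ≤ C
      ∧ ∀ h : ℕ, 1 ≤ h → 2 * h + 1 ≤ d → C + 2 * N * w n h ^ 2 < T := by
    rcases hcase with ⟨h1, h2⟩ | ⟨h1, h2⟩
    · refine ⟨2 + 2 * (N : ℝ) + (N : ℝ) ^ 2 / 2, ?_, h2⟩
      have hs2 : (s : ℝ) = 2 := by exact_mod_cast h1
      have hs2' : s = 2 := h1
      have hq1 : q = 1 := by rw [hq, hs2']; norm_num
      have h3 : (N : ℝ) ^ 2 ≤ 2 * ∑ b ∈ B, ν b ^ 2 := by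
        have := sq_sum_le_card_mul_sum_sq (s := B) (f := ν)
        rw [hNr] at this
        have hc : (B.card : ℝ) = 2 := hs2
        rw [hc] at this
        exact this
      rw [hs2, hq1]
      linarith
    · refine ⟨16 + 8 * (N : ℝ) + (N : ℝ) ^ 2, ?_, h2⟩
      have hs2 : (s : ℝ) = 4 := by exact_mod_cast h1
      have hs2' : s = 4 := h1
      have hq1 : q = 4 := by rw [hq, hs2']; norm_num
      rw [hs2, hq1]
      linarith
  set F : V → ℝ := fun b => 2 * w n (hgt G π b) ^ 2 with hF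
  have hmain : ∑ x, ∑ y, (G.dist x y : ℝ) ≤ C + ∑ b ∈ B, ν b * F b := by
    rw [hD]
    have h1 : ∑ b ∈ B, (E b + 2 * ((n : ℝ) - k b) * δ b)
        ≤ ∑ b ∈ B, 2 * w n (hgt G π b) ^ 2 * ν b := sum_le_sum htree
    have h2 : ∑ b ∈ B, ν b * F b = ∑ b ∈ B, 2 * w n (hgt G π b) ^ 2 * ν b :=
      sum_congr rfl fun b _ => mul_comm _ _
    rw [h2]
    linarith
  refine lt_of_le_of_lt hmain ?_
  have hFb : ∀ b ∈ B, ν b ≠ 0 → C + N * F b < T := by
    intro b hb h0
    obtain ⟨h1, h3⟩ := hdh b hb h0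
    have h4 := hC2 (hgt G π b) h1 h3
    show C + N * (2 * w n (hgt G π b) ^ 2) < T
    linarith
  have hNp : (0 : ℝ) < N := by exact_mod_cast hN1
  have h1 : N * (C + ∑ b ∈ B, ν b * F b) = ∑ b ∈ B, ν b * (C + N * F b) := by
    have h2 : ∑ b ∈ B, ν b * (C + N * F b) = ∑ b ∈ B, ν b * C
        + N * ∑ b ∈ B, ν b * F b := by
      rw [mul_sum, ← sum_add_distrib]
      exact sum_congr rfl fun b _ => by ring
    rw [h2, ← sum_mul, hNr]
    ring
  have h2 : ∑ b ∈ B, ν b * (C + N * F b) < ∑ b ∈ B, ν b * T := by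
    have hex : ∃ b ∈ B, ν b ≠ 0 := by
      by_contra hcon
      push Not at hcon
      rw [sum_eq_zero hcon] at hNr
      linarith
    obtain ⟨b0, hb0, h0⟩ := hex
    refine sum_lt_sum (fun b hb => ?_) ⟨b0, hb0, ?_⟩
    · by_cases h : ν b = 0
      · rw [h]; simp
      · exact mul_le_mul_of_nonneg_left (hFb b hb h).le (hν0 b)
    · exact mul_lt_mul_of_pos_left (hFb b0 hb0 h0) (lt_of_le_of_ne (hν0 b0) (Ne.symm h0))
  rw [← sum_mul, hNr, ← h1] at h2
  exact lt_of_mul_lt_mul_left h2 hNp.le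

end Pool.Agent.Lib.MP_b0a977_co.DW
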