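import Pool.Agent.Lib.MP_b0a977_co.DW.Iface

/-! # CYCLE: distances in the cycle -/

namespace Pool.Agent.Lib.MP_b0a977_co.DW.Cyc

open Finset

/-- The cycle on `Fin n`. -/
def cyc (n : ℕ) (hn : 3 ≤ n) : SimpleGraph (Fin n) where
  Adj i j := i.val + 1 = j.val ∨ j.val + 1 = i.val ∨ (i.val = 0 ∧ j.val + 1 = n) ∨
    (j.val = 0 ∧ i.val + 1 = n)
  symm := ⟨by
    intro i j h
    omega⟩
  loopless := ⟨by
    intro i h
    omega⟩

/-- The distance. -/
def f {n : ℕ} (i j : Fin n) : ℕ :=
  min ((i.val - j.val) + (j.val - i.val)) (n - ((i.val - j.val) + (j.val - i.val)))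

lemma f_step {n : ℕ} (hn : 3 ≤ n) (x y z : Fin n) (h : (cyc n hn).Adj x y) :
    f x z ≤ f y z + 1 := by
  have hx := x.isLt
  have hy := y.isLt
  have hz := z.isLt
  simp only [cyc] at h
  simp only [f]
  omega

lemma f_le_length {n : ℕ} (hn : 3 ≤ n) : ∀ {x y : Fin n} (p : (cyc n hn).Walk x y),
    f x y ≤ p.length := by
  intro x y p
  induction p with
  | nil =>
    simp [f]
  | cons h p ih =>
    rename_i u v w
    have := f_step hn u v w h
    simp only [SimpleGraph.Walk.length_cons]
    omega

lemma exists_walk {n : ℕ} (hn : 3 ≤ n) : ∀ k : ℕ, ∀ x y : Fin n, f x y = k →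
    ∃ p : (cyc n hn).Walk x y, p.length = k := by
  intro k
  induction k with
  | zero =>
    intro x y h
    have hx := x.isLt
    have hy := y.isLt
    have : x = y := by
      apply Fin.ext
      simp only [f] at h
      omega
    subst this
    exact ⟨SimpleGraph.Walk.nil, rfl⟩
  | succ k ih =>
    intro x y h
    have hx := x.isLt
    have hy := y.isLt
    simp only [f] at h
    have key : ∃ x' : Fin n, (cyc n hn).Adj x x' ∧ f x' y = k := by
      by_cases h1 : x.val < y.val
      · by_cases h2 : 2 * (y.val - x.val) ≤ n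
        · refine ⟨⟨x.val + 1, by omega⟩, ?_, ?_⟩
          · simp [cyc]
          · simp only [f]
            omega
        · by_cases h3 : x.val = 0
          · refine ⟨⟨n - 1, by omega⟩, ?_, ?_⟩
            · simp only [cyc]
              omega
            · simp only [f]
              omega
          · refine ⟨⟨x.val - 1, by omega⟩, ?_, ?_⟩
            · simp only [cyc]
              omega
            · simp only [f]
              omega
      · have hxy : y.val < x.val := by omega
        by_cases h2 : 2 * (x.val - y.val) ≤ n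
        · refine ⟨⟨x.val - 1, by omega⟩, ?_, ?_⟩
          · simp only [cyc]
            omega
          · simp only [f]
            omega
        · by_cases h3 : x.val + 1 = n
          · refine ⟨⟨0, by omega⟩, ?_, ?_⟩
            · exact Or.inr (Or.inr (Or.inr ⟨rfl, h3⟩))
            · simp only [f]
              omega
          · refine ⟨⟨x.val + 1, by omega⟩, ?_, ?_⟩
            · simp [cyc]
            · simp only [f]
              omega
    obtain ⟨x', hadj, hf⟩ := key
    obtain ⟨p, hp⟩ := ih x' y hf
    exact ⟨SimpleGraph.Walk.cons hadj p, by simp [hp]⟩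

lemma dist_eq {n : ℕ} (hn : 3 ≤ n) (x y : Fin n) : (cyc n hn).dist x y = f x y := by
  obtain ⟨p, hp⟩ := exists_walk hn (f x y) x y rfl
  apply le_antisymm
  · rw [← hp]
    exact SimpleGraph.dist_le p
  · have hr : (cyc n hn).Reachable x y := ⟨p⟩
    obtain ⟨q, hq⟩ := hr.exists_walk_length_eq_dist
    rw [← hq]
    exact f_le_length hn q

lemma conn {n : ℕ} (hn : 3 ≤ n) : (cyc n hn).Connected := by
  have : Nonempty (Fin n) := ⟨⟨0, by omega⟩⟩
  refine ⟨fun x y => ?_⟩
  obtain ⟨p, _⟩ := exists_walk hn (f x y) x y rfl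
  exact ⟨p⟩

lemma sum_min : ∀ n : ℕ, ∑ d ∈ range n, min d (n - d) = n ^ 2 / 4 := by
  intro n
  induction n using Nat.strong_induction_on with
  | _ n ih =>
    match n, ih with
    | 0, _ => simp
    | 1, _ => simp
    | m + 2, ih =>
      have h := ih m (by omega)
      rw [Finset.sum_range_succ']
      have h2 : ∑ k ∈ range (m + 1), min (k + 1) (m + 2 - (k + 1))
          = ∑ k ∈ range (m + 1), (min k (m - k) + 1) := by
        apply Finset.sum_congr rfl
        intro k hk
        rw [Finset.mem_range] at hk
        omega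
      rw [h2, Finset.sum_add_distrib, Finset.sum_range_succ, h]
      simp only [Finset.sum_const, Finset.card_range, smul_eq_mul, mul_one]
      have h3 : (m + 2) ^ 2 = m ^ 2 + 4 * (m + 1) := by ring
      rw [h3]
      omega

lemma sum_f {n : ℕ} (hn : 3 ≤ n) (x : Fin n) : ∑ y, f x y = n ^ 2 / 4 := by
  have : NeZero n := ⟨by omega⟩
  rw [← sum_min n, Finset.sum_range fun d => min d (n - d)]
  refine Fintype.sum_equiv (Equiv.subRight x) _ _ ?_
  intro y
  have hx := x.isLt
  have hy := y.isLt
  simp only [Equiv.subRight_apply, Fin.sub_def, f]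
  by_cases h : x.val ≤ y.val
  · have h1 : (n - x.val + y.val) % n = y.val - x.val := by
      have : n - x.val + y.val = (y.val - x.val) + n := by omega
      rw [this, Nat.add_mod_right, Nat.mod_eq_of_lt (by omega)]
    rw [h1]
    omega
  · have h1 : (n - x.val + y.val) % n = n - x.val + y.val := Nat.mod_eq_of_lt (by omega)
    rw [h1]
    omega

theorem cycleS : CycleS := by
  intro n hn
  have : Nonempty (Fin n) := ⟨⟨0, by omega⟩⟩
  refine ⟨cyc n hn, conn hn, ?_, ?_⟩
  · apply le_antisymm
    · obtain ⟨u, v, huv⟩ := (cyc n hn).exists_dist_eq_diam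
      rw [← huv, dist_eq]
      have hu := u.isLt
      have hv := v.isLt
      simp only [f]
      omega
    · have h1 : (cyc n hn).dist ⟨0, by omega⟩ ⟨n / 2, by omega⟩ ≤ (cyc n hn).diam := by
        apply SimpleGraph.dist_le_diam
        exact (SimpleGraph.connected_iff_ediam_ne_top.mp (conn hn))
      rw [dist_eq] at h1
      simp only [f] at h1
      omega
  · simp only [dist_eq, sum_f hn, Finset.sum_const, Finset.card_univ, Fintype.card_fin,
      smul_eq_mul]

end Pool.Agent.Lib.MP_b0a977_co.DW.Cyc
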