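import Pool.Agent.Lib.MP_b0a977_co.DW.Iface

/-!
# GOOD: the bound if there is a good vertex (helper56)
-/

namespace Pool.Agent.Lib.MP_b0a977_co.DW

open Finset

namespace GoodAux

variable {V : Type}

/-- bounds on the sequence, for `2 ≤ n` -/
theorem w_bounds (n : ℕ) (hn : 2 ≤ n) (i : ℕ) : 1 ≤ w n i ∧ w n i ≤ (n : ℝ) / 2 := by
  have hn' : (2 : ℝ) ≤ n := by exact_mod_cast hn
  induction i with
  | zero => simp only [w]; constructor <;> linarith
  | succ i ih =>
    obtain ⟨h1, h2⟩ := ih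
    simp only [w]
    constructor
    · apply Real.le_sqrt_of_sq_le
      nlinarith [sq_nonneg (w n i - 1)]
    · apply Real.sqrt_le_iff.2
      constructor
      · linarith
      · nlinarith [mul_nonneg (sub_nonneg.2 h1) (sub_nonneg.2 h2), mul_nonneg (sub_nonneg.2 h2)
          (sub_nonneg.2 h2)]

theorem w_step (n : ℕ) (hn : 2 ≤ n) (i : ℕ) : w n i ≤ w n (i + 1) := by
  obtain ⟨h1, h2⟩ := w_bounds n hn i
  show w n i ≤ √((w n i - 1) ^ 2 + ((n : ℝ) - 1))
  apply Real.le_sqrt_of_sq_le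
  nlinarith

theorem w_mono (n : ℕ) (hn : 2 ≤ n) : Monotone (w n) := monotone_nat_of_le_succ (w_step n hn)

theorem cn_symm {G : SimpleGraph V} {v a b : V} (h : Cn G v a b) : Cn G v b a := by
  obtain ⟨p, hp⟩ := h
  exact ⟨p.reverse, by simpa using hp⟩

theorem cn_trans {G : SimpleGraph V} {v a b c : V} (h : Cn G v a b) (h' : Cn G v b c) :
    Cn G v a c := by
  obtain ⟨p, hp⟩ := h
  obtain ⟨q, hq⟩ := h'
  refine ⟨p.append q, ?_⟩
  rw [SimpleGraph.Walk.mem_support_append_iff]
  tauto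

theorem cn_adj {G : SimpleGraph V} {v a b : V} (h : G.Adj a b) (ha : a ≠ v) (hb : b ≠ v) :
    Cn G v a b := by
  refine ⟨SimpleGraph.Walk.cons h SimpleGraph.Walk.nil, ?_⟩
  simp only [SimpleGraph.Walk.support_cons, SimpleGraph.Walk.support_nil, List.mem_cons,
    List.not_mem_nil, or_false, not_or]
  exact ⟨fun h => ha h.symm, fun h => hb h.symm⟩

theorem cn_ne {G : SimpleGraph V} {v a b : V} (h : Cn G v a b) : b ≠ v := by
  rintro rfl
  obtain ⟨p, hp⟩ := h
  exact hp p.end_mem_support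

theorem dist_sep {G : SimpleGraph V} (hG : G.Connected) {v a b : V} (h : ¬ Cn G v a b) :
    G.dist a b = G.dist a v + G.dist v b := by
  classical
  apply le_antisymm hG.dist_triangle
  obtain ⟨p, hp⟩ := hG.exists_walk_length_eq_dist a b
  have hv : v ∈ p.support := by
    by_contra hc
    exact h ⟨p, hc⟩
  have h1 := SimpleGraph.dist_le (p.takeUntil v hv)
  have h2 := SimpleGraph.dist_le (p.dropUntil v hv)
  have h3 : (p.takeUntil v hv).length + (p.dropUntil v hv).length = p.length := by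
    rw [← SimpleGraph.Walk.length_append, SimpleGraph.Walk.take_spec]
  omega

theorem exists_down {G : SimpleGraph V} (hG : G.Connected) {v y : V} (h : y ≠ v) :
    ∃ z, G.Adj y z ∧ G.dist z v + 1 = G.dist y v := by
  obtain ⟨p, hp⟩ := hG.exists_walk_length_eq_dist y v
  cases p with
  | nil => exact absurd rfl h
  | cons hz q =>
    rename_i z
    refine ⟨z, hz, ?_⟩
    have h1 := SimpleGraph.dist_le q
    have h2 : G.dist y v ≤ G.dist y z + G.dist z v := hG.dist_triangle
    have h3 : G.dist y z ≤ 1 := by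
      have := SimpleGraph.dist_le (SimpleGraph.Walk.cons hz SimpleGraph.Walk.nil)
      simpa using this
    simp only [SimpleGraph.Walk.length_cons] at hp
    omega

end GoodAux

open GoodAux

theorem good (hT : TreeS) : GoodS := by
  classical
  intro V _ _ G d hG hd hgood
  obtain ⟨v, x, hxv, hfar, hcard⟩ := hgood
  set n := Fintype.card V with hn
  have hn2 : 2 ≤ n := by
    have : 1 < Fintype.card V := Fintype.one_lt_card_iff.2 ⟨x, v, hxv⟩
    omega
  set A : Finset V := univ.filter (fun y => Cn G v x y) with hA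
  set B : Finset V := univ.filter (fun y => y ≠ v ∧ ¬ Cn G v x y) with hB
  have hAc : A.card = Nat.card {y : V // Cn G v x y} := by
    rw [Nat.card_eq_fintype_card, Fintype.card_subtype]
  have hvA : v ∉ A := by
    intro h
    exact cn_ne (mem_filter.1 h).2 rfl
  have hvB : v ∉ B := by
    intro h
    exact (mem_filter.1 h).2.1 rfl
  have hAB : Disjoint A B := by
    rw [Finset.disjoint_left]
    intro y h1 h2
    exact (mem_filter.1 h2).2.2 (mem_filter.1 h1).2
  have hsplit : ∀ f : V → ℝ, ∑ y, f y = f v + ∑ y ∈ A, f y + ∑ y ∈ B, f y := by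
    intro f
    have h1 : (univ : Finset V) = insert v (A ∪ B) := by
      ext y
      simp only [mem_univ, mem_insert, mem_union, true_iff]
      by_cases hy : y = v
      · exact Or.inl hy
      · by_cases hc : Cn G v x y
        · exact Or.inr (Or.inl (mem_filter.2 ⟨mem_univ _, hc⟩))
        · exact Or.inr (Or.inr (mem_filter.2 ⟨mem_univ _, hy, hc⟩))
    rw [h1, sum_insert (by simp [hvA, hvB]), sum_union hAB, add_assoc]
  have hcards : (A.card : ℝ) + B.card + 1 = n := by
    have := hsplit (fun _ => 1)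
    simp only [sum_const, card_univ, nsmul_eq_mul, mul_one] at this
    rw [hn]
    linarith
  -- the distances to v
  have hdA : ∀ y ∈ A, G.dist y v ≤ G.dist x v := fun y _ => hfar y
  have hdB : ∀ y ∈ B, G.dist y v ≤ min (G.dist x v) (d - G.dist x v) := by
    intro y hy
    have h1 := dist_sep hG (mem_filter.1 hy).2.2
    have h2 := hd x y
    rw [G.dist_comm (u := v)] at h1
    refine le_min (hfar y) ?_
    omega
  have hTA := hT V G v A (G.dist x v) hvA (by
    intro y hy
    have hyv : y ≠ v := fun h => hvA (h ▸ hy)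
    obtain ⟨z, hz, hz'⟩ := exists_down hG hyv
    refine ⟨z, hz, hz', ?_⟩
    by_cases hzv : z = v
    · exact Or.inl hzv
    · exact Or.inr (mem_filter.2 ⟨mem_univ _, cn_trans (mem_filter.1 hy).2 (cn_adj hz hyv hzv)⟩))
    hdA
  have hTB := hT V G v B (min (G.dist x v) (d - G.dist x v)) hvB (by
    intro y hy
    have hyv : y ≠ v := fun h => hvB (h ▸ hy)
    obtain ⟨z, hz, hz'⟩ := exists_down hG hyv
    refine ⟨z, hz, hz', ?_⟩
    by_cases hzv : z = v
    · exact Or.inl hzv
    · refine Or.inr (mem_filter.2 ⟨mem_univ _, hzv, fun hc => ?_⟩)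
      exact (mem_filter.1 hy).2.2 (cn_trans hc (cn_adj hz.symm hzv hyv)))
    hdB
  -- the sum
  have hcross : ∀ a ∈ A, ∀ b ∈ B, G.dist a b = G.dist a v + G.dist v b := by
    intro a ha b hb
    apply dist_sep hG
    intro hc
    exact (mem_filter.1 hb).2.2 (cn_trans (mem_filter.1 ha).2 hc)
  set SA : ℝ := ∑ y ∈ A, (G.dist y v : ℝ) with hSA
  set SB : ℝ := ∑ y ∈ B, (G.dist y v : ℝ) with hSB
  set EA : ℝ := ∑ a ∈ A, ∑ b ∈ A, (G.dist a b : ℝ) with hEA
  set EB : ℝ := ∑ a ∈ B, ∑ b ∈ B, (G.dist a b : ℝ) with hEB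
  have hAB1 : ∑ a ∈ A, ∑ b ∈ B, (G.dist a b : ℝ) = B.card * SA + A.card * SB := by
    have : ∀ a ∈ A, ∑ b ∈ B, (G.dist a b : ℝ) = B.card * (G.dist a v : ℝ) + SB := by
      intro a ha
      rw [hSB, ← nsmul_eq_mul, ← sum_const, ← sum_add_distrib]
      apply sum_congr rfl
      intro b hb
      rw [hcross a ha b hb, G.dist_comm (u := v)]
      push_cast
      ring
    rw [sum_congr rfl this, sum_add_distrib, ← mul_sum, sum_const, nsmul_eq_mul]
  have hBA1 : ∑ b ∈ B, ∑ a ∈ A, (G.dist b a : ℝ) = B.card * SA + A.card * SB := by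
    rw [sum_comm, ← hAB1]
    apply sum_congr rfl
    intro a _
    apply sum_congr rfl
    intro b _
    rw [G.dist_comm]
  have htot : ∑ a, ∑ b, (G.dist a b : ℝ) =
      (EA + 2 * ((n : ℝ) - A.card) * SA) + (EB + 2 * ((n : ℝ) - B.card) * SB) := by
    have h1 : ∀ a, ∑ b, (G.dist a b : ℝ) =
        (G.dist a v : ℝ) + ∑ b ∈ A, (G.dist a b : ℝ) + ∑ b ∈ B, (G.dist a b : ℝ) :=
      fun a => hsplit (fun b => (G.dist a b : ℝ))
    have h2 : ∑ b ∈ A, (G.dist v b : ℝ) = SA :=
      sum_congr rfl fun b _ => by rw [G.dist_comm]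
    have h3 : ∑ b ∈ B, (G.dist v b : ℝ) = SB :=
      sum_congr rfl fun b _ => by rw [G.dist_comm]
    rw [hsplit (fun a => ∑ b, (G.dist a b : ℝ))]
    simp only [h1]
    rw [sum_add_distrib, sum_add_distrib, sum_add_distrib, sum_add_distrib, h2, h3, hAB1, hBA1,
      ← hSA, ← hSB, ← hEA, ← hEB, ← hcards, G.dist_self]
    push_cast
    ring
  refine ⟨G.dist x v, hd x v, ?_⟩
  rw [htot]
  have hm1 : w n (min (G.dist x v) (d - G.dist x v)) ≤ w n (G.dist x v) :=
    w_mono n hn2 (min_le_left _ _)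
  have hm2 : w n (min (G.dist x v) (d - G.dist x v)) ≤ w n (d - G.dist x v) :=
    w_mono n hn2 (min_le_right _ _)
  have hb := (w_bounds n hn2 (min (G.dist x v) (d - G.dist x v))).1
  set p := w n (G.dist x v)
  set q := w n (min (G.dist x v) (d - G.dist x v))
  set r := w n (d - G.dist x v)
  have hp2 : q ^ 2 ≤ p ^ 2 := by nlinarith
  have hq2 : q ^ 2 ≤ r ^ 2 := by nlinarith
  have hA2 : 2 * (A.card : ℝ) + 1 ≤ n := by
    rw [hAc]
    exact_mod_cast hcard
  have hn1 : (0 : ℝ) ≤ (n : ℝ) - 1 := by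
    have : (2 : ℝ) ≤ n := by exact_mod_cast hn2
    linarith
  have hBc : (B.card : ℝ) = n - 1 - A.card := by linarith
  have key : 2 * p ^ 2 * A.card + 2 * q ^ 2 * B.card ≤ ((n : ℝ) - 1) * (p ^ 2 + q ^ 2) := by
    rw [hBc]
    nlinarith [mul_nonneg (sub_nonneg.2 hp2) (sub_nonneg.2 hA2)]
  have key2 : ((n : ℝ) - 1) * (p ^ 2 + q ^ 2) ≤ ((n : ℝ) - 1) * (p ^ 2 + r ^ 2) :=
    mul_le_mul_of_nonneg_left (by linarith) hn1
  linarith

end Pool.Agent.Lib.MP_b0a977_co.DW
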