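import Pool.Agent.Lib.MP_b0a977_co.DW.Combine
import Pool.Agent.Lib.MP_b0a977_co.DW.Iface2

/-!
# Second part, the hanging part is large
-/

namespace Pool.Agent.Lib.MP_b0a977_co.DW

open Finset Comb

lemma dist_pi_le {V : Type} [Fintype V] [DecidableEq V] {G : SimpleGraph V} {d : ℕ}
    {B : Finset V} {π : V → V} (hb : Blocks G d B π) (x : V) :
    G.dist x (π x) ≤ (A π (π x)).card := by
  by_cases h : x = π x
  · rw [← h, SimpleGraph.dist_self]
    exact Nat.zero_le _
  · exact dist_le_card hb (mem_A.2 ⟨rfl, h⟩)

theorem nge : NgeS := by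
  intro V _ _ G d B π hn hc hb ⟨x, y, hxy⟩ N hN
  have hN2 : N = ∑ b ∈ B, (A π b).card := by
    have h1 : (univ : Finset V).card = ∑ b ∈ B, (univ.filter fun x => π x = b).card :=
      card_eq_sum_card_fiberwise (fun x _ => hb.mem x)
    have h2 : ∑ b ∈ B, (univ.filter fun x => π x = b).card = ∑ b ∈ B, ((A π b).card + 1) := by
      refine sum_congr rfl fun b hbB => ?_
      rw [H_eq hb hbB, card_insert_of_notMem (fun h => (mem_A.1 h).2 rfl)]
    rw [h2, sum_add_distrib, sum_const, smul_eq_mul, mul_one, card_univ] at h1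
    omega
  by_cases hp : π x = π y
  · have h1 := hb.height x
    have h2 := hb.height y
    have h3 := hc.dist_triangle (u := x) (v := π x) (w := y)
    rw [← hp] at h2
    rw [SimpleGraph.dist_comm (u := π x) (v := y)] at h3
    omega
  · have h1 := hb.dist x y hp
    have h2 := dist_pi_le hb x
    have h3 := dist_pi_le hb y
    have h4 := dist_le_half hb (hb.mem x) (hb.mem y)
    have h5 : (A π (π x)).card + (A π (π y)).card ≤ N := by
      rw [hN2, ← sum_pair hp (f := fun b => (A π b).card)]
      apply sum_le_sum_of_subset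
      intro b hbm
      rw [mem_insert, mem_singleton] at hbm
      rcases hbm with rfl | rfl
      · exact hb.mem x
      · exact hb.mem y
    rw [SimpleGraph.dist_comm (u := π y) (v := y)] at h1
    omega

end Pool.Agent.Lib.MP_b0a977_co.DW
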