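import Pool.Agent.Lib.MP_b0a977_co.DW.Iface2

/-!
# Second part, the numerics from the bounds for `w`
-/

namespace Pool.Agent.Lib.MP_b0a977_co.DW

open Finset

/-- The bounds for `w` near the middle. -/
def Num3W : Prop := ∀ d k n h : ℕ, n + k = 2 * d → 100 * (k + 1) ≤ d →
  (2 * h ≤ d → w n h ≤ 35 / 100 * n + 1 / 2) ∧ (2 * h + 1 ≤ d → w n h ≤ 35 / 100 * n + 1 / 5) ∧
  (2 * h + 2 ≤ d → w n h ≤ 35 / 100 * n)

lemma tad_ge {d k n : ℕ} (hnk : n + k = 2 * d) (hd : 100 * (k + 1) ≤ d) :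
    (n : ℝ) ^ 3 - k * n ^ 2 ≤ 4 * tad d k := by
  have h1 : (n : ℝ) + k = 2 * d := by exact_mod_cast hnk
  have h2 : 100 * ((k : ℝ) + 1) ≤ d := by exact_mod_cast hd
  have hk0 : (0 : ℝ) ≤ k := Nat.cast_nonneg k
  have hn : (n : ℝ) = 2 * d - k := by linarith
  have h3 : 199 * (k : ℝ) + 200 ≤ n := by linarith
  have h4 : 4 * tad d k = (n : ℝ) ^ 3 - k * n ^ 2 + (3 * n * k ^ 2 + 4 * n * k - 5 / 3 * k ^ 3
      - 4 * k ^ 2 - 4 / 3 * k) := by
    unfold tad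
    rw [hn]
    ring
  have h5 : 0 ≤ (k : ℝ) ^ 2 * (n - 199 * k - 200) :=
    mul_nonneg (sq_nonneg _) (by linarith)
  have h6 : 0 ≤ (k : ℝ) * (n - 199 * k - 200) := mul_nonneg hk0 (by linarith)
  have h7 : 0 ≤ (k : ℝ) ^ 3 := pow_nonneg hk0 3
  have h8 : 0 ≤ (k : ℝ) ^ 2 := sq_nonneg _
  nlinarith

theorem num3I (hW : Num3W) : Num3I := by
  intro d k n hnk hd h hh
  have h1 : (n : ℝ) + k = 2 * d := by exact_mod_cast hnk
  have h2 : 100 * ((k : ℝ) + 1) ≤ d := by exact_mod_cast hd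
  have hk0 : (0 : ℝ) ≤ k := Nat.cast_nonneg k
  have h3 : 199 * (k : ℝ) + 200 ≤ n := by linarith
  have hn2 : 2 ≤ n := by omega
  have hT := tad_ge hnk hd
  have a1 := w_concave hn2 h (d / 2)
  have a2 := w_concave hn2 (d - h) (d / 2)
  rw [Nat.cast_sub hh] at a2
  have hw1 := one_le_w hn2 (d / 2)
  have hkn : 0 ≤ (n : ℝ) ^ 2 * (n - 199 * k - 200) := mul_nonneg (sq_nonneg _) (by linarith)
  have hn3 : 0 ≤ (n : ℝ) ^ 2 * (n - 200) := mul_nonneg (sq_nonneg _) (by linarith)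
  have hn4 : 0 ≤ (n : ℝ) * (n - 200) := mul_nonneg (by linarith) (by linarith)
  rcases Nat.even_or_odd' d with ⟨m, hm | hm⟩
  · have hm2 : d / 2 = m := by omega
    rw [hm2] at a1 a2 hw1
    have hw := (hW d k n m hnk hd).1 (by omega)
    have hdm : (d : ℝ) = 2 * m := by exact_mod_cast hm
    have a3 : w n h ^ 2 + w n (d - h) ^ 2 ≤ 2 * (35 / 100 * n + 1 / 2) ^ 2 := by
      have : w n h ^ 2 + w n (d - h) ^ 2 ≤ 2 * w n m ^ 2 := by
        rw [hdm] at a2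
        linarith
      refine this.trans ?_
      nlinarith
    have a4 := mul_le_mul_of_nonneg_left a3 (show (0 : ℝ) ≤ n - 1 by linarith)
    refine a4.trans_lt ?_
    nlinarith
  · have hm2 : d / 2 = m := by omega
    rw [hm2] at a1 a2 hw1
    have hw := (hW d k n m hnk hd).2.1 (by omega)
    have hdm : (d : ℝ) = 2 * m + 1 := by exact_mod_cast hm
    have a3 : w n h ^ 2 + w n (d - h) ^ 2
        ≤ 2 * (35 / 100 * n + 1 / 5) ^ 2 + (n - 2 * (35 / 100 * n + 1 / 5)) := by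
      have : w n h ^ 2 + w n (d - h) ^ 2 ≤ 2 * w n m ^ 2 + (n - 2 * w n m) := by
        rw [hdm] at a2
        linarith
      refine this.trans ?_
      nlinarith
    have a4 := mul_le_mul_of_nonneg_left a3 (show (0 : ℝ) ≤ n - 1 by linarith)
    refine a4.trans_lt ?_
    nlinarith

/-- (II), real form -/
lemma core_two {n N k h H T d s S4 S2 W : ℝ} (hN0 : 0 ≤ N) (hhN : h ≤ N) (hs : s = n - N)
    (hs0 : 0 ≤ s) (hh0 : 0 ≤ h) (hhH : h ≤ H) (hH0 : 0 < H)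
    (hW : W ≤ T ^ 2 + (n - 2 * T) * (h - H)) (h4 : S4 ≤ s ^ 2 / 4) (h2 : S2 ≤ s / 2)
    (e0 : k * n ^ 2 < N * (n ^ 2 - 4 / 10 * n * N + 4 / 10 * N ^ 2 - 12 / 10 * N * d
      - 8 * (T ^ 2 - (n - 2 * T) * H)))
    (e1 : k * n ^ 2 < N * (n ^ 2 - 4 / 10 * n * N + 4 / 10 * N ^ 2 - 12 / 10 * N * d
      + 14 / 10 * n * H + N * H + 12 / 10 * H * d - 24 / 10 * H ^ 2 - 8 * T ^ 2)) :
    4 * (s * S4 + N * (2 * S4 + 2 * W + (N - h) * ((1 - 3 / 10) * S2 + 3 / 10 * (d - 2 * h))))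
      < n ^ 3 - k * n ^ 2 := by
  have e2 : k * n ^ 2 < N * (n ^ 2 - 4 / 10 * n * N + 4 / 10 * N ^ 2 - 12 / 10 * N * d
      + 14 / 10 * n * h + N * h + 12 / 10 * h * d - 24 / 10 * h ^ 2
      - 8 * (T ^ 2 + (n - 2 * T) * (h - H))) := by
    have m0 := mul_nonneg (sub_nonneg.2 hhH) (sub_nonneg.2 e0.le)
    have m1 := mul_nonneg hh0 (sub_nonneg.2 e1.le)
    have m2 := mul_nonneg (mul_nonneg (mul_nonneg hh0 (sub_nonneg.2 hhH)) hH0.le) hN0
    have key : 0 < H * (N * (n ^ 2 - 4 / 10 * n * N + 4 / 10 * N ^ 2 - 12 / 10 * N * d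
      + 14 / 10 * n * h + N * h + 12 / 10 * h * d - 24 / 10 * h ^ 2
      - 8 * (T ^ 2 + (n - 2 * T) * (h - H))) - k * n ^ 2) := by
      have e3 : H * (N * (n ^ 2 - 4 / 10 * n * N + 4 / 10 * N ^ 2 - 12 / 10 * N * d
      + 14 / 10 * n * h + N * h + 12 / 10 * h * d - 24 / 10 * h ^ 2
      - 8 * (T ^ 2 + (n - 2 * T) * (h - H))) - k * n ^ 2)
          = (H - h) * (N * (n ^ 2 - 4 / 10 * n * N + 4 / 10 * N ^ 2 - 12 / 10 * N * d
      - 8 * (T ^ 2 - (n - 2 * T) * H)) - k * n ^ 2)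
          + h * (N * (n ^ 2 - 4 / 10 * n * N + 4 / 10 * N ^ 2 - 12 / 10 * N * d
      + 14 / 10 * n * H + N * H + 12 / 10 * H * d - 24 / 10 * H ^ 2 - 8 * T ^ 2) - k * n ^ 2)
          + 24 / 10 * (h * (H - h) * H * N) := by ring
      rw [e3]
      rcases hh0.lt_or_eq with hp | hp
      · have := mul_pos hp (sub_pos.2 e1)
        linarith
      · rw [← hp]
        have := mul_pos hH0 (sub_pos.2 e0)
        linarith
    have := pos_of_mul_pos_right key hH0.le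
    linarith
  have b1 : s * S4 ≤ s * (s ^ 2 / 4) := mul_le_mul_of_nonneg_left h4 hs0
  have b2 : (N - h) * ((1 - 3 / 10) * S2 + 3 / 10 * (d - 2 * h))
      ≤ (N - h) * (7 / 10 * (s / 2) + 3 / 10 * (d - 2 * h)) :=
    mul_le_mul_of_nonneg_left (by linarith) (sub_nonneg.2 hhN)
  have b3 : N * (2 * S4 + 2 * W + (N - h) * ((1 - 3 / 10) * S2 + 3 / 10 * (d - 2 * h)))
      ≤ N * (2 * (s ^ 2 / 4) + 2 * (T ^ 2 + (n - 2 * T) * (h - H))
        + (N - h) * (7 / 10 * (s / 2) + 3 / 10 * (d - 2 * h))) :=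
    mul_le_mul_of_nonneg_left (by linarith) hN0
  have b6 : 4 * (s * (s ^ 2 / 4) + N * (2 * (s ^ 2 / 4) + 2 * (T ^ 2 + (n - 2 * T) * (h - H))
        + (N - h) * (7 / 10 * (s / 2) + 3 / 10 * (d - 2 * h))))
      = n ^ 3 - N * (n ^ 2 - 4 / 10 * n * N + 4 / 10 * N ^ 2 - 12 / 10 * N * d
      + 14 / 10 * n * h + N * h + 12 / 10 * h * d - 24 / 10 * h ^ 2
      - 8 * (T ^ 2 + (n - 2 * T) * (h - H))) := by
    rw [hs]; ring
  linarith

/-- the condition at `h = 0` -/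
lemma cond_zero {n N k c1 c2 : ℝ} (hk : 0 ≤ k) (hkn : 199 * k + 200 ≤ n) (hN : 7 * n ≤ 20 * N)
    (hNn : N ≤ n) (hc1 : 0 ≤ c1) (hc2 : 0 ≤ c2) (hc : 96 / 10 * c2 + 24 / 10 * c1 ≤ 312 / 100)
    (hc2' : c2 ≤ 1 / 5) :
    k * n ^ 2 < N * (n ^ 2 - 4 / 10 * n * N + 4 / 10 * N ^ 2 - 12 / 10 * N * ((n + k) / 2)
      - 8 * ((35 / 100 * n + c2) ^ 2
        - (n - 2 * (35 / 100 * n + c2)) * ((n + k) / 4 - c1))) := by
  obtain ⟨y, hy⟩ : ∃ y, y = n - N := ⟨_, rfl⟩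
  have hy0 : 0 ≤ y := by linarith
  have hy1 : y ≤ 13 / 20 * n := by linarith
  have hNy : N = n - y := by linarith
  have hN0 : 0 ≤ N := by linarith
  have e : n ^ 2 - 4 / 10 * n * N + 4 / 10 * N ^ 2 - 12 / 10 * N * ((n + k) / 2)
      - 8 * ((35 / 100 * n + c2) ^ 2
        - (n - 2 * (35 / 100 * n + c2)) * ((n + k) / 4 - c1))
      = 2 / 100 * n ^ 2 + y * (2 / 10 * n + 4 / 10 * y) + 6 / 10 * k * y
        - (96 / 10 * c2 + 24 / 10 * c1) * n - 4 * c2 * k - 8 * c2 ^ 2 + 16 * c1 * c2 := by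
    rw [hNy]; ring
  rw [e]
  have f1 : 2 / 100 * n ^ 2 + 2 / 10 * n * y - 32 / 10 * n - k
      ≤ 2 / 100 * n ^ 2 + y * (2 / 10 * n + 4 / 10 * y) + 6 / 10 * k * y
        - (96 / 10 * c2 + 24 / 10 * c1) * n - 4 * c2 * k - 8 * c2 ^ 2 + 16 * c1 * c2 := by
    have g1 := mul_nonneg (sub_nonneg.2 hc) (show 0 ≤ n by linarith)
    have g2 := mul_nonneg (sub_nonneg.2 hc2') hk
    have g3 := mul_nonneg (sub_nonneg.2 hc2') hc2
    have g4 := mul_nonneg hk hy0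
    have g5 := mul_nonneg hc1 hc2
    nlinarith
  have f2 := mul_le_mul_of_nonneg_left f1 hN0
  refine lt_of_lt_of_le ?_ f2
  rw [hNy]
  have g1 : 0 ≤ n * y * (13 / 20 * n - y) :=
    mul_nonneg (mul_nonneg (by linarith) hy0) (by linarith)
  have g2 : 0 ≤ n ^ 2 * (n - 199 * k - 200) := mul_nonneg (sq_nonneg _) (by linarith)
  have g3 : 0 ≤ n ^ 2 * y := mul_nonneg (sq_nonneg _) hy0
  have g4 : 0 ≤ n * (n - 199 * k - 200) := mul_nonneg (by linarith) (by linarith)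
  have g5 : 0 ≤ n ^ 2 * (n - 200) := mul_nonneg (sq_nonneg _) (by linarith)
  have g6 : 0 ≤ n * y := mul_nonneg (by linarith) hy0
  have g7 : 0 ≤ k * y := mul_nonneg hk hy0
  have g8 : 0 ≤ n * (n - 200) := mul_nonneg (by linarith) (by linarith)
  nlinarith

/-- the condition at `h = H` -/
lemma cond_top {n N k c1 c2 : ℝ} (hk : 0 ≤ k) (hkn : 199 * k + 200 ≤ n) (hN : 7 * n ≤ 20 * N)
    (hNn : N ≤ n) (hc1 : 0 ≤ c1) (hc1' : c1 ≤ 1) (hc2 : 0 ≤ c2)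
    (hc : 56 / 10 * c2 + 18 / 10 * c1 ≤ 205 / 100) (hc2' : c2 ≤ 1 / 5) :
    k * n ^ 2 < N * (n ^ 2 - 4 / 10 * n * N + 4 / 10 * N ^ 2 - 12 / 10 * N * ((n + k) / 2)
      + 14 / 10 * n * ((n + k) / 4 - c1) + N * ((n + k) / 4 - c1)
      + 12 / 10 * ((n + k) / 4 - c1) * ((n + k) / 2) - 24 / 10 * ((n + k) / 4 - c1) ^ 2
      - 8 * (35 / 100 * n + c2) ^ 2) := by
  obtain ⟨y, hy⟩ : ∃ y, y = n - N := ⟨_, rfl⟩
  have hy0 : 0 ≤ y := by linarith
  have hy1 : y ≤ 13 / 20 * n := by linarith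
  have hNy : N = n - y := by linarith
  have hN0 : 0 ≤ N := by linarith
  have e : n ^ 2 - 4 / 10 * n * N + 4 / 10 * N ^ 2 - 12 / 10 * N * ((n + k) / 2)
      + 14 / 10 * n * ((n + k) / 4 - c1) + N * ((n + k) / 4 - c1)
      + 12 / 10 * ((n + k) / 4 - c1) * ((n + k) / 2) - 24 / 10 * ((n + k) / 4 - c1) ^ 2
      - 8 * (35 / 100 * n + c2) ^ 2
      = 2 / 100 * n ^ 2 - 5 / 100 * n * y + 4 / 10 * y ^ 2 + 35 / 100 * k * y + c1 * y
        - (56 / 10 * c2 + 18 / 10 * c1) * n + 6 / 10 * c1 * k - 24 / 10 * c1 ^ 2 - 8 * c2 ^ 2 := by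
    rw [hNy]; ring
  rw [e]
  have f1 : 2 / 100 * n ^ 2 - 5 / 100 * n * y + 4 / 10 * y ^ 2 - 21 / 10 * n
      ≤ 2 / 100 * n ^ 2 - 5 / 100 * n * y + 4 / 10 * y ^ 2 + 35 / 100 * k * y + c1 * y
        - (56 / 10 * c2 + 18 / 10 * c1) * n + 6 / 10 * c1 * k - 24 / 10 * c1 ^ 2 - 8 * c2 ^ 2 := by
    have g1 := mul_nonneg (sub_nonneg.2 hc) (show 0 ≤ n by linarith)
    have g3 := mul_nonneg (sub_nonneg.2 hc2') hc2
    have g4 := mul_nonneg hk hy0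
    have g5 := mul_nonneg hc1 hy0
    have g6 := mul_nonneg hc1 hk
    have g7 := mul_nonneg hc1 (sub_nonneg.2 hc1')
    nlinarith
  have f2 := mul_le_mul_of_nonneg_left f1 hN0
  refine lt_of_lt_of_le ?_ f2
  rw [hNy]
  have hn0 : 0 ≤ n := by linarith
  have g2 : 0 ≤ n ^ 2 * (n - 199 * k - 200) := mul_nonneg (sq_nonneg _) (by linarith)
  have g5 : 0 ≤ n ^ 2 * (n - 200) := mul_nonneg (sq_nonneg _) (by linarith)
  have g6 : 0 ≤ n * y := mul_nonneg hn0 hy0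
  have g8 : 0 < n ^ 2 := by nlinarith
  -- `(n - y) (0.02 n² - 0.05 n y + 0.4 y²) ≥ 0.0165 n³`
  have key : 165 / 10000 * n ^ 3 ≤ (n - y) * (2 / 100 * n ^ 2 - 5 / 100 * n * y + 4 / 10 * y ^ 2) := by
    rcases le_total y (2 / 10 * n) with hy2 | hy2
    · have a1 : 0 ≤ y ^ 2 * (2 / 10 * n - y) := mul_nonneg (sq_nonneg _) (by linarith)
      have a2 : 0 ≤ n * (35 / 1000 * n - 37 / 100 * y) ^ 2 := mul_nonneg hn0 (sq_nonneg _)
      have a3 : 0 ≤ n * y ^ 2 := mul_nonneg hn0 (sq_nonneg _)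
      nlinarith
    · have a1 : 0 ≤ y * ((y - 2 / 10 * n) * (13 / 20 * n - y)) :=
        mul_nonneg hy0 (mul_nonneg (by linarith) (by linarith))
      have a2 : 0 ≤ n * y * (y - 2 / 10 * n) := mul_nonneg g6 (by linarith)
      have a3 : 0 ≤ n ^ 2 * (y - 2 / 10 * n) := mul_nonneg (sq_nonneg _) (by linarith)
      nlinarith
  have g9 : 0 ≤ n * y := g6
  nlinarith

theorem num3II (hW : Num3W) : Num3II := by
  intro d k n hnk hd s N h hsN hs hN hh hhd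
  have h1 : (n : ℝ) + k = 2 * d := by exact_mod_cast hnk
  have h2 : 100 * ((k : ℝ) + 1) ≤ d := by exact_mod_cast hd
  have hk0 : (0 : ℝ) ≤ k := Nat.cast_nonneg k
  have h3 : 199 * (k : ℝ) + 200 ≤ n := by linarith
  have hn2 : 2 ≤ n := by omega
  have hT := tad_ge hnk hd
  have hdk : (d : ℝ) = (n + k) / 2 := by linarith
  have c1 : ((s ^ 2 / 4 : ℕ) : ℝ) ≤ (s : ℝ) ^ 2 / 4 := by
    have := @Nat.cast_div_le ℝ _ _ _ (s ^ 2) 4
    push_cast at this ⊢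
    exact this
  have c2 : ((s / 2 : ℕ) : ℝ) ≤ (s : ℝ) / 2 := by
    have := @Nat.cast_div_le ℝ _ _ _ s 2
    push_cast at this ⊢
    exact this
  have hN' : 7 * (n : ℝ) ≤ 20 * N := by exact_mod_cast hN
  have hNn : (N : ℝ) ≤ n := by exact_mod_cast (show N ≤ n by omega)
  have hse : (s : ℝ) = n - N := by
    have : (s : ℝ) + N = n := by exact_mod_cast hsN
    linarith
  have hh' : (1 : ℝ) ≤ h := by exact_mod_cast hh
  have hhN : (h : ℝ) ≤ N := by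
    have : 2 * (h : ℝ) + 1 ≤ d := by exact_mod_cast hhd
    linarith
  have fin : ∀ (H : ℕ) (T a b : ℝ), (H : ℝ) = (n + k) / 4 - a → T = 35 / 100 * n + b →
      w n H ≤ T → h ≤ H → 0 ≤ a → a ≤ 1 → 0 ≤ b → b ≤ 1 / 5 →
      96 / 10 * b + 24 / 10 * a ≤ 312 / 100 → 56 / 10 * b + 18 / 10 * a ≤ 205 / 100 →
      (s : ℝ) * (s ^ 2 / 4 : ℕ) + N * (2 * (s ^ 2 / 4 : ℕ) + 2 * w n h ^ 2
      + ((N : ℝ) - h) * ((1 - 3 / 10) * (s / 2 : ℕ) + 3 / 10 * ((d : ℝ) - 2 * h))) < tad d k := by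
    intro H T a b hH hTe hw hhH ha ha1 hb hb1 hab1 hab2
    have hhH' : (h : ℝ) ≤ H := by exact_mod_cast hhH
    have hw1 := one_le_w hn2 H
    have a1 := w_concave hn2 h H
    have a2 : w n h ^ 2 ≤ T ^ 2 + (n - 2 * T) * (h - H) := by
      refine a1.trans ?_
      nlinarith [mul_nonneg (sub_nonneg.2 hw) (sub_nonneg.2 hhH')]
    have e0 := cond_zero hk0 h3 hN' hNn ha hb hab1 hb1
    have e1 := cond_top hk0 h3 hN' hNn ha ha1 hb hab2 hb1
    rw [← hH, ← hTe, ← hdk] at e0 e1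
    have := core_two (Nat.cast_nonneg N) hhN hse (Nat.cast_nonneg s) (by linarith) hhH'
      (by linarith) a2 c1 c2 e0 e1
    linarith
  rcases Nat.even_or_odd' d with ⟨m, hm | hm⟩
  · have hw := (hW d k n (m - 1) hnk hd).2.2 (by omega)
    refine fin (m - 1) (35 / 100 * n) 1 0 ?_ (by ring) hw (by omega) (by norm_num) (by norm_num)
      (by norm_num) (by norm_num) (by norm_num) (by norm_num)
    have hdm : (d : ℝ) = 2 * m := by exact_mod_cast hm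
    rw [Nat.cast_sub (by omega)]
    push_cast
    linarith
  · have hw := (hW d k n m hnk hd).2.1 (by omega)
    refine fin m (35 / 100 * n + 1 / 5) (1 / 2) (1 / 5) ?_ rfl hw (by omega) (by norm_num)
      (by norm_num) (by norm_num) (by norm_num) (by norm_num) (by norm_num)
    have hdm : (d : ℝ) = 2 * m + 1 := by exact_mod_cast hm
    linarith

end Pool.Agent.Lib.MP_b0a977_co.DW
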