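import Pool.Agent.Lib.MP_b0a977_co.DW.Iface2

/-!
# Second part, the polynomial inequality
-/

namespace Pool.Agent.Lib.MP_b0a977_co.DW

open Finset

lemma bracket_nonneg {n N k : ℝ} (hk : 0 ≤ k) (hkN : k ≤ N) (hN : 20 * N ≤ 7 * n)
    (hkn : 199 * k + 200 ≤ n) :
    0 ≤ (n ^ 2 / 4 - n + 1 / 3) - (N + k) * (3 * n / 4 - 1) + 5 / 12 * (N ^ 2 + N * k + k ^ 2) := by
  have h1 : 0 ≤ (7 * n - 20 * N) * (n - 2 - (7 * n / 20 + N + k) / 2) := by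
    apply mul_nonneg <;> linarith
  have h2 : 0 ≤ (n - 199 * k - 200) * n := by
    apply mul_nonneg <;> linarith
  have h3 : 0 ≤ (n - 200) * n := by
    apply mul_nonneg <;> linarith
  nlinarith [mul_nonneg hk hk, mul_nonneg hk (sub_nonneg.2 hkN), h1, h2, h3]

lemma poly_le {n N k : ℝ} (hk : 0 ≤ k) (hkN : k ≤ N) (hN : 20 * N ≤ 7 * n)
    (hkn : 199 * k + 200 ≤ n) :
    (n + N) * ((n - N) ^ 2 / 4) + n * N * (N + 1) - N * (N + 1) * (2 * N + 1) / 3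
      ≤ (n + k) * ((n - k) ^ 2 / 4) + n * k * (k + 1) - k * (k + 1) * (2 * k + 1) / 3 := by
  have h1 := mul_nonneg (sub_nonneg.2 hkN) (bracket_nonneg hk hkN hN hkn)
  nlinarith

theorem num3P : Num3P := by
  intro d k n hnk hd s N hsN hkN hN
  have h1 : (n : ℝ) + k = 2 * d := by exact_mod_cast hnk
  have h2 : 100 * ((k : ℝ) + 1) ≤ d := by exact_mod_cast hd
  have h3 : (s : ℝ) + N = n := by exact_mod_cast hsN
  have h4 : (k : ℝ) ≤ N := by exact_mod_cast hkN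
  have h5 : 20 * (N : ℝ) ≤ 7 * n := by exact_mod_cast hN
  have hk0 : (0 : ℝ) ≤ k := Nat.cast_nonneg k
  have hs0 : (0 : ℝ) ≤ s := Nat.cast_nonneg s
  have hN0 : (0 : ℝ) ≤ N := Nat.cast_nonneg N
  have h6 := poly_le (n := n) hk0 h4 h5 (by linarith)
  have h7 : ((s ^ 2 / 4 : ℕ) : ℝ) ≤ (s : ℝ) ^ 2 / 4 := by
    have : ((s ^ 2 / 4 : ℕ) : ℝ) ≤ ((s ^ 2 : ℕ) : ℝ) / (4 : ℕ) := Nat.cast_div_le
    push_cast at this
    exact this
  have h8 : ((s : ℝ) + 2 * N) * (s ^ 2 / 4 : ℕ) ≤ ((s : ℝ) + 2 * N) * ((s : ℝ) ^ 2 / 4) :=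
    mul_le_mul_of_nonneg_left h7 (by linarith)
  have h9 : tad d k = ((n : ℝ) + k) * (((n : ℝ) - k) ^ 2 / 4) + n * k * (k + 1)
      - k * (k + 1) * (2 * k + 1) / 3 := by
    have hn : (n : ℝ) = 2 * d - k := by linarith
    unfold tad
    rw [hn]
    ring
  rw [h9]
  have h10 : ((s : ℝ) + 2 * N) * ((s : ℝ) ^ 2 / 4) = (n + N) * (((n : ℝ) - N) ^ 2 / 4) := by
    have : (s : ℝ) = n - N := by linarith
    rw [this]
    ring
  linarith

end Pool.Agent.Lib.MP_b0a977_co.DW
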