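import Pool.Agent.Lib.MP_b0a977_co.DW.NumLarge

/-!
# Bounds of the sequence for order `2d-k`
-/

namespace Pool.Agent.Lib.MP_b0a977_co.DW

/-- The general bound from the potential. -/
lemma w_le_of_pot {n h : ℕ} {c : ℝ} (hn : 200 ≤ n) (hc0 : 0 ≤ c) (hc1 : c ≤ 1 / 2)
    (hh : (h : ℝ) + 0.07 + 0.91 ≤ 0.25195 * n + 2.3 * c) :
    w n h ≤ 0.35 * n + c := by
  have hn' : (200 : ℝ) ≤ n := by exact_mod_cast hn
  rcases Nat.eq_zero_or_pos h with rfl | hpos0
  · simp; linarith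
  by_contra hcon
  push Not at hcon
  obtain ⟨i, rfl⟩ : ∃ i, h = i + 1 := ⟨h - 1, by omega⟩
  have hp := pot_le (show 120 ≤ n by omega) i
  have hx := w_lt_half (show 3 ≤ n by omega) (i + 1)
  have hq := pot_mono (n := n) (x := w n (i + 1)) (t := 0.35 * n + c)
    (by nlinarith) hcon.le hx
  have hr := hq.trans hp
  push_cast at hr hh hcon
  have hn0 : (0 : ℝ) < n / 2 := by linarith
  have hpos : 0 < (n : ℝ) / 2 - (0.35 * n + c) := by linarith
  have hl : Real.log ((n / 2 - (0.35 * n + c)) / (n / 2)) ≤ -1.2039 - c / (0.15 * n) := by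
    have e : ((n : ℝ) / 2 - (0.35 * n + c)) / (n / 2) = (10 / 3)⁻¹ * (1 - c / (0.15 * n)) := by
      field_simp
      ring
    have hd : 0 < 1 - c / (0.15 * (n : ℝ)) := by
      rw [sub_pos, div_lt_one (by linarith)]
      linarith
    rw [e, Real.log_mul (by norm_num) hd.ne', Real.log_inv]
    have := Real.log_le_sub_one_of_pos hd
    have := log_ten_thirds
    linarith
  rw [Real.log_div hpos.ne' hn0.ne'] at hl
  unfold pot at hr
  have h3 : 0 ≤ (n : ℝ) / 2 - 3 / 4 := by linarith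
  have h4 := mul_le_mul_of_nonneg_left hl h3
  have h5 : ((n : ℝ) / 2 - 3 / 4) * (-1.2039 - c / (0.15 * n))
      = -1.2039 * (n / 2 - 3 / 4) - c / 0.3 + 5 * (c / n) := by
    field_simp
    ring
  rw [h5] at h4
  have h6 : c / n ≤ c / 200 := by
    apply div_le_div_of_nonneg_left hc0 (by norm_num) hn'
  rw [mul_sub] at h4
  rw [neg_mul] at hr
  norm_num at hr h4 h6 hh ⊢
  linarith

lemma num3_le {d k n : ℕ} (hn : n + k = 2 * d) (hk : 100 * (k + 1) ≤ d) :
    200 ≤ n ∧ (d : ℝ) / 2 ≤ 0.251257 * n - 0.2512 := by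
  refine ⟨by omega, ?_⟩
  have h1 : (n : ℝ) + k = 2 * d := by exact_mod_cast hn
  have h2 : (100 : ℝ) * (k + 1) ≤ d := by exact_mod_cast hk
  linarith

/-- NUM3W, first bound. -/
theorem num3w_half {d k n : ℕ} (hn : n + k = 2 * d) (hk : 100 * (k + 1) ≤ d) {h : ℕ}
    (hh : 2 * h ≤ d) : w n h ≤ 0.35 * n + 1 / 2 := by
  obtain ⟨h1, h2⟩ := num3_le hn hk
  have h1' : (200 : ℝ) ≤ n := by exact_mod_cast h1
  have h3 : (2 : ℝ) * h ≤ d := by exact_mod_cast hh
  exact w_le_of_pot h1 (by norm_num) (by norm_num) (by linarith)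

/-- NUM3W, second bound. -/
theorem num3w_half' {d k n : ℕ} (hn : n + k = 2 * d) (hk : 100 * (k + 1) ≤ d) {h : ℕ}
    (hh : 2 * h + 1 ≤ d) : w n h ≤ 0.35 * n + 1 / 5 := by
  obtain ⟨h1, h2⟩ := num3_le hn hk
  have h1' : (200 : ℝ) ≤ n := by exact_mod_cast h1
  have h3 : (2 : ℝ) * h + 1 ≤ d := by exact_mod_cast hh
  exact w_le_of_pot h1 (by norm_num) (by norm_num) (by linarith)

/-- NUM3W, third bound. -/
theorem num3w_sub {d k n : ℕ} (hn : n + k = 2 * d) (hk : 100 * (k + 1) ≤ d) {h : ℕ}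
    (hh : 2 * h + 2 ≤ d) : w n h ≤ 0.35 * n := by
  obtain ⟨h1, h2⟩ := num3_le hn hk
  have h1' : (200 : ℝ) ≤ n := by exact_mod_cast h1
  have h3 : (2 : ℝ) * h + 2 ≤ d := by exact_mod_cast hh
  have := w_le_of_pot (h := h) (c := 0) h1 (by norm_num) (by norm_num) (by linarith)
  linarith

end Pool.Agent.Lib.MP_b0a977_co.DW
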