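import Pool.Agent.Lib.MP_b0a977_co.DW.Seq

/-!
# The numerics for large `d`
-/

namespace Pool.Agent.Lib.MP_b0a977_co.DW

open Finset

/-- `log y ≤ (y - 1/y)/2` for `y ≥ 1` -/
lemma log_le_half_sub_inv {y : ℝ} (hy : 1 ≤ y) : Real.log y ≤ (y - y⁻¹) / 2 := by
  rw [← Real.sinh_log (by linarith)]
  exact Real.self_le_sinh_iff.2 (Real.log_nonneg hy)

/-- `log(10/3) > 1.2039` -/
lemma log_ten_thirds : (1.2039 : ℝ) ≤ Real.log (10 / 3) := by
  have h1 := Real.log_two_gt_d9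
  have h2 := Real.sum_range_le_log_div (x := 1 / 4) (by norm_num) (by norm_num) 3
  norm_num [Finset.sum_range_succ] at h2
  have h3 : Real.log (10 / 3) = Real.log 2 + Real.log (5 / 3) := by
    rw [← Real.log_mul (by norm_num) (by norm_num)]
    norm_num
  rw [h3]
  linarith

lemma w_lt_half {n : ℕ} (hn : 3 ≤ n) (i : ℕ) : w n i < n / 2 := by
  have h3 : (3 : ℝ) ≤ n := by exact_mod_cast hn
  induction i with
  | zero => simp; linarith
  | succ i ih =>
    have h1 := one_le_w (show 2 ≤ n by omega) i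
    have h4 := w_sq_succ (show 2 ≤ n by omega) i
    have h5 := one_le_w (show 2 ≤ n by omega) (i + 1)
    nlinarith [mul_nonneg (sub_nonneg.2 h1) (sub_nonneg.2 ih.le)]

/-- The potential of the sequence, without its constant. -/
noncomputable def pot (n : ℝ) (x : ℝ) : ℝ := -x - (n / 2 - 3 / 4) * Real.log (n / 2 - x)

/-- One step of the sequence raises the potential by at most one. -/
lemma pot_step_real {n x y : ℝ} (hn' : 120 ≤ n) (h1 : 1 ≤ x) (hs : y ^ 2 = x ^ 2 + (n - 2 * x))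
    (h2 : x < n / 2) (h3 : y < n / 2) (hm : x ≤ y) (hw : n - 1 ≤ x ^ 2) :
    pot n y ≤ pot n x + 1 := by
  -- a, g
  obtain ⟨a, ha⟩ : ∃ a : ℝ, a = n / 2 - x := ⟨_, rfl⟩
  obtain ⟨g, hg⟩ : ∃ g : ℝ, g = y - x := ⟨_, rfl⟩
  have ha0 : 0 < a := by rw [ha]; linarith
  have hg0 : 0 ≤ g := by rw [hg]; linarith
  have hag : 0 < a - g := by rw [ha, hg]; linarith
  -- `g (2 x + g) = 2 a`
  have hga : g * (2 * x + g) = 2 * a := by rw [hg, ha]; linear_combination hs
  have hgpos : 0 < g := by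
    rcases hg0.lt_or_eq with h | h
    · exact h
    · rw [← h] at hga; linarith
  have hnx : n / 2 = a + x := by rw [ha]; ring
  have hx10 : 10 ≤ x := by nlinarith
  have hgx : g * x ≤ a := by nlinarith
  have hkey : g ^ 2 + 3 / 2 * g ≤ a := by
    -- `g x ≤ a`, `x ≥ 10`, `x² ≥ n - 1 = 2 (a + x) - 1`
    have h10 : g * 10 ≤ a := by nlinarith
    have : g ^ 2 * x ^ 2 ≤ a ^ 2 := by nlinarith [mul_nonneg hg0 (show 0 ≤ x by linarith)]
    have h7 : 2 * a ≤ x ^ 2 := by nlinarith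
    have h8 : g ^ 2 * (2 * a) ≤ a ^ 2 := by nlinarith [sq_nonneg g]
    have h9 : g ^ 2 * 2 ≤ a := by
      have : g ^ 2 * 2 * a ≤ a * a := by linarith
      exact le_of_mul_le_mul_right this ha0
    linarith
  have hlog : Real.log (a / (a - g)) ≤ g * (a - g / 2) / (a * (a - g)) := by
    have h := log_le_half_sub_inv (y := a / (a - g)) (by rw [le_div_iff₀ hag]; linarith)
    refine h.trans (le_of_eq ?_)
    field_simp
    ring
  have hmain : (n / 2 - 3 / 4) * (g * (a - g / 2) / (a * (a - g))) ≤ 1 + g := by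
    rw [← mul_div_assoc, div_le_iff₀ (mul_pos ha0 hag)]
    have hng : (n / 2 - 3 / 4) * g = a + a * g - g ^ 2 / 2 - 3 / 4 * g := by
      rw [hnx]; linear_combination (1 / 2 : ℝ) * hga
    have : (n / 2 - 3 / 4) * (g * (a - g / 2))
        = (a + a * g - g ^ 2 / 2 - 3 / 4 * g) * (a - g / 2) := by rw [← hng]; ring
    rw [this]
    have : (1 + g) * (a * (a - g)) - (a + a * g - g ^ 2 / 2 - 3 / 4 * g) * (a - g / 2)
        = g / 4 * (a - (g ^ 2 + 3 / 2 * g)) := by ring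
    nlinarith [mul_nonneg hg0 (sub_nonneg.2 hkey)]
  have hlog2 : Real.log (a / (a - g)) = Real.log a - Real.log (a - g) :=
    Real.log_div ha0.ne' hag.ne'
  have hya : n / 2 - y = a - g := by rw [ha, hg]; ring
  unfold pot
  rw [hya, ← ha]
  have hpos : 0 ≤ n / 2 - 3 / 4 := by linarith
  have h5 := mul_le_mul_of_nonneg_left hlog hpos
  rw [hlog2] at h5
  have hyg : y = x + g := by rw [hg]; ring
  rw [hyg]
  linarith

lemma pot_one_real {n x : ℝ} (hn' : 120 ≤ n) (h1 : 1 ≤ x) (h2 : x < n / 2)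
    (hw1s : x ^ 2 = n - 1) :
    pot n x ≤ -(n / 2 - 3 / 4) * Real.log (n / 2) + 1.07 := by
  obtain ⟨ν, hν⟩ : ∃ ν : ℝ, ν = n / 2 := ⟨_, rfl⟩
  have hν60 : 60 ≤ ν := by rw [hν]; linarith
  have hn3 : n = 2 * ν := by rw [hν]; ring
  have hxs : x ^ 2 = 2 * ν - 1 := by rw [hw1s, hn3]
  have hxν : 0 < ν - x := by rw [hν]; linarith
  have hν0 : 0 < ν := by linarith
  unfold pot
  rw [← hν]
  have h := log_le_half_sub_inv (y := ν / (ν - x)) (by rw [le_div_iff₀ hxν]; linarith)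
  rw [Real.log_div hν0.ne' hxν.ne'] at h
  have h3 : (ν / (ν - x) - (ν / (ν - x))⁻¹) / 2 = x * (ν - x / 2) / (ν * (ν - x)) := by
    field_simp
    ring
  rw [h3] at h
  have hmain : (ν - 3 / 4) * (x * (ν - x / 2) / (ν * (ν - x))) ≤ x + 1.07 := by
    rw [← mul_div_assoc, div_le_iff₀ (mul_pos hν0 hxν)]
    -- x² = 2 ν - 1
    have hx1 : x ≤ 0.1826 * ν := by
      nlinarith
    nlinarith [mul_nonneg (sub_nonneg.2 hx1) hν0.le, mul_nonneg (sub_nonneg.2 hν60) hν0.le]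
  have hpos : 0 ≤ ν - 3 / 4 := by linarith
  have h5 := mul_le_mul_of_nonneg_left h hpos
  nlinarith

lemma w_one_sq {n : ℕ} (hn : 2 ≤ n) : w n 1 ^ 2 = n - 1 := by
  have := w_sq_succ hn 0
  simp only [zero_add, w_zero] at this
  rw [this]; ring

lemma pot_step {n : ℕ} (hn : 120 ≤ n) {i : ℕ} (hi : 1 ≤ i) :
    pot n (w n (i + 1)) ≤ pot n (w n i) + 1 := by
  have hn2 : 2 ≤ n := by omega
  have hw1 : w n 1 ≤ w n i := w_mono hn2 hi
  have hw10 : 1 ≤ w n 1 := one_le_w hn2 1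
  have hw1s := w_one_sq hn2
  exact pot_step_real (by exact_mod_cast hn) (one_le_w hn2 i) (w_sq_succ hn2 i)
    (w_lt_half (by omega) i) (w_lt_half (by omega) (i + 1)) (w_mono hn2 (by omega))
    (by nlinarith)

lemma pot_le {n : ℕ} (hn : 120 ≤ n) (i : ℕ) :
    pot n (w n (i + 1)) ≤ -((n : ℝ) / 2 - 3 / 4) * Real.log (n / 2) + 1.07 + i := by
  have hn2 : 2 ≤ n := by omega
  induction i with
  | zero =>
    simpa using pot_one_real (by exact_mod_cast hn) (one_le_w hn2 1) (w_lt_half (by omega) 1)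
      (w_one_sq hn2)
  | succ i ih =>
    have := pot_step hn (i := i + 1) (by omega)
    push_cast
    linarith

/-- The potential is increasing. -/
lemma pot_mono {n x t : ℝ} (ht : 3 / 4 ≤ t) (htx : t ≤ x) (hx : x < n / 2) :
    pot n t ≤ pot n x := by
  have h0 : 0 < n / 2 - x := by linarith
  have h1 : 0 < n / 2 - t := by linarith
  have h2 := Real.one_sub_inv_le_log_of_pos (div_pos h1 h0)
  rw [Real.log_div h1.ne' h0.ne', inv_div] at h2
  have h3 : 0 ≤ n / 2 - 3 / 4 := by linarith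
  have h4 := mul_le_mul_of_nonneg_left h2 h3
  have h5 : x - t ≤ (n / 2 - 3 / 4) * (1 - (n / 2 - x) / (n / 2 - t)) := by
    have : 1 - (n / 2 - x) / (n / 2 - t) = (x - t) / (n / 2 - t) := by
      rw [eq_div_iff h1.ne', sub_mul, div_mul_cancel₀ _ h1.ne']
      ring
    rw [this, ← mul_div_assoc, le_div_iff₀ h1]
    nlinarith
  unfold pot
  nlinarith

/-- The bound for the sequence near `n / 4`. -/
lemma w_le_line {n h : ℕ} (hn : 120 ≤ n) (h1 : n ≤ 4 * h + 5) (h2 : 4 * h ≤ n) :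
    w n h ≤ 0.24 * n + 0.44 * h + 0.34 := by
  have hn' : (120 : ℝ) ≤ n := by exact_mod_cast hn
  have h1' : (n : ℝ) ≤ 4 * h + 5 := by exact_mod_cast h1
  have h2' : (4 : ℝ) * h ≤ n := by exact_mod_cast h2
  by_contra hcon
  push Not at hcon
  obtain ⟨i, rfl⟩ : ∃ i, h = i + 1 := ⟨h - 1, by omega⟩
  have hp := pot_le hn i
  have hx := w_lt_half (show 3 ≤ n by omega) (i + 1)
  have hq := pot_mono (n := n) (x := w n (i + 1)) (t := 0.24 * n + 0.44 * ((i + 1 : ℕ) : ℝ) + 0.34)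
    (by nlinarith) hcon.le hx
  have hr := hq.trans hp
  push_cast at hr h1' h2' hcon
  obtain ⟨c, hc⟩ : ∃ c : ℝ, c = 0.44 * ((i : ℝ) + 1 - n / 4) + 0.34 := ⟨_, rfl⟩
  have hT : 0.24 * (n : ℝ) + 0.44 * ((i : ℝ) + 1) + 0.34 = 0.35 * n + c := by rw [hc]; ring
  rw [hT] at hr hcon
  have hc1 : -0.22 ≤ c := by rw [hc]; linarith
  have hc2 : c ≤ 0.34 := by rw [hc]; linarith
  have hn0 : (0 : ℝ) < n / 2 := by linarith
  have hpos : 0 < (n : ℝ) / 2 - (0.35 * n + c) := by linarith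
  -- the logarithm
  have hl : Real.log ((n / 2 - (0.35 * n + c)) / (n / 2)) ≤ -1.2039 - c / (0.15 * n) := by
    have e : ((n : ℝ) / 2 - (0.35 * n + c)) / (n / 2) = (10 / 3)⁻¹ * (1 - c / (0.15 * n)) := by
      field_simp
      ring
    have hd : 0 < 1 - c / (0.15 * (n : ℝ)) := by
      rw [sub_pos, div_lt_one (by linarith)]
      linarith
    rw [e, Real.log_mul (by norm_num) hd.ne', Real.log_inv]
    have := Real.log_le_sub_one_of_pos hd
    have := log_ten_thirds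
    linarith
  rw [Real.log_div hpos.ne' hn0.ne'] at hl
  unfold pot at hr
  have h3 : 0 ≤ (n : ℝ) / 2 - 3 / 4 := by linarith
  have h4 := mul_le_mul_of_nonneg_left hl h3
  have h5 : ((n : ℝ) / 2 - 3 / 4) * (-1.2039 - c / (0.15 * n))
      = -1.2039 * (n / 2 - 3 / 4) - c / 0.3 + 5 * (c / n) := by
    field_simp
    ring
  rw [h5] at h4
  have h6 : c / n ≤ 0.003 := by
    rw [div_le_iff₀ (by linarith)]
    linarith
  have h7 : (i : ℝ) + 1 = n / 4 + (c - 0.34) / 0.44 := by rw [hc]; ring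
  rw [mul_sub] at h4
  rw [neg_mul] at hr
  norm_num at hr h4 h6 h7 hc1 ⊢
  linarith

/-- (I) from a bound for the middle value -/
lemma numI_of {n d k : ℕ} {T : ℝ} (hn : 2 ≤ n) (hk : 2 * k ≤ d) (hk' : d ≤ 2 * k + 1)
    (hT : w n k ≤ T)
    (hF : ((n : ℝ) - 1) * (2 * T ^ 2 + (n - 2 * T) * (d - 2 * k)) < (n : ℝ) * (n ^ 2 / 4 : ℕ) + 2) :
    NumI n d := by
  intro h hh
  have hn' : (2 : ℝ) ≤ n := by exact_mod_cast hn
  have a1 := w_concave hn h k
  have a2 := w_concave hn (d - h) k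
  rw [Nat.cast_sub hh] at a2
  have hk1 : (2 : ℝ) * k ≤ d := by exact_mod_cast hk
  have hk2 : (d : ℝ) ≤ 2 * k + 1 := by exact_mod_cast hk'
  have h1 := one_le_w hn k
  have a3 : w n h ^ 2 + w n (d - h) ^ 2 ≤ 2 * T ^ 2 + (n - 2 * T) * (d - 2 * k) := by
    have : w n h ^ 2 + w n (d - h) ^ 2
      ≤ 2 * w n k ^ 2 + (n - 2 * w n k) * (d - 2 * k) := by linarith
    refine this.trans ?_
    nlinarith [mul_nonneg (sub_nonneg.2 hT) (sub_nonneg.2 hk2)]
  have a4 := mul_le_mul_of_nonneg_left a3 (show (0 : ℝ) ≤ n - 1 by linarith)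
  linarith

/-- (II) from a bound for one value -/
lemma numII_of {n d H : ℕ} {T : ℝ} (hn : 2 ≤ n) (hH0 : 1 ≤ H) (hH : d ≤ 2 * H + 2)
    (hT : w n H ≤ T)
    (h0 : ∀ N : ℝ, N ≤ n - 2 → 0 ≤ (n : ℝ) ^ 2 - 0.4 * n * N + 0.4 * N ^ 2 - 1.2 * N * d
      - 8 * (T ^ 2 - (n - 2 * T) * H) - (n - N + 1))
    (h1 : ∀ N : ℝ, 0 ≤ (n : ℝ) ^ 2 - 0.4 * n * N + 0.4 * N ^ 2 - 1.2 * N * d + 1.4 * n * H
      + N * H + 1.2 * H * d - 2.4 * H ^ 2 - 8 * T ^ 2 - (n - N + 1))
    (hF : (n : ℝ) ^ 3 / 4 - n / 4 ≤ (n : ℝ) * (n ^ 2 / 4 : ℕ)) :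
    NumII n d := by
  have hn' : (2 : ℝ) ≤ n := by exact_mod_cast hn
  refine ⟨0.3, by norm_num, by norm_num, ?_⟩
  intro s N h hsN hs hh1 hhN hhd
  have hs2 : 2 ≤ s := by
    by_contra hc
    have : s = 0 ∨ s = 1 := by omega
    rcases this with rfl | rfl
    · omega
    · omega
  have hsN' : (s : ℝ) + N = n := by exact_mod_cast hsN
  have hs2' : (2 : ℝ) ≤ s := by exact_mod_cast hs2
  have hh1' : (1 : ℝ) ≤ h := by exact_mod_cast hh1
  have hhN' : (h : ℝ) ≤ N := by exact_mod_cast hhN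
  have hhH : (h : ℝ) ≤ H := by exact_mod_cast (show h ≤ H by omega)
  have hH0' : (1 : ℝ) ≤ H := by exact_mod_cast hH0
  have hdh : (2 : ℝ) * h + 1 ≤ d := by exact_mod_cast hhd
  have c1 : ((s ^ 2 / 4 : ℕ) : ℝ) ≤ (s : ℝ) ^ 2 / 4 := by
    have := @Nat.cast_div_le ℝ _ _ _ (s ^ 2) 4
    push_cast at this ⊢
    exact this
  have c2 : ((s / 2 : ℕ) : ℝ) ≤ (s : ℝ) / 2 := by
    have := @Nat.cast_div_le ℝ _ _ _ s 2
    push_cast at this ⊢
    exact this
  obtain ⟨S4, hS4⟩ : ∃ S4 : ℝ, S4 = ((s ^ 2 / 4 : ℕ) : ℝ) := ⟨_, rfl⟩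
  obtain ⟨S2, hS2⟩ : ∃ S2 : ℝ, S2 = ((s / 2 : ℕ) : ℝ) := ⟨_, rfl⟩
  rw [← hS4, ← hS2]
  rw [← hS4] at c1
  rw [← hS2] at c2
  have a1 := w_concave hn h H
  have hw1 := one_le_w hn H
  have a2 : w n h ^ 2 ≤ T ^ 2 + (n - 2 * T) * (h - H) := by
    refine a1.trans ?_
    nlinarith [mul_nonneg (sub_nonneg.2 hT) (sub_nonneg.2 hhH)]
  have e0 := h0 N (by linarith)
  have e1 := h1 N
  -- the quadratic at `h`
  have e2 : 0 ≤ (n : ℝ) ^ 2 - 0.4 * n * N + 0.4 * N ^ 2 - 1.2 * N * d + 1.4 * n * h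
      + N * h + 1.2 * h * d - 2.4 * h ^ 2 - 8 * (T ^ 2 + (n - 2 * T) * (h - H)) - (n - N + 1) := by
    have m0 := mul_nonneg (sub_nonneg.2 hhH) e0
    have m1 := mul_nonneg (show (0 : ℝ) ≤ h by linarith) e1
    have m2 := mul_nonneg (mul_nonneg (show (0 : ℝ) ≤ h by linarith) (sub_nonneg.2 hhH))
      (show (0 : ℝ) ≤ H by linarith)
    have key : 0 ≤ (H : ℝ) * ((n : ℝ) ^ 2 - 0.4 * n * N + 0.4 * N ^ 2 - 1.2 * N * d + 1.4 * n * h
      + N * h + 1.2 * h * d - 2.4 * h ^ 2 - 8 * (T ^ 2 + (n - 2 * T) * (h - H)) - (n - N + 1)) := by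
      linear_combination m0 + m1 + 2.4 * m2
    exact nonneg_of_mul_nonneg_right key (by linarith)
  have hN1 : (1 : ℝ) ≤ N := hh1'.trans hhN'
  have hs0 : (0 : ℝ) ≤ s := by linarith
  have b1 : (s : ℝ) * S4 ≤ s * (s ^ 2 / 4) := mul_le_mul_of_nonneg_left c1 hs0
  have b2 : ((N : ℝ) - h) * ((1 - 0.3) * S2 + 0.3 * (d - 2 * h))
      ≤ (N - h) * (0.7 * (s / 2) + 0.3 * (d - 2 * h)) :=
    mul_le_mul_of_nonneg_left (by linarith) (sub_nonneg.2 hhN')
  have b3 : (N : ℝ) * (2 * S4 + 2 * w n h ^ 2 + ((N : ℝ) - h) * ((1 - 0.3) * S2 + 0.3 * (d - 2 * h)))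
      ≤ N * (2 * (s ^ 2 / 4) + 2 * (T ^ 2 + (n - 2 * T) * (h - H))
        + (N - h) * (0.7 * (s / 2) + 0.3 * (d - 2 * h))) :=
    mul_le_mul_of_nonneg_left (by linarith) (by linarith)
  have hse : (s : ℝ) = n - N := by linarith
  have b4 : 0 ≤ ((n : ℝ) - N) * (N - 1) := mul_nonneg (by linarith) (by linarith)
  have b5 := mul_nonneg (show (0 : ℝ) ≤ N by linarith) e2
  have b6 : (s : ℝ) * (s ^ 2 / 4) + N * (2 * (s ^ 2 / 4) + 2 * (T ^ 2 + (n - 2 * T) * (h - H))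
        + (N - h) * (0.7 * (s / 2) + 0.3 * (d - 2 * h))) ≤ (n : ℝ) ^ 3 / 4 - n / 4 := by
    rw [hse]
    linear_combination (1 / 4 : ℝ) * b5 + (1 / 4 : ℝ) * b4
  linarith

lemma sq_div_four_odd (m : ℕ) : (2 * m + 1) ^ 2 / 4 = m ^ 2 + m := by
  have : (2 * m + 1) ^ 2 = 4 * (m ^ 2 + m) + 1 := by ring
  omega

lemma sq_div_four_even (m : ℕ) : (2 * m) ^ 2 / 4 = m ^ 2 := by
  have : (2 * m) ^ 2 = 4 * m ^ 2 := by ring
  omega

lemma numLarge_even_odd {k : ℕ} (hk : 30 ≤ k) :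
    NumI (2 * (2 * k) + 1) (2 * k) ∧ NumII (2 * (2 * k) + 1) (2 * k) := by
  have hk' : (30 : ℝ) ≤ k := by exact_mod_cast hk
  constructor
  · have hw := w_le_line (n := 2 * (2 * k) + 1) (h := k) (by omega) (by omega) (by omega)
    push_cast at hw
    refine numI_of (k := k) (T := 1.4 * k + 0.58) (by omega) (by omega) (by omega)
      (by linarith) ?_
    rw [sq_div_four_odd]
    push_cast
    nlinarith [mul_nonneg (sub_nonneg.2 hk') (sq_nonneg (k : ℝ))]
  · have hw := w_le_line (n := 2 * (2 * k) + 1) (h := k - 1) (by omega) (by omega) (by omega)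
    have hc : ((k - 1 : ℕ) : ℝ) = k - 1 := by push_cast [Nat.cast_sub (show 1 ≤ k by omega)]; ring
    rw [hc] at hw
    push_cast at hw
    refine numII_of (H := k - 1) (T := 1.4 * k + 0.14) (by omega) (by omega) (by omega)
      (by linarith) ?_ ?_ ?_
    · intro N hN
      rw [hc]
      push_cast at hN ⊢
      nlinarith [mul_nonneg (sub_nonneg.2 hN) (sub_nonneg.2 hk'), sq_nonneg (N - (4 * k - 1))]
    · intro N
      rw [hc]
      push_cast
      nlinarith [sq_nonneg (0.8 * N - (3 * k - 0.4)), mul_nonneg (sub_nonneg.2 hk') (sub_nonneg.2 hk')]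
    · rw [sq_div_four_odd]
      push_cast
      nlinarith

lemma numLarge_even_even {k : ℕ} (hk : 30 ≤ k) :
    NumI (2 * (2 * k)) (2 * k) ∧ NumII (2 * (2 * k)) (2 * k) := by
  have hk' : (30 : ℝ) ≤ k := by exact_mod_cast hk
  constructor
  · have hw := w_le_line (n := 2 * (2 * k)) (h := k) (by omega) (by omega) (by omega)
    push_cast at hw
    refine numI_of (k := k) (T := 1.4 * k + 0.34) (by omega) (by omega) (by omega)
      (by linarith) ?_
    rw [sq_div_four_even]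
    push_cast
    nlinarith [mul_nonneg (sub_nonneg.2 hk') (sq_nonneg (k : ℝ))]
  · have hw := w_le_line (n := 2 * (2 * k)) (h := k - 1) (by omega) (by omega) (by omega)
    have hc : ((k - 1 : ℕ) : ℝ) = k - 1 := by push_cast [Nat.cast_sub (show 1 ≤ k by omega)]; ring
    rw [hc] at hw
    push_cast at hw
    refine numII_of (H := k - 1) (T := 1.4 * k - 0.1) (by omega) (by omega) (by omega)
      (by linarith) ?_ ?_ ?_
    · intro N hN
      rw [hc]
      push_cast at hN ⊢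
      nlinarith [mul_nonneg (sub_nonneg.2 hN) (sub_nonneg.2 hk'), sq_nonneg (N - (4 * k - 2))]
    · intro N
      rw [hc]
      push_cast
      nlinarith [sq_nonneg (0.8 * N - 3 * k), mul_nonneg (sub_nonneg.2 hk') (sub_nonneg.2 hk')]
    · rw [sq_div_four_even]
      push_cast
      nlinarith

lemma numLarge_odd_odd {k : ℕ} (hk : 30 ≤ k) :
    NumI (2 * (2 * k + 1) + 1) (2 * k + 1) ∧ NumII (2 * (2 * k + 1) + 1) (2 * k + 1) := by
  have hk' : (30 : ℝ) ≤ k := by exact_mod_cast hk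
  have hw := w_le_line (n := 2 * (2 * k + 1) + 1) (h := k) (by omega) (by omega) (by omega)
  push_cast at hw
  constructor
  · refine numI_of (k := k) (T := 1.4 * k + 1.06) (by omega) (by omega) (by omega)
      (by linarith) ?_
    rw [sq_div_four_odd]
    push_cast
    nlinarith [mul_nonneg (sub_nonneg.2 hk') (sq_nonneg (k : ℝ))]
  · refine numII_of (H := k) (T := 1.4 * k + 1.06) (by omega) (by omega) (by omega)
      (by linarith) ?_ ?_ ?_
    · intro N hN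
      push_cast at hN ⊢
      nlinarith [mul_nonneg (sub_nonneg.2 hN) (sub_nonneg.2 hk'), sq_nonneg (N - (4 * k + 1))]
    · intro N
      push_cast
      nlinarith [sq_nonneg (0.8 * N - 3 * k), mul_nonneg (sub_nonneg.2 hk') (sub_nonneg.2 hk')]
    · rw [sq_div_four_odd]
      push_cast
      nlinarith

lemma numLarge_odd_even {k : ℕ} (hk : 30 ≤ k) :
    NumI (2 * (2 * k + 1)) (2 * k + 1) ∧ NumII (2 * (2 * k + 1)) (2 * k + 1) := by
  have hk' : (30 : ℝ) ≤ k := by exact_mod_cast hk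
  have hw := w_le_line (n := 2 * (2 * k + 1)) (h := k) (by omega) (by omega) (by omega)
  push_cast at hw
  constructor
  · refine numI_of (k := k) (T := 1.4 * k + 0.82) (by omega) (by omega) (by omega)
      (by linarith) ?_
    rw [sq_div_four_even]
    push_cast
    nlinarith [mul_nonneg (sub_nonneg.2 hk') (sq_nonneg (k : ℝ))]
  · refine numII_of (H := k) (T := 1.4 * k + 0.82) (by omega) (by omega) (by omega)
      (by linarith) ?_ ?_ ?_
    · intro N hN
      push_cast at hN ⊢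
      nlinarith [mul_nonneg (sub_nonneg.2 hN) (sub_nonneg.2 hk'), sq_nonneg (N - 4 * k)]
    · intro N
      push_cast
      nlinarith [sq_nonneg (0.8 * N - 3 * k), mul_nonneg (sub_nonneg.2 hk') (sub_nonneg.2 hk')]
    · rw [sq_div_four_even]
      push_cast
      nlinarith

/-- NUMLARGE. -/
theorem numLarge : NumLargeS := by
  intro d hd
  rcases Nat.even_or_odd' d with ⟨k, rfl | rfl⟩
  · exact ⟨(numLarge_even_odd (by omega)).1, (numLarge_even_odd (by omega)).2,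
      (numLarge_even_even (by omega)).1, (numLarge_even_even (by omega)).2⟩
  · exact ⟨(numLarge_odd_odd (by omega)).1, (numLarge_odd_odd (by omega)).2,
      (numLarge_odd_even (by omega)).1, (numLarge_odd_even (by omega)).2⟩

end Pool.Agent.Lib.MP_b0a977_co.DW
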