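import Pool.Agent.Lib.MP_b0a977_co.DW.Seq

/-! Row NUMSMALL: the finite check with integer upper bounds of `300 w_h`. -/

set_option maxRecDepth 100000

namespace Pool.Agent.Lib.MP_b0a977_co.DW.NumSmall

open Pool.Agent.Lib.MP_b0a977_co.DW

/-- the list consists of upper bounds of `300 w_h` -/
def chain (n : ℕ) : ℕ → List ℕ → Bool
  | _, [] => true
  | x, y :: l => Nat.ble ((x - 300) * (x - 300) + 90000 * (n - 1)) (y * y) && chain n y l

/-- the inequality of (I) -/
def stepI (n x y : ℕ) : Bool :=
  Nat.blt ((n - 1) * (x * x + y * y)) (90000 * (n * (n * n / 4) + 2))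

/-- all `h ≤ m` -/
def allI (n d : ℕ) (L : List ℕ) : ℕ → Bool
  | 0 => stepI n (L.getD 0 0) (L.getD d 0)
  | h + 1 => stepI n (L.getD (h + 1) 0) (L.getD (d - (h + 1)) 0) && allI n d L h

/-- the inequality of (II) -/
def stepII (n d a h W s : ℕ) : Bool :=
  Nat.blt (s * (n / 2)) n ||
  Nat.blt (900000 * (s * (s * s / 4) + (n - s) * (2 * (s * s / 4))) + 20 * ((n - s) * (W * W)) +
    90000 * ((n - s) * ((n - s - h) * ((10 - a) * (s / 2) + a * (d - 2 * h)))))
    (900000 * (n * (n * n / 4) + 2))

/-- all `1 ≤ s ≤ m` -/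
def allS (n d a h W : ℕ) : ℕ → Bool
  | 0 => true
  | s + 1 => stepII n d a h W (s + 1) && allS n d a h W s

/-- all `1 ≤ h ≤ m` -/
def allII (n d a : ℕ) (L : List ℕ) : ℕ → Bool
  | 0 => true
  | h + 1 => allS n d a (h + 1) (L.getD (h + 1) 0) (n - (h + 1)) && allII n d a L h

/-- the check for one pair `(n, d)` -/
def chk (n d a : ℕ) (L : List ℕ) : Bool :=
  chain n 300 L && (Nat.beq L.length d && (allI n d (300 :: L) d && allII n d a (300 :: L) ((d - 1) / 2)))

theorem chain_le {n : ℕ} (hn : 2 ≤ n) (l : List ℕ) : ∀ (i x : ℕ), chain n x l = true →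
    300 * w n i ≤ x → ∀ k, k < l.length → 300 * w n (i + 1 + k) ≤ (l.getD k 0 : ℕ) := by
  induction l with
  | nil => intro i x _ _ k hk; simp at hk
  | cons y l ih =>
    intro i x hc hx k hk
    rw [chain, Bool.and_eq_true] at hc
    obtain ⟨h1, h2⟩ := hc
    have h1' : (x - 300) * (x - 300) + 90000 * (n - 1) ≤ y * y := Nat.le_of_ble_eq_true h1
    have hw : (1 : ℝ) ≤ w n i := one_le_w hn i
    have hx3 : 300 ≤ x := by
      have : (300 : ℝ) ≤ x := by linarith
      exact_mod_cast this
    have hy : 300 * w n (i + 1) ≤ (y : ℝ) := by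
      have e : w n (i + 1) = √((w n i - 1) ^ 2 + ((n : ℝ) - 1)) := rfl
      have e2 : 300 * w n (i + 1) = √((300 * w n i - 300) ^ 2 + 90000 * ((n : ℝ) - 1)) := by
        rw [e]
        have : (300 * w n i - 300) ^ 2 + 90000 * ((n : ℝ) - 1) =
            300 ^ 2 * ((w n i - 1) ^ 2 + ((n : ℝ) - 1)) := by ring
        rw [this, Real.sqrt_mul (by norm_num), Real.sqrt_sq (by norm_num)]
      rw [e2]
      refine Real.sqrt_le_iff.2 ⟨Nat.cast_nonneg _, ?_⟩
      have h3 : ((x : ℝ) - 300) * ((x : ℝ) - 300) + 90000 * ((n : ℝ) - 1) ≤ (y : ℝ) * y := by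
        have := h1'
        have h4 : (((x - 300) * (x - 300) + 90000 * (n - 1) : ℕ) : ℝ) ≤ ((y * y : ℕ) : ℝ) := by
          exact_mod_cast this
        push_cast [Nat.cast_sub hx3, Nat.cast_sub (by omega : 1 ≤ n)] at h4
        exact h4
      have h5 : (300 * w n i - 300) ^ 2 ≤ ((x : ℝ) - 300) ^ 2 :=
        pow_le_pow_left₀ (by linarith) (by linarith) 2
      nlinarith
    cases k with
    | zero => simpa using hy
    | succ k =>
      have := ih (i + 1) y h2 hy k (by simpa using hk)
      have e : i + 1 + (k + 1) = i + 1 + 1 + k := by ring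
      rw [e]
      simpa using this

theorem allI_spec {n d : ℕ} {L : List ℕ} (m : ℕ) (h : allI n d L m = true) :
    ∀ k ≤ m, stepI n (L.getD k 0) (L.getD (d - k) 0) = true := by
  induction m with
  | zero =>
    intro k hk
    have : k = 0 := by omega
    subst this
    simpa [allI] using h
  | succ m ih =>
    rw [allI, Bool.and_eq_true] at h
    intro k hk
    rcases Nat.lt_or_ge k (m + 1) with h1 | h1
    · exact ih h.2 k (by omega)
    · have : k = m + 1 := by omega
      subst this
      exact h.1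

theorem allS_spec {n d a h W : ℕ} (m : ℕ) (hh : allS n d a h W m = true) :
    ∀ s, 1 ≤ s → s ≤ m → stepII n d a h W s = true := by
  induction m with
  | zero => intro s h1 h2; omega
  | succ m ih =>
    rw [allS, Bool.and_eq_true] at hh
    intro s h1 h2
    rcases Nat.lt_or_ge s (m + 1) with h3 | h3
    · exact ih hh.2 s h1 (by omega)
    · have : s = m + 1 := by omega
      subst this
      exact hh.1

theorem allII_spec {n d a : ℕ} {L : List ℕ} (m : ℕ) (hh : allII n d a L m = true) :
    ∀ h, 1 ≤ h → h ≤ m → allS n d a h (L.getD h 0) (n - h) = true := by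
  induction m with
  | zero => intro h h1 h2; omega
  | succ m ih =>
    rw [allII, Bool.and_eq_true] at hh
    intro h h1 h2
    rcases Nat.lt_or_ge h (m + 1) with h3 | h3
    · exact ih hh.2 h h1 (by omega)
    · have : h = m + 1 := by omega
      subst this
      exact hh.1

theorem chk_spec {n d a : ℕ} {L : List ℕ} (hn : 2 ≤ n) (ha : a ≤ 10) (h : chk n d a L = true) :
    NumI n d ∧ NumII n d := by
  rw [chk, Bool.and_eq_true, Bool.and_eq_true, Bool.and_eq_true] at h
  obtain ⟨hc, hl, hI, hII⟩ := h
  have hl' : L.length = d := Nat.eq_of_beq_eq_true hl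
  have hw : ∀ k ≤ d, 300 * w n k ≤ (((300 :: L).getD k 0 : ℕ) : ℝ) := by
    intro k hk
    cases k with
    | zero => simp [w]
    | succ k =>
      have := chain_le hn L 0 300 hc (by simp [w]) k (by omega)
      have e : 0 + 1 + k = k + 1 := by ring
      rw [e] at this
      simpa using this
  have hw0 : ∀ k, 0 ≤ w n k := fun k => le_trans zero_le_one (one_le_w hn k)
  have hsq : ∀ k ≤ d, 90000 * w n k ^ 2 ≤
      (((300 :: L).getD k 0 : ℕ) : ℝ) * (((300 :: L).getD k 0 : ℕ) : ℝ) := by
    intro k hk
    have h1 := hw k hk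
    have h2 : (300 * w n k) ^ 2 ≤ (((300 :: L).getD k 0 : ℕ) : ℝ) ^ 2 :=
      pow_le_pow_left₀ (by have := hw0 k; positivity) h1 2
    nlinarith
  have hn1 : (0 : ℝ) ≤ (n : ℝ) - 1 := by
    have : (2 : ℝ) ≤ n := by exact_mod_cast hn
    linarith
  constructor
  · intro k hk
    have h1 := allI_spec d hI k hk
    rw [stepI] at h1
    have h2 : (n - 1) * ((300 :: L).getD k 0 * (300 :: L).getD k 0 +
        (300 :: L).getD (d - k) 0 * (300 :: L).getD (d - k) 0) <
        90000 * (n * (n * n / 4) + 2) := Nat.le_of_ble_eq_true h1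
    have h3 : (((n - 1) * ((300 :: L).getD k 0 * (300 :: L).getD k 0 +
        (300 :: L).getD (d - k) 0 * (300 :: L).getD (d - k) 0) : ℕ) : ℝ) <
        ((90000 * (n * (n * n / 4) + 2) : ℕ) : ℝ) := by exact_mod_cast h2
    rw [Nat.cast_mul, Nat.cast_sub (by omega : 1 ≤ n), Nat.cast_add, Nat.cast_mul, Nat.cast_mul,
      Nat.cast_one] at h3
    have h4 := hsq k hk
    have h5 := hsq (d - k) (by omega)
    have e : (n ^ 2 / 4 : ℕ) = n * n / 4 := by rw [pow_two]
    rw [e]
    push_cast at h3 ⊢
    nlinarith [mul_le_mul_of_nonneg_left (add_le_add h4 h5) hn1]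
  · refine ⟨(a : ℝ) / 10, by positivity, ?_, ?_⟩
    · rw [div_le_one (by norm_num)]; exact_mod_cast ha
    intro s N h hsN hs h1 hhN hhd
    have hs1 : 1 ≤ s := by
      rcases Nat.eq_zero_or_pos s with h0 | h0
      · subst h0; omega
      · exact h0
    have h2 := allS_spec _ (allII_spec _ hII h h1 (by omega)) s hs1 (by omega)
    rw [stepII, Bool.or_eq_true] at h2
    rcases h2 with h2 | h2
    · have : s * (n / 2) < n := Nat.le_of_ble_eq_true h2
      omega
    have hN : n - s = N := by omega
    rw [hN] at h2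
    have h3 : 900000 * (s * (s * s / 4) + N * (2 * (s * s / 4))) +
        20 * (N * ((300 :: L).getD h 0 * (300 :: L).getD h 0)) +
        90000 * (N * ((N - h) * ((10 - a) * (s / 2) + a * (d - 2 * h)))) <
        900000 * (n * (n * n / 4) + 2) := Nat.le_of_ble_eq_true h2
    have h4 : ((900000 * (s * (s * s / 4) + N * (2 * (s * s / 4))) +
        20 * (N * ((300 :: L).getD h 0 * (300 :: L).getD h 0)) +
        90000 * (N * ((N - h) * ((10 - a) * (s / 2) + a * (d - 2 * h)))) : ℕ) : ℝ) <
        ((900000 * (n * (n * n / 4) + 2) : ℕ) : ℝ) := by exact_mod_cast h3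
    have e : (n ^ 2 / 4 : ℕ) = n * n / 4 := by rw [pow_two]
    have e' : (s ^ 2 / 4 : ℕ) = s * s / 4 := by rw [pow_two]
    rw [e, e']
    have h5 := hsq h (by omega)
    rw [Nat.cast_add, Nat.cast_add, Nat.cast_mul, Nat.cast_add, Nat.cast_mul, Nat.cast_mul,
      Nat.cast_mul, Nat.cast_mul, Nat.cast_mul, Nat.cast_mul, Nat.cast_mul, Nat.cast_mul,
      Nat.cast_mul, Nat.cast_sub hhN, Nat.cast_add, Nat.cast_mul, Nat.cast_mul, Nat.cast_mul,
      Nat.cast_sub ha, Nat.cast_sub (by omega : 2 * h ≤ d), Nat.cast_mul, Nat.cast_add,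
      Nat.cast_mul] at h4
    have hN0 : (0 : ℝ) ≤ N := Nat.cast_nonneg _
    have h6 := mul_le_mul_of_nonneg_left h5 hN0
    generalize (((s * s / 4 : ℕ) : ℕ) : ℝ) = A at h4 ⊢
    generalize (((n * n / 4 : ℕ) : ℕ) : ℝ) = A' at h4 ⊢
    generalize (((s / 2 : ℕ) : ℕ) : ℝ) = A'' at h4 ⊢
    generalize ((((300 :: L).getD h 0 : ℕ) : ℕ) : ℝ) = W at h4 h5 h6
    push_cast at h4
    nlinarith

theorem c7 : chk 7 3 5 [735, 854, 921] = true := by
  decide +kernel

theorem c9 : chk 9 4 5 [849, 1011, 1108, 1172] = true := by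
  decide +kernel

theorem c11 : chk 11 5 5 [949, 1150, 1274, 1360, 1423] = true := by
  decide +kernel

theorem c13 : chk 13 6 5 [1040, 1276, 1426, 1533, 1613, 1675] = true := by
  decide +kernel

theorem c15 : chk 15 7 5 [1123, 1392, 1567, 1693, 1789, 1865, 1926] = true := by
  decide +kernel

theorem c17 : chk 17 8 5 [1200, 1500, 1698, 1843, 1955, 2045, 2118, 2179] = true := by
  decide +kernel

theorem c19 : chk 19 9 5 [1273, 1603, 1822, 1985, 2112, 2215, 2300, 2371, 2431] = true := by
  decide +kernel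

theorem c21 : chk 21 10 5 [1342, 1699, 1939, 2119, 2261, 2377, 2473, 2554, 2624, 2684] = true := by
  decide +kernel

theorem c23 : chk 23 11 5 [1408, 1791, 2051, 2247, 2403, 2531, 2638, 2729, 2808, 2876, 2936] =
  true := by
  decide +kernel

theorem c25 : chk 25 12 5 [1470, 1879, 2158, 2370, 2539, 2679, 2797, 2898, 2985, 3061, 3128,
  3188] = true := by
  decide +kernel

theorem c27 : chk 27 13 5 [1530, 1963, 2260, 2487, 2669, 2820, 2948, 3059, 3155, 3239, 3314,
  3380, 3439] = true := by
  decide +kernel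

theorem c29 : chk 29 14 4 [1588, 2045, 2360, 2601, 2796, 2959, 3097, 3217, 3321, 3413, 3495,
  3568, 3634, 3693] = true := by
  decide +kernel

theorem c31 : chk 31 15 4 [1644, 2123, 2455, 2710, 2917, 3091, 3239, 3368, 3481, 3581, 3670,
  3750, 3822, 3887, 3946] = true := by
  decide +kernel

theorem c33 : chk 33 16 4 [1698, 2199, 2547, 2816, 3035, 3219, 3377, 3514, 3635, 3742, 3838,
  3924, 4002, 4073, 4138, 4197] = true := by
  decide +kernel

theorem c35 : chk 35 17 4 [1750, 2273, 2637, 2920, 3151, 3345, 3512, 3658, 3787, 3902, 4005,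
  4098, 4182, 4258, 4328, 4392, 4451] = true := by
  decide +kernel

theorem c37 : chk 37 18 4 [1800, 2344, 2724, 3020, 3262, 3467, 3643, 3797, 3934, 4056, 4166,
  4265, 4355, 4437, 4512, 4581, 4645, 4704] = true := by
  decide +kernel

theorem c39 : chk 39 19 4 [1850, 2413, 2808, 3117, 3370, 3584, 3769, 3932, 4076, 4205, 4321,
  4426, 4522, 4610, 4690, 4764, 4832, 4895, 4954] = true := by
  decide +kernel

theorem c41 : chk 41 20 4 [1898, 2481, 2891, 3212, 3476, 3700, 3894, 4065, 4217, 4353, 4476,
  4587, 4689, 4782, 4868, 4947, 5020, 5088, 5151, 5209] = true := by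
  decide +kernel

theorem c43 : chk 43 21 4 [1945, 2547, 2972, 3305, 3580, 3813, 4016, 4194, 4353, 4496, 4625,
  4742, 4849, 4948, 5039, 5123, 5201, 5273, 5340, 5402, 5460] = true := by
  decide +kernel

theorem c45 : chk 45 22 4 [1990, 2611, 3050, 3395, 3680, 3923, 4134, 4320, 4486, 4635, 4770,
  4893, 5006, 5110, 5206, 5295, 5377, 5454, 5525, 5592, 5654, 5712] = true := by
  decide +kernel

theorem c47 : chk 47 23 4 [2035, 2674, 3127, 3484, 3779, 4031, 4250, 4444, 4617, 4773, 4915,
  5044, 5162, 5271, 5372, 5465, 5552, 5633, 5708, 5779, 5845, 5907, 5965] = true := by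
  decide +kernel

theorem c49 : chk 49 24 4 [2079, 2736, 3203, 3571, 3876, 4137, 4364, 4565, 4745, 4907, 5055,
  5190, 5314, 5428, 5534, 5632, 5723, 5808, 5888, 5963, 6033, 6099, 6161, 6219] = true := by
  decide +kernel

theorem c51 : chk 51 25 4 [2122, 2797, 3277, 3656, 3971, 4240, 4475, 4684, 4871, 5040, 5194,
  5334, 5463, 5582, 5693, 5796, 5892, 5981, 6065, 6143, 6217, 6286, 6351, 6413, 6471] = true := by
  decide +kernel

theorem c53 : chk 53 26 4 [2164, 2856, 3349, 3739, 4063, 4341, 4584, 4800, 4993, 5168, 5328,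
  5474, 5609, 5733, 5848, 5955, 6055, 6149, 6237, 6319, 6396, 6469, 6538, 6603, 6664, 6722] = true
  := by
  decide +kernel

theorem c55 : chk 55 27 4 [2205, 2914, 3420, 3821, 4155, 4441, 4692, 4915, 5115, 5296, 5461,
  5613, 5753, 5882, 6002, 6114, 6218, 6316, 6408, 6494, 6575, 6651, 6723, 6791, 6856, 6917, 6975]
  = true := by
  decide +kernel

theorem c57 : chk 57 28 4 [2245, 2971, 3490, 3901, 4244, 4539, 4797, 5027, 5234, 5421, 5592,
  5749, 5894, 6028, 6153, 6269, 6378, 6480, 6576, 6666, 6751, 6831, 6907, 6978, 7046, 7110, 7171,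
  7229] = true := by
  decide +kernel

theorem c59 : chk 59 29 4 [2285, 3027, 3558, 3980, 4332, 4635, 4901, 5138, 5351, 5544, 5721,
  5883, 6033, 6172, 6301, 6422, 6535, 6641, 6741, 6835, 6923, 7007, 7086, 7161, 7232, 7299, 7363,
  7424, 7482] = true := by
  decide +kernel

theorem c61 : chk 61 30 4 [2324, 3082, 3625, 4057, 4418, 4729, 5002, 5245, 5464, 5663, 5845,
  6013, 6168, 6312, 6446, 6571, 6688, 6798, 6902, 7000, 7092, 7179, 7261, 7339, 7413, 7483, 7550,
  7614, 7675, 7733] = true := by
  decide +kernel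

theorem c63 : chk 63 31 4 [2363, 3137, 3692, 4134, 4504, 4823, 5103, 5353, 5578, 5783, 5971,
  6144, 6304, 6452, 6590, 6719, 6840, 6954, 7061, 7162, 7258, 7349, 7435, 7516, 7593, 7667, 7737,
  7804, 7868, 7929, 7987] = true := by
  decide +kernel

theorem c65 : chk 65 32 4 [2400, 3190, 3757, 4209, 4587, 4914, 5201, 5458, 5690, 5901, 6094,
  6272, 6437, 6590, 6733, 6867, 6992, 7110, 7221, 7326, 7425, 7519, 7608, 7692, 7772, 7848, 7921,
  7990, 8056, 8119, 8180, 8238] = true := by
  decide +kernel

theorem c67 : chk 67 33 4 [2438, 3243, 3822, 4284, 4671, 5005, 5299, 5562, 5800, 6016, 6214,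
  6397, 6567, 6725, 6872, 7010, 7139, 7261, 7376, 7484, 7587, 7684, 7776, 7864, 7947, 8026, 8102,
  8174, 8243, 8309, 8372, 8432, 8490] = true := by
  decide +kernel

theorem c69 : chk 69 34 4 [2474, 3294, 3884, 4355, 4751, 5093, 5394, 5663, 5907, 6129, 6333,
  6521, 6695, 6857, 7009, 7151, 7284, 7410, 7529, 7641, 7747, 7848, 7944, 8035, 8121, 8203, 8282,
  8357, 8429, 8498, 8564, 8627, 8687, 8745] = true := by
  decide +kernel

theorem c71 : chk 71 35 4 [2510, 3345, 3947, 4428, 4832, 5181, 5489, 5765, 6014, 6241, 6450,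
  6643, 6822, 6989, 7145, 7291, 7428, 7558, 7680, 7796, 7906, 8010, 8109, 8203, 8293, 8378, 8459,
  8537, 8611, 8682, 8750, 8815, 8878, 8938, 8996] = true := by
  decide +kernel

theorem c73 : chk 73 36 4 [2546, 3395, 4008, 4498, 4910, 5267, 5582, 5864, 6119, 6352, 6566,
  6764, 6948, 7119, 7279, 7429, 7570, 7703, 7829, 7948, 8061, 8168, 8270, 8367, 8460, 8548, 8632,
  8713, 8790, 8864, 8935, 9003, 9068, 9131, 9191, 9249] = true := by
  decide +kernel

theorem c75 : chk 75 37 4 [2581, 3445, 4069, 4568, 4988, 5352, 5673, 5961, 6222, 6460, 6679,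
  6882, 7070, 7246, 7410, 7564, 7709, 7846, 7976, 8099, 8215, 8326, 8431, 8531, 8627, 8718, 8805,
  8888, 8968, 9045, 9118, 9188, 9256, 9321, 9383, 9443, 9501] = true := by
  decide +kernel

theorem c77 : chk 77 38 4 [2616, 3494, 4129, 4637, 5065, 5436, 5764, 6058, 6325, 6569, 6793,
  7000, 7193, 7373, 7542, 7700, 7849, 7990, 8123, 8249, 8369, 8483, 8591, 8694, 8792, 8886, 8976,
  9062, 9144, 9223, 9299, 9372, 9442, 9509, 9574, 9636, 9696, 9754] = true := by
  decide +kernel

theorem c79 : chk 79 39 4 [2650, 3542, 4187, 4705, 5141, 5519, 5854, 6154, 6426, 6675, 6904,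
  7116, 7313, 7497, 7670, 7832, 7985, 8129, 8266, 8396, 8519, 8636, 8747, 8853, 8954, 9051, 9144,
  9233, 9318, 9400, 9478, 9553, 9625, 9695, 9762, 9826, 9888, 9948, 10006] = true := by
  decide +kernel

theorem c81 : chk 81 40 4 [2684, 3590, 4246, 4772, 5216, 5601, 5942, 6248, 6526, 6780, 7014,
  7231, 7433, 7622, 7799, 7965, 8122, 8270, 8410, 8543, 8669, 8789, 8903, 9012, 9116, 9216, 9312,
  9403, 9491, 9575, 9656, 9734, 9809, 9881, 9950, 10017, 10081, 10143, 10203, 10261] = true := by
  decide +kernel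

theorem c83 : chk 83 41 4 [2717, 3637, 4303, 4838, 5289, 5681, 6028, 6340, 6623, 6882, 7121,
  7343, 7549, 7742, 7923, 8093, 8253, 8405, 8549, 8685, 8815, 8938, 9056, 9168, 9275, 9378, 9476,
  9570, 9660, 9747, 9830, 9910, 9987, 10061, 10132, 10201, 10267, 10331, 10393, 10453, 10511] =
  true := by
  decide +kernel

theorem c85 : chk 85 42 4 [2750, 3683, 4360, 4904, 5363, 5762, 6116, 6434, 6723, 6987, 7231,
  7457, 7667, 7864, 8049, 8223, 8387, 8542, 8689, 8829, 8962, 9088, 9209, 9324, 9434, 9539, 9640,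
  9737, 9830, 9919, 10005, 10087, 10166, 10242, 10316, 10387, 10456, 10522, 10586, 10648, 10708,
  10766] = true := by
  decide +kernel

theorem c87 : chk 87 43 4 [2783, 3729, 4416, 4969, 5436, 5842, 6202, 6525, 6819, 7088, 7337,
  7567, 7782, 7983, 8172, 8350, 8518, 8677, 8827, 8970, 9106, 9236, 9360, 9478, 9591, 9699, 9803,
  9902, 9997, 10089, 10177, 10262, 10344, 10423, 10499, 10572, 10643, 10711, 10777, 10841, 10902,
  10961, 11019] = true := by
  decide +kernel

theorem c89 : chk 89 44 4 [2815, 3775, 4472, 5033, 5507, 5919, 6285, 6614, 6913, 7187, 7440,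
  7675, 7894, 8099, 8292, 8474, 8645, 8807, 8961, 9107, 9246, 9379, 9506, 9627, 9743, 9854, 9960,
  10062, 10160, 10254, 10345, 10432, 10516, 10597, 10675, 10750, 10823, 10893, 10961, 11027,
  11091, 11152, 11211, 11269] = true := by
  decide +kernel

theorem c91 : chk 91 45 4 [2847, 3820, 4527, 5096, 5577, 5996, 6368, 6703, 7008, 7287, 7545,
  7784, 8007, 8216, 8413, 8598, 8773, 8939, 9096, 9245, 9387, 9523, 9653, 9777, 9896, 10010,
  10119, 10224, 10325, 10422, 10515, 10605, 10691, 10774, 10854, 10932, 11007, 11079, 11149,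
  11217, 11282, 11345, 11406, 11465, 11523] = true := by
  decide +kernel

theorem c93 : chk 93 46 4 [2878, 3864, 4581, 5159, 5648, 6073, 6451, 6791, 7101, 7385, 7648,
  7892, 8120, 8333, 8533, 8722, 8901, 9070, 9230, 9383, 9528, 9667, 9800, 9927, 10048, 10164,
  10276, 10383, 10486, 10585, 10680, 10772, 10861, 10946, 11029, 11109, 11186, 11260, 11332,
  11402, 11469, 11534, 11597, 11658, 11717, 11775] = true := by
  decide +kernel

theorem c95 : chk 95 47 4 [2909, 3908, 4635, 5221, 5717, 6149, 6533, 6879, 7194, 7483, 7750,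
  7998, 8230, 8447, 8651, 8844, 9026, 9198, 9362, 9518, 9666, 9808, 9943, 10073, 10197, 10316,
  10430, 10540, 10646, 10748, 10846, 10940, 11031, 11119, 11204, 11286, 11365, 11441, 11515,
  11587, 11656, 11723, 11788, 11851, 11912, 11971, 12028] = true := by
  decide +kernel

theorem c97 : chk 97 48 4 [2940, 3951, 4688, 5282, 5785, 6223, 6613, 6964, 7284, 7578, 7850,
  8103, 8339, 8560, 8768, 8964, 9150, 9326, 9493, 9652, 9804, 9949, 10087, 10219, 10346, 10468,
  10585, 10697, 10805, 10909, 11009, 11106, 11199, 11289, 11376, 11460, 11541, 11619, 11695,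
  11769, 11840, 11909, 11976, 12041, 12104, 12165, 12224, 12281] = true := by
  decide +kernel

theorem c99 : chk 99 49 4 [2970, 3994, 4740, 5342, 5852, 6297, 6693, 7050, 7375, 7674, 7950,
  8207, 8447, 8672, 8884, 9084, 9273, 9452, 9622, 9784, 9939, 10087, 10228, 10363, 10493, 10617,
  10736, 10851, 10962, 11068, 11171, 11270, 11365, 11457, 11546, 11632, 11715, 11796, 11874,
  11949, 12022, 12093, 12162, 12229, 12294, 12357, 12418, 12477, 12534] = true := by
  decide +kernel

theorem c101 : chk 101 50 4 [3000, 4037, 4793, 5403, 5920, 6371, 6772, 7134, 7464, 7767, 8048,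
  8309, 8553, 8782, 8997, 9200, 9393, 9576, 9750, 9915, 10073, 10224, 10368, 10506, 10638, 10765,
  10887, 11004, 11117, 11226, 11331, 11432, 11530, 11624, 11715, 11803, 11888, 11971, 12051,
  12128, 12203, 12276, 12347, 12415, 12481, 12545, 12608, 12669, 12728, 12785] = true := by
  decide +kernel

theorem c103 : chk 103 51 4 [3030, 4079, 4844, 5462, 5986, 6443, 6850, 7217, 7552, 7860, 8145,
  8410, 8658, 8891, 9110, 9317, 9513, 9699, 9876, 10044, 10205, 10359, 10506, 10647, 10782, 10912,
  11037, 11157, 11272, 11383, 11490, 11593, 11693, 11789, 11882, 11972, 12059, 12144, 12226,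
  12305, 12382, 12457, 12529, 12599, 12667, 12733, 12797, 12860, 12921, 12980, 13037] = true := by
  decide +kernel

theorem c105 : chk 105 52 4 [3060, 4121, 4895, 5521, 6052, 6516, 6929, 7301, 7641, 7954, 8243,
  8512, 8764, 9000, 9223, 9433, 9632, 9821, 10001, 10172, 10336, 10492, 10642, 10786, 10924,
  11056, 11183, 11305, 11423, 11537, 11647, 11753, 11855, 11954, 12049, 12141, 12230, 12317,
  12401, 12482, 12561, 12637, 12711, 12783, 12853, 12921, 12987, 13051, 13113, 13174, 13233,
  13290] = true := by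
  decide +kernel

theorem c107 : chk 107 53 4 [3089, 4162, 4946, 5580, 6118, 6588, 7006, 7384, 7729, 8046, 8340,
  8613, 8869, 9109, 9335, 9549, 9752, 9944, 10127, 10301, 10468, 10627, 10780, 10926, 11066,
  11201, 11331, 11456, 11576, 11692, 11804, 11912, 12016, 12117, 12214, 12308, 12399, 12488,
  12574, 12657, 12738, 12816, 12892, 12966, 13038, 13108, 13176, 13242, 13306, 13368, 13429,
  13488, 13545] = true := by
  decide +kernel

theorem c109 : chk 109 54 4 [3118, 4203, 4996, 5637, 6181, 6657, 7081, 7464, 7813, 8135, 8433,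
  8711, 8971, 9215, 9445, 9662, 9868, 10064, 10250, 10428, 10597, 10759, 10914, 11063, 11206,
  11343, 11475, 11602, 11725, 11843, 11957, 12067, 12174, 12277, 12377, 12473, 12566, 12657,
  12745, 12830, 12913, 12993, 13071, 13147, 13220, 13291, 13360, 13427, 13493, 13557, 13619,
  13680, 13739, 13796] = true := by
  decide +kernel

theorem c111 : chk 111 55 4 [3147, 4244, 5046, 5695, 6246, 6728, 7157, 7545, 7899, 8225, 8527,
  8809, 9073, 9321, 9554, 9775, 9984, 10183, 10372, 10553, 10725, 10890, 11048, 11200, 11346,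
  11486, 11621, 11751, 11876, 11996, 12112, 12224, 12333, 12438, 12540, 12638, 12733, 12825,
  12915, 13002, 13086, 13168, 13248, 13325, 13400, 13473, 13544, 13613, 13680, 13745, 13809,
  13871, 13931, 13990, 14047] = true := by
  decide +kernel

theorem c113 : chk 113 56 4 [3175, 4284, 5095, 5751, 6309, 6797, 7232, 7625, 7984, 8315, 8621,
  8907, 9174, 9425, 9662, 9886, 10099, 10301, 10493, 10677, 10852, 11020, 11181, 11335, 11483,
  11625, 11762, 11894, 12021, 12144, 12263, 12378, 12489, 12596, 12700, 12800, 12897, 12991,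
  13083, 13172, 13258, 13342, 13423, 13502, 13579, 13654, 13727, 13798, 13867, 13934, 13999,
  14063, 14125, 14185, 14244, 14301] = true := by
  decide +kernel

theorem c115 : chk 115 57 4 [3204, 4324, 5144, 5808, 6372, 6866, 7306, 7704, 8068, 8403, 8714,
  9004, 9275, 9530, 9770, 9998, 10214, 10419, 10614, 10800, 10978, 11149, 11312, 11469, 11620,
  11765, 11905, 12039, 12169, 12294, 12415, 12532, 12645, 12754, 12860, 12963, 13062, 13158,
  13251, 13342, 13430, 13516, 13599, 13680, 13759, 13835, 13909, 13981, 14051, 14120, 14187,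
  14252, 14315, 14377, 14437, 14496, 14553] = true := by
  decide +kernel

theorem c117 : chk 117 58 4 [3232, 4364, 5192, 5863, 6434, 6933, 7379, 7782, 8150, 8489, 8804,
  9098, 9373, 9632, 9876, 10107, 10326, 10534, 10732, 10921, 11102, 11275, 11441, 11601, 11754,
  11902, 12044, 12181, 12313, 12440, 12563, 12682, 12797, 12908, 13016, 13121, 13222, 13320,
  13415, 13508, 13598, 13685, 13770, 13853, 13933, 14011, 14087, 14161, 14233, 14303, 14371,
  14438, 14503, 14566, 14628, 14688, 14747, 14804] = true := by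
  decide +kernel

theorem c119 : chk 119 59 4 [3259, 4402, 5239, 5918, 6495, 7000, 7451, 7859, 8232, 8576, 8895,
  9193, 9472, 9734, 9981, 10215, 10437, 10648, 10850, 11042, 11226, 11402, 11571, 11733, 11889,
  12039, 12183, 12322, 12456, 12586, 12711, 12832, 12949, 13063, 13173, 13280, 13383, 13483,
  13580, 13675, 13767, 13856, 13943, 14027, 14109, 14189, 14267, 14343, 14417, 14489, 14559,
  14627, 14693, 14758, 14821, 14883, 14943, 15002, 15059] = true := by
  decide +kernel

theorem c56 : chk 56 28 4 [2225, 2943, 3455, 3861, 4199, 4490, 4745, 4971, 5174, 5358, 5526,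
  5680, 5822, 5954, 6076, 6190, 6297, 6397, 6491, 6579, 6662, 6740, 6814, 6884, 6950, 7013, 7073,
  7130] = true := by
  decide +kernel

theorem c58 : chk 58 29 4 [2265, 2999, 3524, 3941, 4288, 4587, 4849, 5082, 5292, 5482, 5656,
  5816, 5963, 6100, 6227, 6346, 6457, 6561, 6659, 6751, 6838, 6920, 6997, 7070, 7139, 7205, 7267,
  7326, 7383] = true := by
  decide +kernel

theorem c60 : chk 60 30 4 [2305, 3055, 3592, 4019, 4376, 4683, 4952, 5192, 5408, 5604, 5783,
  5948, 6100, 6241, 6373, 6496, 6611, 6719, 6821, 6917, 7007, 7092, 7173, 7250, 7323, 7392, 7457,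
  7519, 7578, 7635] = true := by
  decide +kernel

theorem c62 : chk 62 31 4 [2344, 3110, 3659, 4096, 4461, 4776, 5053, 5300, 5522, 5724, 5909,
  6079, 6236, 6382, 6518, 6645, 6764, 6876, 6981, 7080, 7174, 7263, 7347, 7427, 7503, 7575, 7644,
  7709, 7771, 7830, 7887] = true := by
  decide +kernel

theorem c64 : chk 64 32 4 [2382, 3164, 3725, 4172, 4546, 4869, 5153, 5406, 5634, 5842, 6032,
  6207, 6369, 6520, 6661, 6793, 6916, 7032, 7141, 7244, 7341, 7433, 7520, 7603, 7682, 7757, 7828,
  7896, 7961, 8023, 8082, 8139] = true := by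
  decide +kernel

theorem c66 : chk 66 33 4 [2419, 3216, 3789, 4246, 4629, 4959, 5250, 5510, 5745, 5959, 6155,
  6335, 6502, 6657, 6802, 6938, 7065, 7185, 7298, 7405, 7506, 7602, 7693, 7779, 7861, 7939, 8013,
  8084, 8152, 8217, 8279, 8338, 8395] = true := by
  decide +kernel

theorem c68 : chk 68 34 4 [2456, 3268, 3853, 4320, 4711, 5049, 5347, 5613, 5854, 6073, 6274,
  6459, 6631, 6791, 6940, 7080, 7211, 7335, 7452, 7562, 7666, 7765, 7859, 7948, 8033, 8114, 8191,
  8265, 8335, 8402, 8466, 8528, 8587, 8644] = true := by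
  decide +kernel

theorem c70 : chk 70 35 4 [2492, 3319, 3915, 4391, 4791, 5137, 5442, 5715, 5961, 6186, 6392,
  6582, 6759, 6924, 7078, 7222, 7357, 7485, 7605, 7719, 7827, 7929, 8026, 8118, 8206, 8290, 8370,
  8446, 8519, 8589, 8656, 8720, 8782, 8841, 8898] = true := by
  decide +kernel

theorem c72 : chk 72 36 4 [2528, 3370, 3977, 4463, 4871, 5224, 5535, 5814, 6066, 6296, 6508,
  6703, 6884, 7053, 7211, 7359, 7498, 7629, 7753, 7871, 7982, 8088, 8188, 8284, 8375, 8462, 8545,
  8624, 8700, 8773, 8843, 8910, 8974, 9035, 9094, 9151] = true := by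
  decide +kernel

theorem c74 : chk 74 37 4 [2564, 3420, 4038, 4533, 4949, 5309, 5627, 5912, 6170, 6406, 6623,
  6823, 7009, 7182, 7344, 7496, 7639, 7774, 7902, 8023, 8138, 8247, 8351, 8450, 8544, 8634, 8720,
  8802, 8880, 8955, 9027, 9096, 9162, 9226, 9287, 9346, 9403] = true := by
  decide +kernel

theorem c76 : chk 76 38 4 [2599, 3470, 4099, 4603, 5027, 5394, 5719, 6010, 6274, 6515, 6737,
  6942, 7133, 7311, 7477, 7633, 7780, 7919, 8050, 8174, 8292, 8404, 8511, 8613, 8710, 8803, 8892,
  8977, 9058, 9136, 9211, 9283, 9352, 9418, 9481, 9542, 9601, 9658] = true := by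
  decide +kernel

theorem c78 : chk 78 39 4 [2633, 3518, 4158, 4671, 5103, 5478, 5809, 6106, 6375, 6621, 6848,
  7058, 7253, 7435, 7606, 7766, 7917, 8060, 8195, 8323, 8444, 8559, 8669, 8774, 8874, 8970, 9061,
  9148, 9232, 9312, 9389, 9463, 9534, 9602, 9668, 9731, 9792, 9851, 9908] = true := by
  decide +kernel

theorem c80 : chk 80 40 4 [2667, 3566, 4217, 4739, 5179, 5561, 5899, 6202, 6477, 6728, 6960,
  7174, 7374, 7560, 7735, 7899, 8054, 8200, 8338, 8469, 8594, 8713, 8826, 8934, 9037, 9135, 9229,
  9319, 9405, 9488, 9568, 9644, 9718, 9789, 9857, 9923, 9986, 10047, 10106, 10163] = true := by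
  decide +kernel

theorem c82 : chk 82 41 4 [2700, 3613, 4274, 4805, 5253, 5642, 5986, 6295, 6575, 6832, 7069,
  7288, 7492, 7683, 7862, 8030, 8188, 8338, 8480, 8615, 8743, 8865, 8981, 9092, 9198, 9299, 9396,
  9489, 9578, 9663, 9745, 9824, 9900, 9973, 10043, 10111, 10176, 10239, 10300, 10359, 10416] =
  true := by
  decide +kernel

theorem c84 : chk 84 42 4 [2734, 3660, 4332, 4872, 5327, 5722, 6072, 6387, 6673, 6935, 7176,
  7400, 7608, 7803, 7986, 8158, 8320, 8473, 8618, 8756, 8887, 9012, 9131, 9245, 9354, 9458, 9558,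
  9654, 9746, 9834, 9919, 10000, 10078, 10153, 10226, 10296, 10363, 10428, 10491, 10552, 10611,
  10668] = true := by
  decide +kernel

theorem c86 : chk 86 43 4 [2766, 3706, 4388, 4936, 5399, 5801, 6158, 6479, 6770, 7037, 7283,
  7511, 7724, 7923, 8110, 8286, 8452, 8609, 8758, 8899, 9033, 9161, 9283, 9400, 9512, 9619, 9721,
  9819, 9913, 10003, 10090, 10174, 10255, 10333, 10408, 10480, 10550, 10617, 10682, 10745, 10805,
  10864, 10921] = true := by
  decide +kernel

theorem c88 : chk 88 44 4 [2799, 3752, 4444, 5001, 5471, 5880, 6243, 6569, 6866, 7138, 7389,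
  7622, 7839, 8042, 8233, 8413, 8583, 8743, 8895, 9040, 9178, 9309, 9434, 9554, 9668, 9777, 9882,
  9983, 10080, 10173, 10262, 10348, 10431, 10511, 10588, 10662, 10734, 10803, 10870, 10935, 10997,
  11057, 11115, 11172] = true := by
  decide +kernel

theorem c90 : chk 90 45 4 [2831, 3797, 4499, 5064, 5542, 5958, 6327, 6659, 6961, 7238, 7494,
  7731, 7952, 8159, 8354, 8537, 8710, 8874, 9030, 9178, 9319, 9453, 9581, 9703, 9820, 9932, 10040,
  10143, 10242, 10337, 10429, 10517, 10602, 10684, 10763, 10840, 10914, 10985, 11054, 11121,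
  11185, 11247, 11307, 11366, 11423] = true := by
  decide +kernel

theorem c92 : chk 92 46 4 [2862, 3842, 4554, 5128, 5613, 6035, 6410, 6748, 7055, 7337, 7597,
  7839, 8064, 8275, 8473, 8660, 8837, 9004, 9163, 9314, 9458, 9595, 9726, 9851, 9971, 10086,
  10196, 10302, 10404, 10502, 10596, 10687, 10775, 10859, 10940, 11019, 11095, 11168, 11239,
  11308, 11374, 11438, 11500, 11560, 11618, 11675] = true := by
  decide +kernel

theorem c94 : chk 94 47 4 [2894, 3886, 4608, 5190, 5682, 6111, 6492, 6835, 7147, 7434, 7699,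
  7945, 8175, 8390, 8592, 8783, 8963, 9134, 9296, 9450, 9597, 9737, 9871, 9999, 10122, 10240,
  10353, 10462, 10566, 10666, 10763, 10856, 10946, 11033, 11117, 11198, 11276, 11351, 11424,
  11495, 11563, 11629, 11693, 11755, 11815, 11873, 11930] = true := by
  decide +kernel

theorem c96 : chk 96 48 4 [2925, 3930, 4662, 5252, 5751, 6186, 6573, 6922, 7239, 7530, 7799,
  8049, 8283, 8502, 8708, 8902, 9086, 9260, 9426, 9583, 9733, 9876, 10013, 10144, 10270, 10390,
  10506, 10617, 10724, 10827, 10926, 11021, 11113, 11202, 11288, 11371, 11451, 11529, 11604,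
  11677, 11747, 11815, 11881, 11945, 12007, 12067, 12125, 12182] = true := by
  decide +kernel

theorem c98 : chk 98 49 4 [2955, 3973, 4714, 5312, 5819, 6261, 6654, 7008, 7330, 7626, 7900,
  8155, 8393, 8616, 8826, 9024, 9211, 9389, 9558, 9719, 9872, 10018, 10158, 10292, 10420, 10543,
  10661, 10775, 10884, 10989, 11090, 11188, 11282, 11373, 11461, 11546, 11628, 11707, 11784,
  11859, 11931, 12001, 12069, 12135, 12199, 12261, 12321, 12379, 12436] = true := by
  decide +kernel

theorem c100 : chk 100 50 4 [2985, 4015, 4766, 5372, 5886, 6334, 6732, 7091, 7419, 7720, 7998,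
  8257, 8499, 8726, 8940, 9142, 9333, 9514, 9686, 9850, 10006, 10155, 10298, 10435, 10566, 10692,
  10813, 10929, 11041, 11149, 11253, 11353, 11449, 11542, 11632, 11719, 11803, 11884, 11963,
  12039, 12113, 12185, 12255, 12323, 12388, 12452, 12514, 12574, 12632, 12689] = true := by
  decide +kernel

theorem c102 : chk 102 51 4 [3015, 4058, 4818, 5432, 5953, 6407, 6811, 7176, 7508, 7814, 8097,
  8360, 8606, 8837, 9054, 9259, 9453, 9637, 9812, 9979, 10138, 10290, 10436, 10575, 10709, 10837,
  10960, 11079, 11193, 11303, 11409, 11511, 11610, 11705, 11797, 11886, 11972, 12056, 12137,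
  12215, 12291, 12365, 12437, 12506, 12573, 12638, 12702, 12764, 12824, 12882, 12939] = true := by
  decide +kernel

theorem c104 : chk 104 52 4 [3045, 4100, 4870, 5492, 6019, 6479, 6889, 7259, 7596, 7906, 8193,
  8460, 8710, 8945, 9166, 9375, 9573, 9761, 9939, 10109, 10271, 10426, 10574, 10716, 10852, 10983,
  11109, 11230, 11347, 11459, 11567, 11672, 11773, 11871, 11965, 12056, 12144, 12230, 12313,
  12393, 12471, 12547, 12620, 12691, 12760, 12827, 12892, 12955, 13017, 13077, 13135, 13192] =
  true := by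
  decide +kernel

theorem c106 : chk 106 53 4 [3075, 4142, 4921, 5551, 6085, 6552, 6967, 7342, 7684, 7999, 8291,
  8562, 8816, 9054, 9279, 9491, 9692, 9883, 10064, 10237, 10402, 10560, 10711, 10856, 10995,
  11129, 11257, 11381, 11500, 11615, 11726, 11833, 11936, 12036, 12132, 12225, 12315, 12403,
  12488, 12570, 12650, 12727, 12802, 12875, 12946, 13015, 13082, 13147, 13210, 13271, 13331,
  13389, 13446] = true := by
  decide +kernel

theorem c108 : chk 108 54 4 [3104, 4183, 4971, 5608, 6149, 6622, 7043, 7423, 7770, 8089, 8385,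
  8661, 8919, 9161, 9389, 9605, 9809, 10003, 10188, 10364, 10532, 10693, 10847, 10995, 11137,
  11273, 11404, 11530, 11651, 11768, 11881, 11990, 12095, 12197, 12296, 12391, 12483, 12573,
  12660, 12744, 12826, 12905, 12982, 13057, 13130, 13200, 13269, 13336, 13401, 13464, 13525,
  13585, 13643, 13700] = true := by
  decide +kernel

theorem c110 : chk 110 55 4 [3133, 4224, 5021, 5666, 6214, 6693, 7120, 7505, 7857, 8181, 8481,
  8761, 9023, 9269, 9501, 9720, 9928, 10125, 10313, 10492, 10663, 10826, 10983, 11133, 11277,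
  11416, 11549, 11677, 11801, 11920, 12035, 12146, 12254, 12358, 12459, 12556, 12650, 12741,
  12830, 12916, 12999, 13080, 13159, 13235, 13309, 13381, 13451, 13519, 13585, 13650, 13713,
  13774, 13834, 13892, 13949] = true := by
  decide +kernel

theorem c112 : chk 112 56 4 [3161, 4264, 5070, 5723, 6277, 6762, 7194, 7585, 7942, 8270, 8574,
  8858, 9124, 9373, 9608, 9830, 10041, 10241, 10432, 10614, 10788, 10954, 11113, 11266, 11413,
  11554, 11690, 11821, 11947, 12069, 12187, 12301, 12411, 12517, 12620, 12719, 12815, 12908,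
  12999, 13087, 13172, 13255, 13335, 13413, 13489, 13563, 13635, 13705, 13773, 13839, 13904,
  13967, 14028, 14088, 14146, 14203] = true := by
  decide +kernel

theorem c114 : chk 114 57 4 [3190, 4304, 5119, 5779, 6340, 6831, 7269, 7665, 8026, 8359, 8668,
  8956, 9225, 9478, 9717, 9943, 10157, 10361, 10555, 10740, 10917, 11086, 11248, 11404, 11553,
  11697, 11835, 11968, 12096, 12220, 12340, 12456, 12568, 12676, 12781, 12882, 12980, 13075,
  13168, 13258, 13345, 13430, 13512, 13592, 13670, 13746, 13820, 13892, 13962, 14030, 14096,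
  14160, 14223, 14284, 14344, 14402, 14459] = true := by
  decide +kernel

theorem c116 : chk 116 58 4 [3218, 4344, 5168, 5836, 6403, 6900, 7343, 7743, 8109, 8446, 8759,
  9051, 9324, 9581, 9823, 10052, 10269, 10476, 10673, 10861, 11041, 11213, 11378, 11536, 11688,
  11834, 11975, 12111, 12242, 12368, 12490, 12608, 12722, 12832, 12939, 13043, 13143, 13240,
  13334, 13426, 13515, 13601, 13685, 13767, 13846, 13923, 13998, 14071, 14142, 14211, 14279,
  14345, 14409, 14472, 14533, 14593, 14651, 14708] = true := by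
  decide +kernel

theorem c118 : chk 118 59 4 [3245, 4383, 5216, 5891, 6465, 6967, 7415, 7821, 8192, 8534, 8851,
  9147, 9424, 9684, 9930, 10163, 10384, 10594, 10794, 10985, 11167, 11342, 11509, 11670, 11824,
  11973, 12116, 12254, 12387, 12516, 12640, 12760, 12876, 12988, 13097, 13203, 13305, 13404,
  13500, 13594, 13685, 13773, 13859, 13942, 14023, 14102, 14179, 14254, 14327, 14398, 14467,
  14534, 14600, 14664, 14726, 14787, 14846, 14904, 14961] = true := by
  decide +kernel

theorem num_small : NumSmallS := by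
  refine ⟨?_, ?_⟩
  · intro d h1 h2
    interval_cases d
    · exact chk_spec (by norm_num) (by norm_num) c7
    · exact chk_spec (by norm_num) (by norm_num) c9
    · exact chk_spec (by norm_num) (by norm_num) c11
    · exact chk_spec (by norm_num) (by norm_num) c13
    · exact chk_spec (by norm_num) (by norm_num) c15
    · exact chk_spec (by norm_num) (by norm_num) c17
    · exact chk_spec (by norm_num) (by norm_num) c19
    · exact chk_spec (by norm_num) (by norm_num) c21
    · exact chk_spec (by norm_num) (by norm_num) c23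
    · exact chk_spec (by norm_num) (by norm_num) c25
    · exact chk_spec (by norm_num) (by norm_num) c27
    · exact chk_spec (by norm_num) (by norm_num) c29
    · exact chk_spec (by norm_num) (by norm_num) c31
    · exact chk_spec (by norm_num) (by norm_num) c33
    · exact chk_spec (by norm_num) (by norm_num) c35
    · exact chk_spec (by norm_num) (by norm_num) c37
    · exact chk_spec (by norm_num) (by norm_num) c39
    · exact chk_spec (by norm_num) (by norm_num) c41
    · exact chk_spec (by norm_num) (by norm_num) c43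
    · exact chk_spec (by norm_num) (by norm_num) c45
    · exact chk_spec (by norm_num) (by norm_num) c47
    · exact chk_spec (by norm_num) (by norm_num) c49
    · exact chk_spec (by norm_num) (by norm_num) c51
    · exact chk_spec (by norm_num) (by norm_num) c53
    · exact chk_spec (by norm_num) (by norm_num) c55
    · exact chk_spec (by norm_num) (by norm_num) c57
    · exact chk_spec (by norm_num) (by norm_num) c59
    · exact chk_spec (by norm_num) (by norm_num) c61
    · exact chk_spec (by norm_num) (by norm_num) c63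
    · exact chk_spec (by norm_num) (by norm_num) c65
    · exact chk_spec (by norm_num) (by norm_num) c67
    · exact chk_spec (by norm_num) (by norm_num) c69
    · exact chk_spec (by norm_num) (by norm_num) c71
    · exact chk_spec (by norm_num) (by norm_num) c73
    · exact chk_spec (by norm_num) (by norm_num) c75
    · exact chk_spec (by norm_num) (by norm_num) c77
    · exact chk_spec (by norm_num) (by norm_num) c79
    · exact chk_spec (by norm_num) (by norm_num) c81
    · exact chk_spec (by norm_num) (by norm_num) c83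
    · exact chk_spec (by norm_num) (by norm_num) c85
    · exact chk_spec (by norm_num) (by norm_num) c87
    · exact chk_spec (by norm_num) (by norm_num) c89
    · exact chk_spec (by norm_num) (by norm_num) c91
    · exact chk_spec (by norm_num) (by norm_num) c93
    · exact chk_spec (by norm_num) (by norm_num) c95
    · exact chk_spec (by norm_num) (by norm_num) c97
    · exact chk_spec (by norm_num) (by norm_num) c99
    · exact chk_spec (by norm_num) (by norm_num) c101
    · exact chk_spec (by norm_num) (by norm_num) c103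
    · exact chk_spec (by norm_num) (by norm_num) c105
    · exact chk_spec (by norm_num) (by norm_num) c107
    · exact chk_spec (by norm_num) (by norm_num) c109
    · exact chk_spec (by norm_num) (by norm_num) c111
    · exact chk_spec (by norm_num) (by norm_num) c113
    · exact chk_spec (by norm_num) (by norm_num) c115
    · exact chk_spec (by norm_num) (by norm_num) c117
    · exact chk_spec (by norm_num) (by norm_num) c119
  · intro d h1 h2
    interval_cases d
    · exact chk_spec (by norm_num) (by norm_num) c56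
    · exact chk_spec (by norm_num) (by norm_num) c58
    · exact chk_spec (by norm_num) (by norm_num) c60
    · exact chk_spec (by norm_num) (by norm_num) c62
    · exact chk_spec (by norm_num) (by norm_num) c64
    · exact chk_spec (by norm_num) (by norm_num) c66
    · exact chk_spec (by norm_num) (by norm_num) c68
    · exact chk_spec (by norm_num) (by norm_num) c70
    · exact chk_spec (by norm_num) (by norm_num) c72
    · exact chk_spec (by norm_num) (by norm_num) c74
    · exact chk_spec (by norm_num) (by norm_num) c76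
    · exact chk_spec (by norm_num) (by norm_num) c78
    · exact chk_spec (by norm_num) (by norm_num) c80
    · exact chk_spec (by norm_num) (by norm_num) c82
    · exact chk_spec (by norm_num) (by norm_num) c84
    · exact chk_spec (by norm_num) (by norm_num) c86
    · exact chk_spec (by norm_num) (by norm_num) c88
    · exact chk_spec (by norm_num) (by norm_num) c90
    · exact chk_spec (by norm_num) (by norm_num) c92
    · exact chk_spec (by norm_num) (by norm_num) c94
    · exact chk_spec (by norm_num) (by norm_num) c96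
    · exact chk_spec (by norm_num) (by norm_num) c98
    · exact chk_spec (by norm_num) (by norm_num) c100
    · exact chk_spec (by norm_num) (by norm_num) c102
    · exact chk_spec (by norm_num) (by norm_num) c104
    · exact chk_spec (by norm_num) (by norm_num) c106
    · exact chk_spec (by norm_num) (by norm_num) c108
    · exact chk_spec (by norm_num) (by norm_num) c110
    · exact chk_spec (by norm_num) (by norm_num) c112
    · exact chk_spec (by norm_num) (by norm_num) c114
    · exact chk_spec (by norm_num) (by norm_num) c116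
    · exact chk_spec (by norm_num) (by norm_num) c118

end Pool.Agent.Lib.MP_b0a977_co.DW.NumSmall
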