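import Pool.Agent.Lib.MP_b0a977_co.DW.Cycle
import Pool.Agent.Lib.MP_b0a977_co.DW.Iface2

/-!
# Second part, the cycle of length `2a` with a path of length `k` attached
-/

namespace Pool.Agent.Lib.MP_b0a977_co.DW.TadH

open Finset

/-- The graph: `0, …, 2a-1` is the cycle, `0, 2a, 2a+1, …` the path. -/
def tg (a k : ℕ) (ha : 2 ≤ a) : SimpleGraph (Fin (2 * a + k)) where
  Adj i j := (i.val + 1 = j.val ∧ j.val ≠ 2 * a) ∨ (j.val + 1 = i.val ∧ i.val ≠ 2 * a) ∨
    (i.val = 0 ∧ j.val + 1 = 2 * a) ∨ (j.val = 0 ∧ i.val + 1 = 2 * a) ∨
    (i.val = 0 ∧ j.val = 2 * a) ∨ (j.val = 0 ∧ i.val = 2 * a)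
  symm := ⟨by
    intro i j h
    omega⟩
  loopless := ⟨by
    intro i h
    omega⟩

/-- the distance on numbers -/
def g (a i j : ℕ) : ℕ :=
  if 2 * a ≤ i then
    (if 2 * a ≤ j then (i - j) + (j - i) else min j (2 * a - j) + (i + 1 - 2 * a))
  else
    (if 2 * a ≤ j then min i (2 * a - i) + (j + 1 - 2 * a)
      else min ((i - j) + (j - i)) (2 * a - ((i - j) + (j - i))))

lemma g_step {a k : ℕ} (ha : 2 ≤ a) (x y z : Fin (2 * a + k)) (h : (tg a k ha).Adj x y) :
    g a x z ≤ g a y z + 1 := by
  have hx := x.isLt
  have hy := y.isLt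
  have hz := z.isLt
  simp only [tg] at h
  simp only [g]
  split_ifs <;> omega

lemma g_le_length {a k : ℕ} (ha : 2 ≤ a) : ∀ {x y : Fin (2 * a + k)} (p : (tg a k ha).Walk x y),
    g a x y ≤ p.length := by
  intro x y p
  induction p with
  | nil =>
    simp only [g]
    split_ifs <;> simp
  | cons h p ih =>
    rename_i u v w
    have := g_step ha u v w h
    simp only [SimpleGraph.Walk.length_cons]
    omega

lemma exists_walk {a k : ℕ} (ha : 2 ≤ a) : ∀ m : ℕ, ∀ x y : Fin (2 * a + k), g a x y = m →
    ∃ p : (tg a k ha).Walk x y, p.length = m := by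
  intro m
  induction m with
  | zero =>
    intro x y h
    have hx := x.isLt
    have hy := y.isLt
    have : x = y := by
      apply Fin.ext
      simp only [g] at h
      split_ifs at h <;> omega
    subst this
    exact ⟨SimpleGraph.Walk.nil, rfl⟩
  | succ m ih =>
    intro x y h
    have hx := x.isLt
    have hy := y.isLt
    have key : ∃ x' : Fin (2 * a + k), (tg a k ha).Adj x x' ∧ g a x' y = m := by
      have mk : ∀ t : ℕ, ∀ ht : t < 2 * a + k,
          ((x.val + 1 = t ∧ t ≠ 2 * a) ∨ (t + 1 = x.val ∧ x.val ≠ 2 * a) ∨
            (x.val = 0 ∧ t + 1 = 2 * a) ∨ (t = 0 ∧ x.val + 1 = 2 * a) ∨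
            (x.val = 0 ∧ t = 2 * a) ∨ (t = 0 ∧ x.val = 2 * a)) → g a t y = m →
          ∃ x' : Fin (2 * a + k), (tg a k ha).Adj x x' ∧ g a x' y = m :=
        fun t ht h1 h2 => ⟨⟨t, ht⟩, h1, h2⟩
      by_cases hxa : 2 * a ≤ x.val
      · by_cases hya : 2 * a ≤ y.val
        · -- both on the path
          simp only [g, if_pos hxa, if_pos hya] at h
          by_cases hxy : x.val < y.val
          · refine mk (x.val + 1) (by omega) (by omega) ?_
            simp only [g]
            split_ifs <;> omega
          · refine mk (x.val - 1) (by omega) (by omega) ?_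
            simp only [g]
            split_ifs <;> omega
        · -- go down to the cycle
          simp only [g, if_pos hxa, if_neg hya] at h
          by_cases hx0 : x.val = 2 * a
          · refine mk 0 (by omega) (by omega) ?_
            simp only [g]
            split_ifs <;> omega
          · refine mk (x.val - 1) (by omega) (by omega) ?_
            simp only [g]
            split_ifs <;> omega
      · by_cases hya : 2 * a ≤ y.val
        · simp only [g, if_neg hxa, if_pos hya] at h
          by_cases hx0 : x.val = 0
          · refine mk (2 * a) (by omega) (by omega) ?_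
            simp only [g]
            split_ifs <;> omega
          · by_cases hx1 : x.val ≤ a
            · refine mk (x.val - 1) (by omega) (by omega) ?_
              simp only [g]
              split_ifs <;> omega
            · by_cases hx2 : x.val + 1 = 2 * a
              · refine mk 0 (by omega) (by omega) ?_
                simp only [g]
                split_ifs <;> omega
              · refine mk (x.val + 1) (by omega) (by omega) ?_
                simp only [g]
                split_ifs <;> omega
        · simp only [g, if_neg hxa, if_neg hya] at h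
          by_cases h1 : x.val < y.val
          · by_cases h2 : y.val - x.val ≤ a
            · refine mk (x.val + 1) (by omega) (by omega) ?_
              simp only [g]
              split_ifs <;> omega
            · by_cases h3 : x.val = 0
              · refine mk (2 * a - 1) (by omega) (by omega) ?_
                simp only [g]
                split_ifs <;> omega
              · refine mk (x.val - 1) (by omega) (by omega) ?_
                simp only [g]
                split_ifs <;> omega
          · by_cases h2 : x.val - y.val ≤ a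
            · refine mk (x.val - 1) (by omega) (by omega) ?_
              simp only [g]
              split_ifs <;> omega
            · by_cases h3 : x.val + 1 = 2 * a
              · refine mk 0 (by omega) (by omega) ?_
                simp only [g]
                split_ifs <;> omega
              · refine mk (x.val + 1) (by omega) (by omega) ?_
                simp only [g]
                split_ifs <;> omega
    obtain ⟨x', hadj, hf⟩ := key
    obtain ⟨p, hp⟩ := ih x' y hf
    exact ⟨SimpleGraph.Walk.cons hadj p, by simp [hp]⟩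

lemma dist_eq {a k : ℕ} (ha : 2 ≤ a) (x y : Fin (2 * a + k)) :
    (tg a k ha).dist x y = g a x y := by
  obtain ⟨p, hp⟩ := exists_walk ha (g a x y) x y rfl
  apply le_antisymm
  · rw [← hp]
    exact SimpleGraph.dist_le p
  · have hr : (tg a k ha).Reachable x y := ⟨p⟩
    obtain ⟨q, hq⟩ := hr.exists_walk_length_eq_dist
    rw [← hq]
    exact g_le_length ha q

lemma conn {a k : ℕ} (ha : 2 ≤ a) : (tg a k ha).Connected := by
  have : Nonempty (Fin (2 * a + k)) := ⟨⟨0, by omega⟩⟩
  refine ⟨fun x y => ?_⟩
  obtain ⟨p, _⟩ := exists_walk ha (g a x y) x y rfl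
  exact ⟨p⟩

lemma sum_abs (k : ℕ) : 3 * ∑ t : Fin k, ∑ u : Fin k, ((t.val - u.val) + (u.val - t.val)) + k
    = k ^ 3 := by
  induction k with
  | zero => simp
  | succ k ih =>
    rw [Fin.sum_univ_castSucc]
    simp_rw [Fin.sum_univ_castSucc]
    simp only [Fin.val_castSucc, Fin.val_last, Nat.sub_self, Nat.add_zero]
    rw [sum_add_distrib]
    have h1 : ∑ t : Fin k, ((t.val - k) + (k - t.val)) = ∑ t ∈ range k, (k - t) := by
      rw [sum_range]
      refine sum_congr rfl fun t _ => ?_
      have := t.isLt
      omega
    have h2 : ∑ t : Fin k, ((k - t.val) + (t.val - k)) = ∑ t ∈ range k, (k - t) := by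
      rw [sum_range]
      refine sum_congr rfl fun t _ => ?_
      have := t.isLt
      omega
    have h3 : ∀ m : ℕ, 2 * ∑ t ∈ range m, (m - t) = m * (m + 1) := by
      intro m
      induction m with
      | zero => simp
      | succ m ihm =>
        rw [sum_range_succ']
        have : ∑ t ∈ range m, (m + 1 - (t + 1)) = ∑ t ∈ range m, (m - t) :=
          sum_congr rfl fun t _ => by omega
        rw [this, mul_add, ihm]
        simp only [Nat.sub_zero]
        ring
    rw [h1, h2]
    have h4 := h3 k
    nlinarith

theorem tadS : TadS := by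
  intro a k ha
  have : Nonempty (Fin (2 * a + k)) := ⟨⟨0, by omega⟩⟩
  refine ⟨tg a k ha, conn ha, ?_, ?_⟩
  · apply le_antisymm
    · obtain ⟨u, v, huv⟩ := (tg a k ha).exists_dist_eq_diam
      rw [← huv, dist_eq]
      have hu := u.isLt
      have hv := v.isLt
      simp only [g]
      split_ifs <;> omega
    · rcases Nat.eq_zero_or_pos k with hk | hk
      · subst hk
        have h1 : (tg a 0 ha).dist ⟨0, by omega⟩ ⟨a, by omega⟩ ≤ (tg a 0 ha).diam := by
          apply SimpleGraph.dist_le_diam
          exact (SimpleGraph.connected_iff_ediam_ne_top.mp (conn ha))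
        rw [dist_eq] at h1
        simp only [g] at h1
        split_ifs at h1 <;> omega
      · have h1 : (tg a k ha).dist ⟨a, by omega⟩ ⟨2 * a + k - 1, by omega⟩ ≤ (tg a k ha).diam := by
          apply SimpleGraph.dist_le_diam
          exact (SimpleGraph.connected_iff_ediam_ne_top.mp (conn ha))
        rw [dist_eq] at h1
        simp only [g] at h1
        split_ifs at h1 <;> omega
  · simp only [dist_eq]
    rw [Fin.sum_univ_add]
    simp_rw [Fin.sum_univ_add]
    rw [sum_add_distrib, sum_add_distrib]
    have hmin : ∑ i : Fin (2 * a), min i.val (2 * a - i.val) = a ^ 2 := by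
      have h1 := Cyc.sum_min (2 * a)
      rw [sum_range] at h1
      rw [h1, show (2 * a) ^ 2 = 4 * a ^ 2 by ring]
      omega
    have hlin : ∀ m : ℕ, 2 * ∑ t : Fin m, (t.val + 1) = m * (m + 1) := by
      intro m
      induction m with
      | zero => simp
      | succ m ihm =>
        rw [Fin.sum_univ_castSucc]
        simp only [Fin.val_castSucc, Fin.val_last]
        rw [mul_add, ihm]
        ring
    have e1 : ∑ i : Fin (2 * a), ∑ j : Fin (2 * a), g a (Fin.castAdd k i).val (Fin.castAdd k j).val
        = 2 * a * a ^ 2 := by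
      have h1 : ∀ i : Fin (2 * a), ∑ j : Fin (2 * a), g a (Fin.castAdd k i).val
          (Fin.castAdd k j).val = a ^ 2 := by
        intro i
        have h2 := Cyc.sum_f (n := 2 * a) (by omega) i
        rw [show (2 * a) ^ 2 / 4 = a ^ 2 by
          rw [show (2 * a) ^ 2 = 4 * a ^ 2 by ring]
          omega] at h2
        rw [← h2]
        refine sum_congr rfl fun j _ => ?_
        have hi := i.isLt
        have hj := j.isLt
        simp only [g, Fin.val_castAdd, Cyc.f]
        rw [if_neg (by omega), if_neg (by omega)]
      rw [sum_congr rfl fun i _ => h1 i]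
      simp
    have e2 : ∑ i : Fin (2 * a), ∑ j : Fin k, g a (Fin.castAdd k i).val (Fin.natAdd (2 * a) j).val
        = k * a ^ 2 + 2 * a * ∑ j : Fin k, (j.val + 1) := by
      have h1 : ∀ i : Fin (2 * a), ∑ j : Fin k, g a (Fin.castAdd k i).val
          (Fin.natAdd (2 * a) j).val = k * min i.val (2 * a - i.val) + ∑ j : Fin k, (j.val + 1) := by
        intro i
        have h2 : ∀ j : Fin k, g a (Fin.castAdd k i).val (Fin.natAdd (2 * a) j).val
            = min i.val (2 * a - i.val) + (j.val + 1) := by
          intro j
          have hi := i.isLt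
          simp only [g, Fin.val_castAdd, Fin.val_natAdd]
          rw [if_neg (by omega), if_pos (by omega)]
          omega
        rw [sum_congr rfl fun j _ => h2 j, sum_add_distrib]
        simp
      rw [sum_congr rfl fun i _ => h1 i, sum_add_distrib, ← mul_sum, hmin]
      simp
    have e3 : ∑ i : Fin k, ∑ j : Fin (2 * a), g a (Fin.natAdd (2 * a) i).val (Fin.castAdd k j).val
        = k * a ^ 2 + 2 * a * ∑ j : Fin k, (j.val + 1) := by
      rw [sum_comm, ← e2]
      refine sum_congr rfl fun j _ => sum_congr rfl fun i _ => ?_
      have hj := j.isLt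
      simp only [g, Fin.val_castAdd, Fin.val_natAdd]
      rw [if_pos (by omega), if_neg (by omega), if_neg (by omega), if_pos (by omega)]
    have e4 : ∑ i : Fin k, ∑ j : Fin k, g a (Fin.natAdd (2 * a) i).val (Fin.natAdd (2 * a) j).val
        = ∑ i : Fin k, ∑ j : Fin k, ((i.val - j.val) + (j.val - i.val)) := by
      refine sum_congr rfl fun i _ => sum_congr rfl fun j _ => ?_
      simp only [g, Fin.val_natAdd]
      rw [if_pos (by omega), if_pos (by omega)]
      omega
    rw [e1, e2, e3, e4]
    have h5 := sum_abs k
    have h6 := hlin k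
    obtain ⟨X, hX⟩ : ∃ X, X = ∑ i : Fin k, ∑ j : Fin k, ((i.val - j.val) + (j.val - i.val)) :=
      ⟨_, rfl⟩
    obtain ⟨Y, hY⟩ : ∃ Y, Y = ∑ j : Fin k, (j.val + 1) := ⟨_, rfl⟩
    rw [← hX] at h5 ⊢
    rw [← hY] at h6 ⊢
    have h7 : 2 * a * (2 * Y) = 2 * a * (k * (k + 1)) := by rw [h6]
    nlinarith

end Pool.Agent.Lib.MP_b0a977_co.DW.TadH
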