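import Pool.Agent.Lib.MP_b0a977_co.DW.Combine
import Pool.Agent.Lib.MP_b0a977_co.DW.Iface2

/-!
# TAIL: the bound by the cycle with one tail (helper42, from helper73's COMBINE)
-/

namespace Pool.Agent.Lib.MP_b0a977_co.DW

open Finset Comb

theorem tail (hT : Tree2S) : TailS := by
  intro V _ _ G d B π hn hB N0 hN0 hN5
  set n := Fintype.card V with hnn
  set s := B.card with hs
  set H : V → Finset V := fun b => univ.filter fun x => π x = b with hH
  set k : V → ℝ := fun b => ((H b).card : ℝ) with hk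
  set ν : V → ℝ := fun b => ((A π b).card : ℝ) with hν
  set δ : V → ℝ := fun b => ∑ x ∈ A π b, (G.dist x b : ℝ) with hδ
  set E : V → ℝ := fun b => ∑ x ∈ H b, ∑ y ∈ H b, (G.dist x y : ℝ) with hE
  have hbA : ∀ b, b ∉ A π b := fun b h => (mem_A.1 h).2 rfl
  have hHe : ∀ b ∈ B, H b = insert b (A π b) := fun b hb => H_eq hB hb
  have hkν : ∀ b ∈ B, k b = 1 + ν b := by
    intro b hb
    show ((H b).card : ℝ) = 1 + ((A π b).card : ℝ)
    rw [hHe b hb, card_insert_of_notMem (hbA b)]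
    push_cast
    ring
  have hδH : ∀ b ∈ B, ∑ x ∈ H b, (G.dist x b : ℝ) = δ b := by
    intro b hb
    rw [hHe b hb, sum_insert (hbA b), SimpleGraph.dist_self, Nat.cast_zero, zero_add]
  -- the total counts
  have hksum : ∑ b ∈ B, k b = n := by
    have h1 : (univ : Finset V).card = ∑ b ∈ B, (H b).card :=
      card_eq_sum_card_fiberwise (fun x _ => hB.mem x)
    have h2 : (n : ℝ) = ((univ : Finset V).card : ℝ) := rfl
    rw [h2, h1]
    push_cast
    rfl
  have hνn : ∑ b ∈ B, (A π b).card + s = n := by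
    have h1 : (univ : Finset V).card = ∑ b ∈ B, (H b).card :=
      card_eq_sum_card_fiberwise (fun x _ => hB.mem x)
    have h2 : ∑ b ∈ B, (H b).card = ∑ b ∈ B, ((A π b).card + 1) := by
      refine sum_congr rfl fun b hb => ?_
      rw [hHe b hb, card_insert_of_notMem (hbA b)]
    rw [h2, sum_add_distrib] at h1
    simp only [sum_const, smul_eq_mul, mul_one] at h1
    exact h1.symm
  set N := ∑ b ∈ B, (A π b).card with hN
  have hNr : ∑ b ∈ B, ν b = N := by
    rw [hN]
    push_cast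
    rfl
  -- the tree bound on a block
  have htree : ∀ b ∈ B, E b + 2 * ((n : ℝ) - k b) * δ b
      ≤ (n : ℝ) * ν b * (ν b + 1) - ν b * (ν b + 1) * (2 * ν b + 1) / 3 := by
    intro b hb
    have h0 : 2 * (A π b).card ≤ n := by
      have h1 := hB.half b hb
      have h2 : (univ.filter fun x => π x = b) = insert b (A π b) := H_eq hB hb
      rw [h2, card_insert_of_notMem (hbA b)] at h1
      omega
    have h1 := hT V G b (A π b) (hbA b) (by
      intro x hx
      have hx' := mem_A.1 hx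
      obtain ⟨y, h1, h2, h3⟩ := hB.down x (by rw [hx'.1]; exact hx'.2)
      rw [hx'.1] at h2 h3
      refine ⟨y, h1, h2, ?_⟩
      by_cases h4 : y = b
      · exact Or.inl h4
      · exact Or.inr (mem_A.2 ⟨h3, h4⟩)) h0
    have h2 : E b = (∑ x ∈ A π b, ∑ y ∈ A π b, (G.dist x y : ℝ)) + 2 * δ b := by
      show ∑ x ∈ H b, ∑ y ∈ H b, (G.dist x y : ℝ) = _
      rw [hHe b hb, sum_insert (hbA b)]
      simp_rw [sum_insert (hbA b)]
      rw [SimpleGraph.dist_self, Nat.cast_zero, zero_add, sum_add_distrib]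
      have h3 : ∑ y ∈ A π b, (G.dist b y : ℝ) = δ b :=
        sum_congr rfl fun y _ => by rw [SimpleGraph.dist_comm]
      rw [h3]
      show δ b + (δ b + _) = _
      ring
    rw [h2, hkν b hb]
    have h3 : (∑ x ∈ A π b, (G.dist x b : ℝ)) = δ b := rfl
    rw [h3] at h1
    have h4 : ν b = ((A π b).card : ℝ) := rfl
    rw [h4]
    linarith
  -- the decomposition
  have hD : ∑ x, ∑ y, (G.dist x y : ℝ) = ∑ b ∈ B, (E b + 2 * ((n : ℝ) - k b) * δ b)
      + ∑ b ∈ B, ∑ c ∈ B, k b * k c * G.dist b c := by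
    have h1 : ∑ x, ∑ y, (G.dist x y : ℝ)
        = ∑ b ∈ B, ∑ c ∈ B, ∑ x ∈ H b, ∑ y ∈ H c, (G.dist x y : ℝ) := by
      have hf : ∀ F : V → ℝ, ∑ x, F x = ∑ b ∈ B, ∑ x ∈ H b, F x := fun F =>
        (sum_fiberwise_of_maps_to (s := univ) (t := B) (g := π) (fun x _ => hB.mem x) F).symm
      rw [hf]
      refine sum_congr rfl fun b _ => ?_
      exact (sum_congr rfl fun x _ => hf _).trans sum_comm
    have h2 : ∀ b ∈ B, ∀ c ∈ B, ∑ x ∈ H b, ∑ y ∈ H c, (G.dist x y : ℝ)
        = (k c * δ b + k b * k c * G.dist b c + k b * δ c)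
          + (if b = c then E b - 2 * k b * δ b else 0) := by
      intro b hb c hc
      by_cases hbc : b = c
      · subst hbc
        rw [if_pos rfl, SimpleGraph.dist_self]
        show E b = _
        push_cast
        ring
      · rw [if_neg hbc, add_zero]
        have h3 : ∀ x ∈ H b, ∀ y ∈ H c, (G.dist x y : ℝ)
            = (G.dist x b : ℝ) + G.dist b c + G.dist y c := by
          intro x hx y hy
          have hx' : π x = b := (mem_filter.1 hx).2
          have hy' : π y = c := (mem_filter.1 hy).2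
          have h4 := hB.dist x y (by rw [hx', hy']; exact hbc)
          rw [hx', hy'] at h4
          rw [h4, SimpleGraph.dist_comm (u := y)]
          push_cast
          ring
        rw [sum_congr rfl fun x hx => sum_congr rfl fun y hy => h3 x hx y hy]
        simp_rw [sum_add_distrib, sum_const, nsmul_eq_mul]
        rw [← mul_sum, hδH b hb, hδH c hc]
        show k c * δ b + k b * (k c * _) + k b * δ c = _
        ring
    rw [h1, sum_congr rfl fun b hb => sum_congr rfl fun c hc => h2 b hb c hc]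
    simp_rw [sum_add_distrib]
    have h3 : ∑ b ∈ B, ∑ c ∈ B, k c * δ b = ∑ b ∈ B, n * δ b := by
      refine sum_congr rfl fun b _ => ?_
      rw [← sum_mul, hksum]
    have h4 : ∑ b ∈ B, ∑ c ∈ B, k b * δ c = ∑ b ∈ B, n * δ b := by
      rw [sum_comm]
      refine sum_congr rfl fun b _ => ?_
      rw [← sum_mul, hksum]
    have h5 : ∑ b ∈ B, ∑ c ∈ B, (if b = c then E b - 2 * k b * δ b else 0)
        = ∑ b ∈ B, (E b - 2 * k b * δ b) := by
      refine sum_congr rfl fun b hb => ?_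
      rw [sum_ite_eq, if_pos hb]
    rw [h3, h4, h5]
    have h6 : ∑ b ∈ B, 2 * ((n : ℝ) - k b) * δ b
        = ∑ b ∈ B, n * δ b + ∑ b ∈ B, n * δ b - ∑ b ∈ B, 2 * k b * δ b := by
      rw [← sum_add_distrib, ← sum_sub_distrib]
      exact sum_congr rfl fun b _ => by ring
    rw [h6, sum_sub_distrib]
    ring
  -- the sums over the centres
  set q : ℝ := ((s ^ 2 / 4 : ℕ) : ℝ) with hq
  have hrow : ∀ b ∈ B, ∑ c ∈ B, (G.dist b c : ℝ) ≤ q := by
    intro b hb
    have := sum_dist_le hB hb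
    rw [hq]
    exact_mod_cast this
  have hν0 : ∀ b, 0 ≤ ν b := fun b => Nat.cast_nonneg _
  have hpair : ∑ b ∈ B, ∑ c ∈ B, k b * k c * G.dist b c ≤ s * q + 2 * N * q
      + ∑ b ∈ B, ∑ c ∈ B, ν b * ν c * G.dist b c := by
    have h1 : ∑ b ∈ B, ∑ c ∈ B, k b * k c * G.dist b c
        = ∑ b ∈ B, ∑ c ∈ B, (G.dist b c : ℝ) + ∑ b ∈ B, ∑ c ∈ B, ν b * G.dist b c
          + ∑ b ∈ B, ∑ c ∈ B, ν c * G.dist b c + ∑ b ∈ B, ∑ c ∈ B, ν b * ν c * G.dist b c := by
      simp_rw [← sum_add_distrib]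
      refine sum_congr rfl fun b hb => sum_congr rfl fun c hc => ?_
      rw [hkν b hb, hkν c hc]
      ring
    have h2 : ∑ b ∈ B, ∑ c ∈ B, (G.dist b c : ℝ) ≤ s * q := by
      have := sum_le_card_nsmul B _ q hrow
      rwa [nsmul_eq_mul] at this
    have h3 : ∑ b ∈ B, ∑ c ∈ B, ν b * G.dist b c ≤ N * q := by
      rw [← hNr, sum_mul]
      refine sum_le_sum fun b hb => ?_
      rw [← mul_sum]
      exact mul_le_mul_of_nonneg_left (hrow b hb) (hν0 b)
    have h4 : ∑ b ∈ B, ∑ c ∈ B, ν c * G.dist b c ≤ N * q := by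
      rw [sum_comm]
      refine le_trans (le_of_eq ?_) h3
      refine sum_congr rfl fun b _ => sum_congr rfl fun c _ => ?_
      rw [SimpleGraph.dist_comm]
    linarith
  -- the sizes
  have hsn : s + N = n := by omega
  have hNN : N = N0 := by omega
  have hdc : ∀ b ∈ B, ∀ c ∈ B, (G.dist b c : ℝ) ≤ (s : ℝ) / 2 := by
    intro b hb c hc
    have h1 := dist_le_half hB hb hc
    have h2 : 2 * G.dist b c ≤ s := by omega
    have h3 : 2 * (G.dist b c : ℝ) ≤ s := by exact_mod_cast h2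
    linarith
  have hQ : ∑ b ∈ B, ∑ c ∈ B, ν b * ν c * G.dist b c
      ≤ ∑ b ∈ B, (s : ℝ) / 2 * (ν b * ((N : ℝ) - ν b)) := by
    have h1 : ∀ b ∈ B, ∀ c ∈ B, ν b * ν c * G.dist b c
        ≤ (s : ℝ) / 2 * (ν b * ν c) - (if b = c then (s : ℝ) / 2 * (ν b * ν b) else 0) := by
      intro b hb c hc
      by_cases hbc : b = c
      · subst hbc
        rw [if_pos rfl, SimpleGraph.dist_self]
        push_cast
        linarith
      · rw [if_neg hbc, sub_zero]
        have := mul_le_mul_of_nonneg_left (hdc b hb c hc) (mul_nonneg (hν0 b) (hν0 c))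
        linarith
    refine (sum_le_sum fun b hb => sum_le_sum fun c hc => h1 b hb c hc).trans (le_of_eq ?_)
    refine sum_congr rfl fun b hb => ?_
    rw [sum_sub_distrib, sum_ite_eq, if_pos hb, ← mul_sum, ← mul_sum, hNr]
    ring
  have hνN : ∀ b ∈ B, ν b ≤ N := by
    intro b hb
    have h4 : (A π b).card ≤ N := single_le_sum (f := fun b => (A π b).card)
      (fun _ _ => Nat.zero_le _) hb
    show ((A π b).card : ℝ) ≤ N
    exact_mod_cast h4
  have hsr : (s : ℝ) + N = n := by exact_mod_cast hsn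
  have h5r : 5 * (N : ℝ) + 6 ≤ 3 * n := by
    rw [hNN]
    exact_mod_cast hN5
  have hsup : ∑ b ∈ B, ((n : ℝ) * ν b * (ν b + 1) - ν b * (ν b + 1) * (2 * ν b + 1) / 3)
      + ∑ b ∈ B, (s : ℝ) / 2 * (ν b * ((N : ℝ) - ν b))
      ≤ (n : ℝ) * N * (N + 1) - N * (N + 1) * (2 * N + 1) / 3 := by
    have h1 : (n : ℝ) * N * (N + 1) - N * (N + 1) * (2 * N + 1) / 3
        = ∑ b ∈ B, ν b * ((n : ℝ) * (N + 1) - (N + 1) * (2 * N + 1) / 3) := by
      rw [← sum_mul, hNr]
      ring
    rw [h1, ← sum_add_distrib]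
    refine sum_le_sum fun b hb => ?_
    have h2 := hνN b hb
    have h3 : 0 ≤ ν b * ((N : ℝ) - ν b) := mul_nonneg (hν0 b) (sub_nonneg.2 h2)
    have h4 : 0 ≤ (n : ℝ) - 1 - 2 / 3 * (N + ν b) - s / 2 := by
      have : (s : ℝ) = n - N := by linarith
      rw [this]
      linarith
    have h5 := mul_nonneg h3 h4
    have h6 : ν b * ((n : ℝ) * (N + 1) - (N + 1) * (2 * N + 1) / 3)
        - (((n : ℝ) * ν b * (ν b + 1) - ν b * (ν b + 1) * (2 * ν b + 1) / 3)
          + (s : ℝ) / 2 * (ν b * ((N : ℝ) - ν b)))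
        = ν b * ((N : ℝ) - ν b) * ((n : ℝ) - 1 - 2 / 3 * (N + ν b) - s / 2) := by ring
    linarith
  have hmain : ∑ x, ∑ y, (G.dist x y : ℝ) ≤ ((s : ℝ) + 2 * N) * q
      + ((n : ℝ) * N * (N + 1) - N * (N + 1) * (2 * N + 1) / 3) := by
    rw [hD]
    have h1 := sum_le_sum htree
    linarith
  rw [← hNN]
  linarith

end Pool.Agent.Lib.MP_b0a977_co.DW
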