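import Pool.Agent.Lib.MP_b0a977_co.DW.Tree
import Pool.Agent.Lib.MP_b0a977_co.DW.Iface2

/-!
# Second part, the path is the worst tree of given size
-/

namespace Pool.Agent.Lib.MP_b0a977_co.DW

open Finset TreeB

lemma sum_anc (e : ℕ) : ∑ j ∈ Icc 1 (e - 1), ((e : ℝ) - j - j) = 0 := by
  induction e with
  | zero => simp
  | succ e ih =>
    rcases Nat.eq_zero_or_pos e with h | h
    · subst h; simp
    · have h1 : e + 1 - 1 = (e - 1) + 1 := by omega
      rw [h1, sum_Icc_succ_top (by omega)]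
      have h2 : ∑ j ∈ Icc 1 (e - 1), (((e + 1 : ℕ) : ℝ) - j - j)
          = ∑ j ∈ Icc 1 (e - 1), ((e : ℝ) - j - j) + ∑ j ∈ Icc 1 (e - 1), (1 : ℝ) := by
        rw [← sum_add_distrib]
        refine sum_congr rfl fun j _ => ?_
        push_cast
        ring
      rw [h2, ih, sum_const, Nat.card_Icc, nsmul_eq_mul]
      have h3 : e - 1 + 1 = e := by omega
      rw [h3, Nat.cast_sub h]
      push_cast
      ring

lemma last_step {V : Type} [DecidableEq V] {G : SimpleGraph V} {v : V} {A : Finset V}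
    {par : V → V} (hp : IsPar G v A par) {x : V} (hx : x ∈ A) :
    G.dist x v ≤ A.card ∧
    ∑ y ∈ A.erase x, ((G.dist x y : ℝ) - G.dist y v) ≤ ((A.card : ℝ) - G.dist x v) * G.dist x v := by
  obtain ⟨e, he⟩ : ∃ e, e = G.dist x v := ⟨_, rfl⟩
  have he1 : 1 ≤ e := by
    have := (hp x hx).2.1
    omega
  have hanc : ∀ j ∈ Icc 1 (e - 1), G.dist (anc G v par j x) v = j ∧ anc G v par j x ∈ A.erase x ∧
      G.dist x (anc G v par j x) + j ≤ e := by
    intro j hj
    rw [mem_Icc] at hj
    obtain ⟨h1, h2, p, hpl⟩ := anc_spec hp hx (j := j) (by omega)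
    have h3 : anc G v par j x ∈ A := by
      rcases h2 with h2 | h2
      · rw [h2, SimpleGraph.dist_self] at h1
        omega
      · exact h2
    refine ⟨h1, mem_erase.2 ⟨?_, h3⟩, ?_⟩
    · intro h4
      rw [h4] at h1
      omega
    · have := SimpleGraph.dist_le p
      omega
  set P := (Icc 1 (e - 1)).image (fun j => anc G v par j x) with hP
  have hinj : Set.InjOn (fun j => anc G v par j x) (Icc 1 (e - 1) : Finset ℕ) := by
    intro i hi j hj hij
    have h1 := (hanc i hi).1
    have h2 := (hanc j hj).1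
    simp only at hij
    rw [hij] at h1
    omega
  have hPc : P.card = e - 1 := by
    rw [hP, card_image_of_injOn hinj, Nat.card_Icc]
    omega
  have hPA : P ⊆ A.erase x := by
    intro y hy
    rw [hP, mem_image] at hy
    obtain ⟨j, hj, rfl⟩ := hy
    exact (hanc j hj).2.1
  have hle : e - 1 ≤ A.card - 1 := by
    have := card_le_card hPA
    rw [hPc, card_erase_of_mem hx] at this
    exact this
  have hA1 : 1 ≤ A.card := card_pos.2 ⟨x, hx⟩
  rw [← he]
  refine ⟨by omega, ?_⟩
  rw [← sum_sdiff hPA]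
  have h1 : ∑ y ∈ P, ((G.dist x y : ℝ) - G.dist y v) ≤ 0 := by
    rw [hP, sum_image hinj, ← sum_anc e]
    refine sum_le_sum fun j hj => ?_
    obtain ⟨h2, -, h3⟩ := hanc j hj
    rw [h2]
    have h4 : (G.dist x (anc G v par j x) : ℝ) + j ≤ e := by exact_mod_cast h3
    linarith
  have h2 : ∑ y ∈ A.erase x \ P, ((G.dist x y : ℝ) - G.dist y v)
      ≤ ((A.card : ℝ) - e) * e := by
    have h3 : ∀ y ∈ A.erase x \ P, ((G.dist x y : ℝ) - G.dist y v) ≤ e := by
      intro y hy
      rw [mem_sdiff, mem_erase] at hy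
      have h4 := dist_le_of_anc hp hx hy.1.2 (Nat.zero_le _) (Nat.zero_le _)
        (by rw [anc_zero hp hx, anc_zero hp hy.1.2])
      have h5 : (G.dist x y : ℝ) ≤ e + G.dist y v := by
        rw [he]
        exact_mod_cast (by omega : G.dist x y ≤ G.dist x v + G.dist y v)
      linarith
    have h4 := sum_le_card_nsmul _ _ _ h3
    rw [nsmul_eq_mul, card_sdiff_of_subset hPA, hPc, card_erase_of_mem hx] at h4
    refine h4.trans (le_of_eq ?_)
    rw [show A.card - 1 - (e - 1) = A.card - e by omega, Nat.cast_sub (by omega)]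
  linarith

theorem tree2 : Tree2S := by
  intro V _ _ G v A hv hA hcard
  classical
  obtain ⟨m, hm⟩ : ∃ m, A.card = m := ⟨_, rfl⟩
  induction m generalizing A with
  | zero =>
    rw [card_eq_zero] at hm
    subst hm
    simp
  | succ m ih =>
    have hne : A.Nonempty := card_pos.1 (by omega)
    obtain ⟨x, hx, hmax⟩ := exists_max_image A (fun y => G.dist y v) hne
    have hA' : ∀ z ∈ A.erase x, ∃ y, G.Adj z y ∧ G.dist y v + 1 = G.dist z v ∧
        (y = v ∨ y ∈ A.erase x) := by
      intro z hz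
      rw [mem_erase] at hz
      obtain ⟨y, h1, h2, h3⟩ := hA z hz.2
      refine ⟨y, h1, h2, h3.imp id fun h4 => mem_erase.2 ⟨?_, h4⟩⟩
      rintro rfl
      have := hmax z hz.2
      omega
    have hc' : (A.erase x).card = m := by rw [card_erase_of_mem hx]; omega
    have h1 := ih (A.erase x) (fun h => hv (mem_of_mem_erase h)) hA' (by omega) hc'
    obtain ⟨par, hp⟩ : ∃ par : V → V, IsPar G v A par := by
      choose! f hf using hA
      exact ⟨f, hf⟩
    obtain ⟨h2, h3⟩ := last_step hp hx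
    set n := Fintype.card V with hn
    obtain ⟨e, he⟩ : ∃ e, e = G.dist x v := ⟨_, rfl⟩
    rw [← he] at h2 h3
    -- split off `x`
    have h4 : ∑ z ∈ A, ∑ y ∈ A, (G.dist z y : ℝ) = ∑ z ∈ A.erase x, ∑ y ∈ A.erase x, (G.dist z y : ℝ)
        + 2 * ∑ y ∈ A.erase x, (G.dist x y : ℝ) := by
      rw [← add_sum_erase A _ hx]
      have h5 : ∀ z, ∑ y ∈ A, (G.dist z y : ℝ) = G.dist z x + ∑ y ∈ A.erase x, (G.dist z y : ℝ) :=
        fun z => (add_sum_erase A _ hx).symm
      rw [h5 x, SimpleGraph.dist_self, sum_congr rfl fun z _ => h5 z, sum_add_distrib]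
      have h6 : ∑ z ∈ A.erase x, (G.dist z x : ℝ) = ∑ y ∈ A.erase x, (G.dist x y : ℝ) :=
        sum_congr rfl fun z _ => by rw [SimpleGraph.dist_comm]
      rw [h6]
      push_cast
      ring
    have h5 : ∑ z ∈ A, (G.dist z v : ℝ) = e + ∑ z ∈ A.erase x, (G.dist z v : ℝ) := by
      rw [← add_sum_erase A _ hx, he]
    rw [h4, h5, hm]
    rw [hc'] at h1
    rw [hm, sum_sub_distrib] at h3
    have hmn : 2 * ((m : ℝ) + 1) ≤ n := by
      have : 2 * (m + 1) ≤ n := by rw [← hm]; exact hcard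
      exact_mod_cast this
    have hem : (e : ℝ) ≤ m + 1 := by
      have : e ≤ m + 1 := by rw [← hm]; exact h2
      exact_mod_cast this
    have h6 : (e : ℝ) * (n - e) ≤ (m + 1) * (n - (m + 1)) := by nlinarith
    push_cast at h1 h3 ⊢
    nlinarith

end Pool.Agent.Lib.MP_b0a977_co.DW
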