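import Pool.Agent.Lib.MP_b0a977_co.DW.Iface

/-!
# The upper bound from its parts
-/

namespace Pool.Agent.Lib.MP_b0a977_co.DW

open Finset

lemma even_sum {V : Type} [Fintype V] [DecidableEq V] (G : SimpleGraph V) :
    Even (∑ x, ∑ y, G.dist x y) := by
  have h1 : ∑ x, ∑ y, G.dist x y = ∑ p ∈ (univ : Finset (V × V)), G.dist p.1 p.2 := by
    rw [← univ_product_univ, sum_product]
  rw [h1]
  have h2 : ∑ p ∈ (univ : Finset (V × V)), ((G.dist p.1 p.2 : ℕ) : ZMod 2) = 0 := by
    apply sum_involution (fun p _ => (p.2, p.1))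
    · intro p _
      have : G.dist p.2 p.1 = G.dist p.1 p.2 := SimpleGraph.dist_comm
      simp only [this]
      exact CharTwo.add_self_eq_zero _
    · rintro ⟨x, y⟩ _ h3 h4
      rw [Prod.mk.injEq] at h4
      have h5 : x = y := h4.2
      subst h5
      exact h3 (by simp)
    · intro p _; simp
    · intro p _; simp
  have h3 : ((∑ p ∈ (univ : Finset (V × V)), G.dist p.1 p.2 : ℕ) : ZMod 2) = 0 := by
    push_cast
    exact h2
  exact (ZMod.natCast_eq_zero_iff_even).1 h3

lemma even_target (n : ℕ) : Even (n * (n ^ 2 / 4)) := by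
  rcases Nat.even_or_odd n with h | h
  · exact h.mul_right _
  · obtain ⟨k, rfl⟩ := h
    have : (2 * k + 1) ^ 2 / 4 = k * (k + 1) := by
      rw [show (2 * k + 1) ^ 2 = 4 * (k * (k + 1)) + 1 by ring]
      omega
    rw [this]
    exact (Nat.even_mul_succ_self k).mul_left _

theorem upper (hG : GoodS) (hB : BlocksS) (hC : CombineS) : UpperS := by
  intro V _ _ G d hn hc hd hI hII
  have h1 : ∑ x, ∑ y, (G.dist x y : ℝ)
      < (Fintype.card V : ℝ) * (Fintype.card V ^ 2 / 4 : ℕ) + 2 := by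
    by_cases hg : ∃ v, Good G v
    · obtain ⟨h, hh, hle⟩ := hG V G d hc hd hg
      exact hle.trans_lt (hI h hh)
    · obtain ⟨B, π, hb⟩ := hB V G d hn hc hd hg
      exact hC V G d B π hn hd hb _ (by linarith) hII
  have h2 : ∑ x, ∑ y, G.dist x y < Fintype.card V * (Fintype.card V ^ 2 / 4) + 2 := by
    have h3 : ((∑ x, ∑ y, G.dist x y : ℕ) : ℝ)
        < ((Fintype.card V * (Fintype.card V ^ 2 / 4) + 2 : ℕ) : ℝ) := by
      push_cast
      exact h1
    exact_mod_cast h3
  obtain ⟨a, ha⟩ := even_sum G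
  obtain ⟨b, hb⟩ := even_target (Fintype.card V)
  omega

end Pool.Agent.Lib.MP_b0a977_co.DW
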