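import Pool.Agent.Lib.MP_b0a977_co.DW.Iface2

/-!
# Second part, the upper bound from its parts
-/

namespace Pool.Agent.Lib.MP_b0a977_co.DW

open Finset

theorem upper2 (hG : GoodS) (hB : BlocksS) (hC : Combine2S) (hT : TailS) (hN : NgeS)
    (h1 : Num3I) (h2 : Num3II) (h3 : Num3P) : Upper2S := by
  intro V _ _ G d k hc hd hxy hcard hdk
  have hn2 : 2 ≤ Fintype.card V := by omega
  by_cases hg : ∃ v, Good G v
  · obtain ⟨h, hh, hle⟩ := hG V G d hc hd hg
    exact hle.trans (h1 d k _ hcard hdk h hh).le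
  · obtain ⟨B, π, hb⟩ := hB V G d hn2 hc hd hg
    obtain ⟨N, hNn⟩ : ∃ N, B.card + N = Fintype.card V :=
      ⟨Fintype.card V - B.card, by
        have : B.card ≤ Fintype.card V := card_le_univ B
        omega⟩
    have hNd := hN V G d B π hn2 hc hb hxy N hNn
    have hs1 : 1 ≤ B.card := by
      obtain ⟨x, -, -⟩ := hxy
      exact card_pos.2 ⟨π x, hb.mem x⟩
    have hkN : k ≤ N := by omega
    rcases Nat.le_total (20 * N) (7 * Fintype.card V) with h | h
    · exact (hT V G d B π hn2 hb N hNn (by omega)).trans (h3 d k _ hcard hdk B.card N hNn hkN h)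
    · exact (hC V G d B π hn2 hd hb N (tad d k) (3 / 10) hNn (by omega) (by norm_num)
        (by norm_num) (fun j hj _ hjd => h2 d k _ hcard hdk B.card N j hNn hs1 h hj hjd)).le

end Pool.Agent.Lib.MP_b0a977_co.DW
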