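import Pool.Agent.Lib.MP_b0a977_co.DW.Iface3
import Pool.Agent.Lib.MP_b0a977_co.DW.Upper

/-!
# Third part, the upper bound from its parts
-/

namespace Pool.Agent.Lib.MP_b0a977_co.DW

open Finset

lemma two_le_blocks {V : Type} [Fintype V] [DecidableEq V] {G : SimpleGraph V} {d : ℕ}
    {B : Finset V} {π : V → V} (hn : 2 ≤ Fintype.card V) (hb : Blocks G d B π) : 2 ≤ B.card := by
  by_contra hcon
  have h0 : Nonempty V := Fintype.card_pos_iff.1 (by omega)
  obtain ⟨x0⟩ := h0
  have h1 : B.card = 1 := by
    have : 0 < B.card := card_pos.2 ⟨π x0, hb.mem x0⟩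
    omega
  obtain ⟨b, hB⟩ := card_eq_one.1 h1
  have h2 : (univ.filter fun x => π x = b) = univ := by
    ext x
    simp only [mem_filter, mem_univ, true_and, iff_true]
    have := hb.mem x
    rw [hB, mem_singleton] at this
    exact this
  have h3 := hb.half b (by rw [hB]; exact mem_singleton_self b)
  rw [h2, card_univ] at h3
  omega

theorem upper3 (hG : GoodS) (hB : BlocksS) (hC2 : Combine2S) (hC3 : Combine3S) (hT : TailS)
    (hS : NumSmall3S) : Upper3S := by
  intro V _ _ G d hd13 hd28 hcard hc hd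
  obtain ⟨hI, hS2, hS4, hS⟩ := hS d hd13 hd28
  have hn2 : 2 ≤ Fintype.card V := by omega
  have hq : (2 * d) ^ 2 / 4 = d ^ 2 := by
    rw [show (2 * d) ^ 2 = 4 * d ^ 2 by ring]
    omega
  have h1 : ∑ x, ∑ y, (G.dist x y : ℝ) < 2 * (d : ℝ) ^ 3 + 2 := by
    by_cases hg : ∃ v, Good G v
    · obtain ⟨h, hh, hle⟩ := hG V G d hc hd hg
      have h2 := hI h hh
      rw [hq] at h2
      rw [hcard] at hle
      refine hle.trans_lt (h2.trans_le (le_of_eq ?_))
      push_cast
      ring
    · obtain ⟨B, π, hb⟩ := hB V G d hn2 hc hd hg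
      have hs2 := two_le_blocks hn2 hb
      obtain ⟨N, hNn⟩ : ∃ N, B.card + N = Fintype.card V :=
        ⟨Fintype.card V - B.card, by
          have : B.card ≤ Fintype.card V := card_le_univ B
          omega⟩
      rcases Nat.eq_zero_or_pos N with hN0 | hN0
      · subst hN0
        have h2 := hT V G d B π hn2 hb 0 hNn (by omega)
        have h3 : B.card = 2 * d := by omega
        rw [h3, hq] at h2
        push_cast at h2
        linarith
      · by_cases h2 : B.card = 2
        · refine hC3 V G d B π hn2 hc hb N _ hNn hN0 (Or.inl ⟨h2, fun h h3 h4 => ?_⟩)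
          have h5 := hS2 h h3 h4
          have h6 : N = 2 * d - 2 := by omega
          rw [h6, hcard]
          exact h5
        · by_cases h4 : B.card = 4
          · refine hC3 V G d B π hn2 hc hb N _ hNn hN0 (Or.inr ⟨h4, fun h h3 h5 => ?_⟩)
            have h6 := hS4 h h3 h5
            have h7 : N = 2 * d - 4 := by omega
            rw [h7, hcard]
            exact h6
          · refine hC2 V G d B π hn2 hd hb N _ (2 / 5) hNn hN0 (by norm_num) (by norm_num) ?_
            intro h h5 h6 h7
            have h8 := hS B.card N h (by omega) (by omega) h4 h5 h6 h7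
            rw [hcard]
            exact h8
  have h2 : ∑ x, ∑ y, G.dist x y < 2 * d ^ 3 + 2 := by
    have h3 : ((∑ x, ∑ y, G.dist x y : ℕ) : ℝ) < ((2 * d ^ 3 + 2 : ℕ) : ℝ) := by
      push_cast
      exact h1
    exact_mod_cast h3
  obtain ⟨a, ha⟩ := even_sum G
  rw [hcard, hq, show 2 * d * d ^ 2 = 2 * d ^ 3 by ring]
  omega

end Pool.Agent.Lib.MP_b0a977_co.DW
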