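import Pool.Agent.Lib.MP_b0a977_co.DW.Tree
import Pool.Agent.Lib.MP_b0a977_co.DW.Tree2
import Pool.Agent.Lib.MP_b0a977_co.DW.Good
import Pool.Agent.Lib.MP_b0a977_co.DW.Blocks
import Pool.Agent.Lib.MP_b0a977_co.DW.Combine
import Pool.Agent.Lib.MP_b0a977_co.DW.Combine2
import Pool.Agent.Lib.MP_b0a977_co.DW.Combine3
import Pool.Agent.Lib.MP_b0a977_co.DW.Tail
import Pool.Agent.Lib.MP_b0a977_co.DW.Nge
import Pool.Agent.Lib.MP_b0a977_co.DW.NumSmall
import Pool.Agent.Lib.MP_b0a977_co.DW.NumSmall3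
import Pool.Agent.Lib.MP_b0a977_co.DW.NumLarge
import Pool.Agent.Lib.MP_b0a977_co.DW.Num3
import Pool.Agent.Lib.MP_b0a977_co.DW.Num3P
import Pool.Agent.Lib.MP_b0a977_co.DW.Num3W
import Pool.Agent.Lib.MP_b0a977_co.DW.Cycle
import Pool.Agent.Lib.MP_b0a977_co.DW.Tad
import Pool.Agent.Lib.MP_b0a977_co.DW.Upper
import Pool.Agent.Lib.MP_b0a977_co.DW.Upper2
import Pool.Agent.Lib.MP_b0a977_co.DW.Upper3

/-!
# All parts together
-/

namespace Pool.Agent.Lib.MP_b0a977_co.DW

theorem num3W : Num3W := by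
  intro d k n h hn hk
  refine ⟨fun hh => ?_, fun hh => ?_, fun hh => ?_⟩
  · have := num3w_half hn hk hh
    norm_num at this ⊢
    linarith
  · have := num3w_half' hn hk hh
    norm_num at this ⊢
    linarith
  · have := num3w_sub hn hk hh
    norm_num at this ⊢
    linarith

theorem upperF : UpperS := upper (good tree) blocks (combine tree)

theorem upper2F : Upper2S :=
  upper2 (good tree) blocks (combine2 tree) (tail tree2) nge (num3I num3W) (num3II num3W) num3P

theorem upper3F : Upper3S :=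
  upper3 (good tree) blocks (combine2 tree) (combine3 tree) (tail tree2) NumSmall3.num_small3

end Pool.Agent.Lib.MP_b0a977_co.DW
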