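import Mathlib

/-!
# Interface: maximum average distance for order `2d+1` or `2d` and diameter `d`

See `PAPER.md`. All statements are `Prop`s; `n` is the order, `d` bounds the distances.
-/

namespace Pool.Agent.Lib.MP_b0a977_co.DW

open Finset

/-- The sequence `w_0 = 1`, `w_(i+1) = √((w_i - 1)² + n - 1)`. -/
noncomputable def w (n : ℕ) : ℕ → ℝ
  | 0 => 1
  | i + 1 => √((w n i - 1) ^ 2 + ((n : ℝ) - 1))

/-- Some walk from `x` to `y` avoids `v`. -/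
def Cn {V : Type} (G : SimpleGraph V) (v x y : V) : Prop := ∃ p : G.Walk x y, v ∉ p.support

/-- Numerics (I). -/
def NumI (n d : ℕ) : Prop := ∀ h : ℕ, h ≤ d →
  ((n : ℝ) - 1) * (w n h ^ 2 + w n (d - h) ^ 2) < (n : ℝ) * (n ^ 2 / 4 : ℕ) + 2

/-- Numerics (II). -/
def NumII (n d : ℕ) : Prop := ∃ μ : ℝ, 0 ≤ μ ∧ μ ≤ 1 ∧ ∀ s N h : ℕ, s + N = n →
  n ≤ s * (n / 2) → 1 ≤ h → h ≤ N → 2 * h + 1 ≤ d →
  (s : ℝ) * (s ^ 2 / 4 : ℕ) + N * (2 * (s ^ 2 / 4 : ℕ) + 2 * w n h ^ 2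
    + ((N : ℝ) - h) * ((1 - μ) * (s / 2 : ℕ) + μ * ((d : ℝ) - 2 * h)))
    < (n : ℝ) * (n ^ 2 / 4 : ℕ) + 2

/-- NUMSMALL: the finite check. -/
def NumSmallS : Prop := (∀ d : ℕ, 3 ≤ d → d < 60 → NumI (2 * d + 1) d ∧ NumII (2 * d + 1) d) ∧
  (∀ d : ℕ, 28 ≤ d → d < 60 → NumI (2 * d) d ∧ NumII (2 * d) d)

/-- NUMLARGE. -/
def NumLargeS : Prop := ∀ d : ℕ, 60 ≤ d →
  NumI (2 * d + 1) d ∧ NumII (2 * d + 1) d ∧ NumI (2 * d) d ∧ NumII (2 * d) d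

/-- CYCLE: the cycle. -/
def CycleS : Prop := ∀ n : ℕ, 3 ≤ n → ∃ G : SimpleGraph (Fin n), G.Connected ∧ G.diam = n / 2 ∧
  ∑ x, ∑ y, G.dist x y = n * (n ^ 2 / 4)

/-- TREE: the tree bound. -/
def TreeS : Prop := ∀ (V : Type) [Fintype V] [DecidableEq V] (G : SimpleGraph V) (v : V)
  (A : Finset V) (h : ℕ), v ∉ A →
  (∀ x ∈ A, ∃ y, G.Adj x y ∧ G.dist y v + 1 = G.dist x v ∧ (y = v ∨ y ∈ A)) →
  (∀ x ∈ A, G.dist x v ≤ h) →
  (∑ x ∈ A, ∑ y ∈ A, (G.dist x y : ℝ))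
      + 2 * ((Fintype.card V : ℝ) - A.card) * ∑ x ∈ A, (G.dist x v : ℝ)
    ≤ 2 * w (Fintype.card V) h ^ 2 * A.card

/-- `v` is good: a vertex farthest from `v` lies in a component of `G - v` with at most
`(n-1)/2` vertices. -/
def Good {V : Type} [Fintype V] (G : SimpleGraph V) (v : V) : Prop :=
  ∃ x, x ≠ v ∧ (∀ y, G.dist y v ≤ G.dist x v) ∧
    2 * Nat.card {y : V // Cn G v x y} + 1 ≤ Fintype.card V

/-- GOOD: the bound if there is a good vertex. -/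
def GoodS : Prop := ∀ (V : Type) [Fintype V] [DecidableEq V] (G : SimpleGraph V) (d : ℕ),
  G.Connected → (∀ x y, G.dist x y ≤ d) → (∃ v, Good G v) →
  ∃ h : ℕ, h ≤ d ∧ ∑ x, ∑ y, (G.dist x y : ℝ) ≤
    ((Fintype.card V : ℝ) - 1) * (w (Fintype.card V) h ^ 2 + w (Fintype.card V) (d - h) ^ 2)

/-- The block structure of a graph without good vertex. -/
structure Blocks {V : Type} [Fintype V] [DecidableEq V] (G : SimpleGraph V) (d : ℕ)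
    (B : Finset V) (π : V → V) : Prop where
  mem : ∀ x, π x ∈ B
  fix : ∀ b ∈ B, π b = b
  half : ∀ b ∈ B, 2 * (univ.filter fun x => π x = b).card ≤ Fintype.card V
  dist : ∀ x y, π x ≠ π y → G.dist x y = G.dist x (π x) + G.dist (π x) (π y) + G.dist (π y) y
  down : ∀ x, x ≠ π x → ∃ y, G.Adj x y ∧ G.dist y (π x) + 1 = G.dist x (π x) ∧ π y = π x
  level : ∀ b ∈ B, ∀ c ∈ B, ∀ i, 1 ≤ i → i < G.dist b c →
    2 ≤ (B.filter fun z => G.dist b z = i).card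
  height : ∀ x, 2 * G.dist x (π x) + 1 ≤ d

/-- BLOCKS: the block structure exists. -/
def BlocksS : Prop := ∀ (V : Type) [Fintype V] [DecidableEq V] (G : SimpleGraph V) (d : ℕ),
  2 ≤ Fintype.card V → G.Connected → (∀ x y, G.dist x y ≤ d) → (¬ ∃ v, Good G v) →
  ∃ B π, Blocks G d B π

/-- COMBINE: the bound from the block structure. -/
def CombineS : Prop := ∀ (V : Type) [Fintype V] [DecidableEq V] (G : SimpleGraph V) (d : ℕ)
  (B : Finset V) (π : V → V), 2 ≤ Fintype.card V → (∀ x y, G.dist x y ≤ d) →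
  Blocks G d B π → ∀ T : ℝ, (Fintype.card V : ℝ) * (Fintype.card V ^ 2 / 4 : ℕ) < T →
  (∃ μ : ℝ, 0 ≤ μ ∧ μ ≤ 1 ∧ ∀ s N h : ℕ, s + N = Fintype.card V →
    Fintype.card V ≤ s * (Fintype.card V / 2) → 1 ≤ h → h ≤ N → 2 * h + 1 ≤ d →
    (s : ℝ) * (s ^ 2 / 4 : ℕ) + N * (2 * (s ^ 2 / 4 : ℕ) + 2 * w (Fintype.card V) h ^ 2
      + ((N : ℝ) - h) * ((1 - μ) * (s / 2 : ℕ) + μ * ((d : ℝ) - 2 * h))) < T) →
  ∑ x, ∑ y, (G.dist x y : ℝ) < T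

/-- FINAL: the upper bound. -/
def UpperS : Prop := ∀ (V : Type) [Fintype V] [DecidableEq V] (G : SimpleGraph V) (d : ℕ),
  2 ≤ Fintype.card V → G.Connected → (∀ x y, G.dist x y ≤ d) →
  NumI (Fintype.card V) d → NumII (Fintype.card V) d →
  ∑ x, ∑ y, G.dist x y ≤ Fintype.card V * (Fintype.card V ^ 2 / 4)

end Pool.Agent.Lib.MP_b0a977_co.DW
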