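import Pool.Agent.Lib.MP_b0a977_co.DW.Iface2

/-!
# Interface, third part: order `2d`, `13 ≤ d ≤ 27`

Two and four blocks need a better bound for the sum over the pairs of blocks:
`∑_(b≠c) ν_b ν_c dist(b,c) ≤ N² + (⌊s²/4⌋ - s) ∑ ν_b²`
(write `dist = 1 + (dist - 1)` and use `ν_b ν_c ≤ (ν_b² + ν_c²)/2` for the second part).
-/

namespace Pool.Agent.Lib.MP_b0a977_co.DW

open Finset

/-- COMBINE3: the bounds for two and for four blocks. -/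
def Combine3S : Prop := ∀ (V : Type) [Fintype V] [DecidableEq V] (G : SimpleGraph V) (d : ℕ)
  (B : Finset V) (π : V → V), 2 ≤ Fintype.card V → G.Connected →
  Blocks G d B π → ∀ (N : ℕ) (T : ℝ), B.card + N = Fintype.card V → 1 ≤ N →
  ((B.card = 2 ∧ ∀ h : ℕ, 1 ≤ h → 2 * h + 1 ≤ d →
      2 + 2 * (N : ℝ) + N ^ 2 / 2 + 2 * N * w (Fintype.card V) h ^ 2 < T) ∨
   (B.card = 4 ∧ ∀ h : ℕ, 1 ≤ h → 2 * h + 1 ≤ d →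
      16 + 8 * (N : ℝ) + N ^ 2 + 2 * N * w (Fintype.card V) h ^ 2 < T)) →
  ∑ x, ∑ y, (G.dist x y : ℝ) < T

/-- NUMSMALL3: the finite check. -/
def NumSmall3S : Prop := ∀ d : ℕ, 13 ≤ d → d < 28 → NumI (2 * d) d ∧
  (∀ h : ℕ, 1 ≤ h → 2 * h + 1 ≤ d → 2 + 2 * ((2 * d - 2 : ℕ) : ℝ) + ((2 * d - 2 : ℕ) : ℝ) ^ 2 / 2
    + 2 * ((2 * d - 2 : ℕ) : ℝ) * w (2 * d) h ^ 2 < 2 * (d : ℝ) ^ 3 + 2) ∧
  (∀ h : ℕ, 1 ≤ h → 2 * h + 1 ≤ d → 16 + 8 * ((2 * d - 4 : ℕ) : ℝ) + ((2 * d - 4 : ℕ) : ℝ) ^ 2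
    + 2 * ((2 * d - 4 : ℕ) : ℝ) * w (2 * d) h ^ 2 < 2 * (d : ℝ) ^ 3 + 2) ∧
  (∀ s N h : ℕ, s + N = 2 * d → 3 ≤ s → s ≠ 4 → 1 ≤ h → h ≤ N → 2 * h + 1 ≤ d →
    (s : ℝ) * (s ^ 2 / 4 : ℕ) + N * (2 * (s ^ 2 / 4 : ℕ) + 2 * w (2 * d) h ^ 2
      + ((N : ℝ) - h) * ((1 - 2 / 5) * (s / 2 : ℕ) + 2 / 5 * ((d : ℝ) - 2 * h)))
      < 2 * (d : ℝ) ^ 3 + 2)

/-- UPPER3. -/
def Upper3S : Prop := ∀ (V : Type) [Fintype V] [DecidableEq V] (G : SimpleGraph V) (d : ℕ),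
  13 ≤ d → d < 28 → Fintype.card V = 2 * d → G.Connected → (∀ x y, G.dist x y ≤ d) →
  ∑ x, ∑ y, G.dist x y ≤ Fintype.card V * (Fintype.card V ^ 2 / 4)

end Pool.Agent.Lib.MP_b0a977_co.DW
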