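import Pool.Agent.Lib.MP_b0a977_co.DW.NumSmall
import Pool.Agent.Lib.MP_b0a977_co.DW.Iface3

/-! Row NUMSMALL3: the finite check for the order `2d`, `13 ≤ d ≤ 27`, with integer upper bounds
of `300 w_h`. -/

set_option maxRecDepth 100000

namespace Pool.Agent.Lib.MP_b0a977_co.DW.NumSmall3

open Pool.Agent.Lib.MP_b0a977_co.DW
open Pool.Agent.Lib.MP_b0a977_co.DW.NumSmall (chain chain_le stepI allI allI_spec)

/-- the inequality for `s` blocks, `μ = 2/5` -/
def stepS (d h W s : ℕ) : Bool :=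
  Nat.blt (900000 * (s * (s * s / 4) + (2 * d - s) * (2 * (s * s / 4))) +
    20 * ((2 * d - s) * (W * W)) +
    90000 * ((2 * d - s) * ((2 * d - s - h) * (6 * (s / 2) + 4 * (d - 2 * h)))))
    (900000 * (2 * (d * d * d) + 2))

/-- all `1 ≤ s ≤ m`, `s ≠ 1, 2, 4` -/
def allS (d h W : ℕ) : ℕ → Bool
  | 0 => true
  | s + 1 => (Nat.ble s 1 || (Nat.beq s 3 || stepS d h W (s + 1))) && allS d h W s

/-- two and four blocks -/
def step24 (d W : ℕ) : Bool :=
  Nat.blt (900000 * (2 + 2 * (2 * d - 2)) + 450000 * ((2 * d - 2) * (2 * d - 2)) +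
    20 * ((2 * d - 2) * (W * W))) (900000 * (2 * (d * d * d) + 2)) &&
  Nat.blt (900000 * (16 + 8 * (2 * d - 4) + (2 * d - 4) * (2 * d - 4)) +
    20 * ((2 * d - 4) * (W * W))) (900000 * (2 * (d * d * d) + 2))

/-- all `1 ≤ h ≤ m` -/
def allH (d : ℕ) (L : List ℕ) : ℕ → Bool
  | 0 => true
  | h + 1 => (step24 d (L.getD (h + 1) 0) &&
      allS d (h + 1) (L.getD (h + 1) 0) (2 * d - (h + 1))) && allH d L h

/-- the check for one `d` -/
def chk (d : ℕ) (L : List ℕ) : Bool :=
  chain (2 * d) 300 L && (Nat.beq L.length d && (allI (2 * d) d (300 :: L) d &&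
    allH d (300 :: L) ((d - 1) / 2)))

theorem allS_spec {d h W : ℕ} (m : ℕ) (hh : allS d h W m = true) :
    ∀ s, 3 ≤ s → s ≠ 4 → s ≤ m → stepS d h W s = true := by
  induction m with
  | zero => intro s h1 _ h2; omega
  | succ m ih =>
    rw [allS, Bool.and_eq_true] at hh
    intro s h1 h4 h2
    rcases Nat.lt_or_ge s (m + 1) with h3 | h3
    · exact ih hh.2 s h1 h4 (by omega)
    · have : s = m + 1 := by omega
      subst this
      have h5 := hh.1
      rw [Bool.or_eq_true, Bool.or_eq_true] at h5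
      rcases h5 with h5 | h5 | h5
      · have := Nat.le_of_ble_eq_true h5
        omega
      · have := Nat.eq_of_beq_eq_true h5
        omega
      · exact h5

theorem allH_spec {d : ℕ} {L : List ℕ} (m : ℕ) (hh : allH d L m = true) :
    ∀ h, 1 ≤ h → h ≤ m → step24 d (L.getD h 0) = true ∧
      allS d h (L.getD h 0) (2 * d - h) = true := by
  induction m with
  | zero => intro h h1 h2; omega
  | succ m ih =>
    rw [allH, Bool.and_eq_true] at hh
    intro h h1 h2
    rcases Nat.lt_or_ge h (m + 1) with h3 | h3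
    · exact ih hh.2 h h1 (by omega)
    · have : h = m + 1 := by omega
      subst this
      rw [Bool.and_eq_true] at hh
      exact hh.1

/-- the four statements for one `d` -/
def Stm (d : ℕ) : Prop := NumI (2 * d) d ∧
  (∀ h : ℕ, 1 ≤ h → 2 * h + 1 ≤ d → 2 + 2 * ((2 * d - 2 : ℕ) : ℝ) + ((2 * d - 2 : ℕ) : ℝ) ^ 2 / 2
    + 2 * ((2 * d - 2 : ℕ) : ℝ) * w (2 * d) h ^ 2 < 2 * (d : ℝ) ^ 3 + 2) ∧
  (∀ h : ℕ, 1 ≤ h → 2 * h + 1 ≤ d → 16 + 8 * ((2 * d - 4 : ℕ) : ℝ) + ((2 * d - 4 : ℕ) : ℝ) ^ 2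
    + 2 * ((2 * d - 4 : ℕ) : ℝ) * w (2 * d) h ^ 2 < 2 * (d : ℝ) ^ 3 + 2) ∧
  (∀ s N h : ℕ, s + N = 2 * d → 3 ≤ s → s ≠ 4 → 1 ≤ h → h ≤ N → 2 * h + 1 ≤ d →
    (s : ℝ) * (s ^ 2 / 4 : ℕ) + N * (2 * (s ^ 2 / 4 : ℕ) + 2 * w (2 * d) h ^ 2
      + ((N : ℝ) - h) * ((1 - 2 / 5) * (s / 2 : ℕ) + 2 / 5 * ((d : ℝ) - 2 * h)))
      < 2 * (d : ℝ) ^ 3 + 2)

theorem chk_spec {d : ℕ} {L : List ℕ} (hd : 2 ≤ d) (h : chk d L = true) : Stm d := by
  rw [chk, Bool.and_eq_true, Bool.and_eq_true, Bool.and_eq_true] at h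
  obtain ⟨hc, hl, hI, hH⟩ := h
  have hn : 2 ≤ 2 * d := by omega
  have hl' : L.length = d := Nat.eq_of_beq_eq_true hl
  have hw : ∀ k ≤ d, 300 * w (2 * d) k ≤ (((300 :: L).getD k 0 : ℕ) : ℝ) := by
    intro k hk
    cases k with
    | zero => simp [w]
    | succ k =>
      have := chain_le hn L 0 300 hc (by simp [w]) k (by omega)
      have e : 0 + 1 + k = k + 1 := by ring
      rw [e] at this
      simpa using this
  have hw0 : ∀ k, 0 ≤ w (2 * d) k := fun k => le_trans zero_le_one (one_le_w hn k)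
  have hsq : ∀ k ≤ d, 90000 * w (2 * d) k ^ 2 ≤
      (((300 :: L).getD k 0 : ℕ) : ℝ) * (((300 :: L).getD k 0 : ℕ) : ℝ) := by
    intro k hk
    have h1 := hw k hk
    have h2 : (300 * w (2 * d) k) ^ 2 ≤ (((300 :: L).getD k 0 : ℕ) : ℝ) ^ 2 :=
      pow_le_pow_left₀ (by have := hw0 k; positivity) h1 2
    nlinarith
  have hn1 : (0 : ℝ) ≤ ((2 * d : ℕ) : ℝ) - 1 := by
    have : (2 : ℝ) ≤ ((2 * d : ℕ) : ℝ) := by exact_mod_cast hn
    linarith
  refine ⟨?_, ?_, ?_, ?_⟩
  · intro k hk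
    have h1 := allI_spec d hI k hk
    rw [stepI] at h1
    have h2 : (2 * d - 1) * ((300 :: L).getD k 0 * (300 :: L).getD k 0 +
        (300 :: L).getD (d - k) 0 * (300 :: L).getD (d - k) 0) <
        90000 * (2 * d * (2 * d * (2 * d) / 4) + 2) := Nat.le_of_ble_eq_true h1
    have h4 := hsq k hk
    have h5 := hsq (d - k) (by omega)
    generalize (300 :: L).getD k 0 = W at h2 h4
    generalize (300 :: L).getD (d - k) 0 = W' at h2 h5
    have e : (2 * d) ^ 2 / 4 = 2 * d * (2 * d) / 4 := by rw [pow_two]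
    rw [e]
    generalize 2 * d * (2 * d) / 4 = A at h2 ⊢
    have e2 : ((2 * d - 1 : ℕ) : ℝ) = ((2 * d : ℕ) : ℝ) - 1 := by
      rw [Nat.cast_sub (by omega : 1 ≤ 2 * d), Nat.cast_one]
    have h3 : (((2 * d - 1) * (W * W + W' * W') : ℕ) : ℝ) <
        ((90000 * (2 * d * A + 2) : ℕ) : ℝ) := by exact_mod_cast h2
    rw [Nat.cast_mul, e2, Nat.cast_mul 90000, Nat.cast_add (2 * d * A), Nat.cast_mul (2 * d) A,
      Nat.cast_add, Nat.cast_mul W, Nat.cast_mul W'] at h3
    generalize ((2 * d : ℕ) : ℝ) = n at h3 hn1 ⊢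
    have h6 := mul_le_mul_of_nonneg_left (add_le_add h4 h5) hn1
    norm_num at h3
    nlinarith
  · intro k h1 hk
    have h2 := (allH_spec _ hH k h1 (by omega)).1
    rw [step24, Bool.and_eq_true] at h2
    have h3 : 900000 * (2 + 2 * (2 * d - 2)) + 450000 * ((2 * d - 2) * (2 * d - 2)) +
      20 * ((2 * d - 2) * ((300 :: L).getD k 0 * (300 :: L).getD k 0)) <
      900000 * (2 * (d * d * d) + 2) := Nat.le_of_ble_eq_true h2.1
    have h4 := hsq k (by omega)
    generalize 2 * d - 2 = N at h3 ⊢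
    generalize (300 :: L).getD k 0 = W at h3 h4
    have h5 : ((900000 * (2 + 2 * N) + 450000 * (N * N) + 20 * (N * (W * W)) : ℕ) : ℝ) <
      ((900000 * (2 * (d * d * d) + 2) : ℕ) : ℝ) := by exact_mod_cast h3
    have hN : (0 : ℝ) ≤ N := Nat.cast_nonneg _
    have h6 := mul_le_mul_of_nonneg_left h4 hN
    push_cast at h5
    nlinarith
  · intro k h1 hk
    have h2 := (allH_spec _ hH k h1 (by omega)).1
    rw [step24, Bool.and_eq_true] at h2
    have h3 : 900000 * (16 + 8 * (2 * d - 4) + (2 * d - 4) * (2 * d - 4)) +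
      20 * ((2 * d - 4) * ((300 :: L).getD k 0 * (300 :: L).getD k 0)) <
      900000 * (2 * (d * d * d) + 2) := Nat.le_of_ble_eq_true h2.2
    have h4 := hsq k (by omega)
    generalize 2 * d - 4 = N at h3 ⊢
    generalize (300 :: L).getD k 0 = W at h3 h4
    have h5 : ((900000 * (16 + 8 * N + N * N) + 20 * (N * (W * W)) : ℕ) : ℝ) <
      ((900000 * (2 * (d * d * d) + 2) : ℕ) : ℝ) := by exact_mod_cast h3
    have hN : (0 : ℝ) ≤ N := Nat.cast_nonneg _
    have h6 := mul_le_mul_of_nonneg_left h4 hN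
    push_cast at h5
    nlinarith
  · intro s N h hsN hs hs4 h1 hhN hhd
    have h2 := allS_spec _ (allH_spec _ hH h h1 (by omega)).2 s hs hs4 (by omega)
    rw [stepS] at h2
    have hN : 2 * d - s = N := by omega
    rw [hN] at h2
    have h3 : 900000 * (s * (s * s / 4) + N * (2 * (s * s / 4))) +
        20 * (N * ((300 :: L).getD h 0 * (300 :: L).getD h 0)) +
        90000 * (N * ((N - h) * (6 * (s / 2) + 4 * (d - 2 * h)))) <
        900000 * (2 * (d * d * d) + 2) := Nat.le_of_ble_eq_true h2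
    have h4 := hsq h (by omega)
    generalize (300 :: L).getD h 0 = W at h3 h4
    have e' : s ^ 2 / 4 = s * s / 4 := by rw [pow_two]
    rw [e']
    generalize s * s / 4 = A at h3 ⊢
    generalize s / 2 = A' at h3 ⊢
    have e3 : ((N - h : ℕ) : ℝ) = (N : ℝ) - h := Nat.cast_sub hhN
    have e4 : ((d - 2 * h : ℕ) : ℝ) = (d : ℝ) - 2 * h := by
      rw [Nat.cast_sub (by omega : 2 * h ≤ d)]
      push_cast
      ring
    have h5 : ((900000 * (s * A + N * (2 * A)) + 20 * (N * (W * W)) +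
        90000 * (N * ((N - h) * (6 * A' + 4 * (d - 2 * h)))) : ℕ) : ℝ) <
        ((900000 * (2 * (d * d * d) + 2) : ℕ) : ℝ) := by exact_mod_cast h3
    have hN : (0 : ℝ) ≤ N := Nat.cast_nonneg _
    have h6 := mul_le_mul_of_nonneg_left h4 hN
    rw [Nat.cast_add, Nat.cast_mul 90000, Nat.cast_mul N, Nat.cast_mul (N - h), e3,
      Nat.cast_add (6 * A'), Nat.cast_mul 4, e4] at h5
    push_cast at h5
    nlinarith

theorem c26 : chk 13 [1500, 1921, 2209, 2428, 2604, 2750, 2873, 2979, 3071, 3151, 3222, 3285,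
  3341] = true := by
  decide +kernel

theorem c28 : chk 14 [1559, 2004, 2310, 2544, 2733, 2890, 3023, 3138, 3238, 3326, 3404, 3474,
  3537, 3593] = true := by
  decide +kernel

theorem c30 : chk 15 [1616, 2084, 2407, 2656, 2857, 3025, 3168, 3292, 3401, 3497, 3583, 3659,
  3728, 3790, 3846] = true := by
  decide +kernel

theorem c32 : chk 16 [1671, 2161, 2501, 2764, 2977, 3156, 3309, 3442, 3559, 3663, 3755, 3838,
  3913, 3981, 4043, 4099] = true := by
  decide +kernel

theorem c34 : chk 17 [1724, 2236, 2592, 2868, 3093, 3282, 3445, 3587, 3712, 3823, 3922, 4012,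
  4093, 4167, 4234, 4295, 4351] = true := by
  decide +kernel

theorem c36 : chk 18 [1775, 2308, 2680, 2969, 3206, 3406, 3578, 3728, 3861, 3979, 4085, 4181,
  4268, 4347, 4420, 4487, 4548, 4604] = true := by
  decide +kernel

theorem c38 : chk 19 [1825, 2379, 2767, 3069, 3317, 3526, 3707, 3865, 4005, 4131, 4244, 4346,
  4439, 4524, 4602, 4674, 4740, 4801, 4857] = true := by
  decide +kernel

theorem c40 : chk 20 [1874, 2447, 2850, 3165, 3424, 3643, 3833, 4000, 4148, 4280, 4399, 4507,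
  4606, 4696, 4779, 4856, 4927, 4992, 5053, 5109] = true := by
  decide +kernel

theorem c42 : chk 21 [1921, 2514, 2932, 3259, 3528, 3757, 3955, 4130, 4285, 4424, 4550, 4664,
  4769, 4865, 4953, 5034, 5109, 5179, 5244, 5305, 5361] = true := by
  decide +kernel

theorem c44 : chk 22 [1968, 2580, 3012, 3351, 3631, 3869, 4076, 4258, 4420, 4566, 4698, 4818,
  4928, 5029, 5122, 5208, 5288, 5362, 5431, 5496, 5556, 5613] = true := by
  decide +kernel

theorem c46 : chk 23 [2013, 2643, 3089, 3440, 3730, 3977, 4192, 4382, 4552, 4705, 4843, 4969,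
  5085, 5191, 5289, 5380, 5465, 5544, 5617, 5686, 5750, 5810, 5867] = true := by
  decide +kernel

theorem c48 : chk 24 [2057, 2706, 3166, 3528, 3828, 4084, 4307, 4505, 4682, 4841, 4986, 5118,
  5239, 5351, 5454, 5550, 5639, 5722, 5799, 5872, 5940, 6004, 6064, 6120] = true := by
  decide +kernel

theorem c50 : chk 25 [2100, 2766, 3240, 3613, 3923, 4188, 4419, 4624, 4807, 4973, 5124, 5262,
  5389, 5506, 5614, 5714, 5808, 5895, 5977, 6053, 6125, 6192, 6256, 6316, 6372] = true := by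
  decide +kernel

theorem c52 : chk 26 [2143, 2827, 3313, 3698, 4018, 4292, 4531, 4743, 4933, 5105, 5261, 5404,
  5536, 5658, 5771, 5876, 5974, 6066, 6152, 6232, 6308, 6379, 6446, 6509, 6569, 6625] = true := by
  decide +kernel

theorem c54 : chk 27 [2185, 2885, 3385, 3780, 4109, 4391, 4638, 4857, 5054, 5232, 5394, 5543,
  5680, 5807, 5925, 6035, 6137, 6233, 6323, 6407, 6486, 6561, 6631, 6698, 6761, 6821, 6878] = true
  := by
  decide +kernel

theorem num_small3 : NumSmall3S := by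
  intro d h1 h2
  interval_cases d
  · exact chk_spec (by norm_num) c26
  · exact chk_spec (by norm_num) c28
  · exact chk_spec (by norm_num) c30
  · exact chk_spec (by norm_num) c32
  · exact chk_spec (by norm_num) c34
  · exact chk_spec (by norm_num) c36
  · exact chk_spec (by norm_num) c38
  · exact chk_spec (by norm_num) c40
  · exact chk_spec (by norm_num) c42
  · exact chk_spec (by norm_num) c44
  · exact chk_spec (by norm_num) c46
  · exact chk_spec (by norm_num) c48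
  · exact chk_spec (by norm_num) c50
  · exact chk_spec (by norm_num) c52
  · exact chk_spec (by norm_num) c54

end Pool.Agent.Lib.MP_b0a977_co.DW.NumSmall3
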