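import Pool.Agent.Lib.MP_b0a977_co.DW.Iface

/-!
# The sequence `w`
-/

namespace Pool.Agent.Lib.MP_b0a977_co.DW

open Finset

variable {n : ℕ}

@[simp] lemma w_zero (n : ℕ) : w n 0 = 1 := rfl

lemma w_succ (n i : ℕ) : w n (i + 1) = √((w n i - 1) ^ 2 + ((n : ℝ) - 1)) := rfl

lemma w_sq_succ (hn : 2 ≤ n) (i : ℕ) : w n (i + 1) ^ 2 = w n i ^ 2 + (n - 2 * w n i) := by
  have h2 : (2 : ℝ) ≤ n := by exact_mod_cast hn
  rw [w_succ, Real.sq_sqrt (by nlinarith [sq_nonneg (w n i - 1)])]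
  ring

lemma one_le_w (hn : 2 ≤ n) (i : ℕ) : 1 ≤ w n i := by
  have h2 : (2 : ℝ) ≤ n := by exact_mod_cast hn
  cases i with
  | zero => simp
  | succ i =>
    rw [w_succ]
    apply Real.one_le_sqrt.2
    nlinarith [sq_nonneg (w n i - 1)]

lemma w_pos (hn : 2 ≤ n) (i : ℕ) : 0 < w n i := by
  linarith [one_le_w hn i]

lemma w_le_half (hn : 2 ≤ n) (i : ℕ) : w n i ≤ n / 2 := by
  have h2 : (2 : ℝ) ≤ n := by exact_mod_cast hn
  induction i with
  | zero => simp; linarith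
  | succ i ih =>
    have h1 := one_le_w hn i
    have h3 := w_sq_succ hn i
    have h4 := one_le_w hn (i + 1)
    nlinarith [mul_nonneg (sub_nonneg.2 h1) (sub_nonneg.2 ih)]

lemma w_mono (hn : 2 ≤ n) : Monotone (w n) := by
  apply monotone_nat_of_le_succ
  intro i
  have h1 := one_le_w hn i
  have h3 := w_sq_succ hn i
  have h4 := one_le_w hn (i + 1)
  have h5 := w_le_half hn i
  nlinarith

lemma w_sq_mono (hn : 2 ≤ n) {i j : ℕ} (h : i ≤ j) : w n i ^ 2 ≤ w n j ^ 2 := by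
  have := w_mono hn h
  have := w_pos hn i
  nlinarith

lemma w_concave_add (hn : 2 ≤ n) (k t : ℕ) :
    w n (k + t) ^ 2 ≤ w n k ^ 2 + (n - 2 * w n k) * t := by
  induction t with
  | zero => simp
  | succ t ih =>
    have h1 := w_sq_succ hn (k + t)
    have h2 : w n k ≤ w n (k + t) := w_mono hn (by omega)
    rw [show k + (t + 1) = k + t + 1 by omega, h1]
    push_cast
    nlinarith

lemma w_concave_sub (hn : 2 ≤ n) (k t : ℕ) :
    w n k ^ 2 + (n - 2 * w n (k + t)) * t ≤ w n (k + t) ^ 2 := by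
  induction t with
  | zero => simp
  | succ t ih =>
    have h1 := w_sq_succ hn (k + t)
    have h2 : w n (k + t) ≤ w n (k + t + 1) := w_mono hn (by omega)
    rw [show k + (t + 1) = k + t + 1 by omega, h1]
    push_cast
    have h3 : (0 : ℝ) ≤ t := by positivity
    nlinarith [mul_nonneg h3 (sub_nonneg.2 h2)]

/-- concavity of `w²` -/
lemma w_concave (hn : 2 ≤ n) (h k : ℕ) :
    w n h ^ 2 ≤ w n k ^ 2 + (n - 2 * w n k) * ((h : ℝ) - k) := by
  rcases le_total k h with hk | hk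
  · obtain ⟨t, rfl⟩ := Nat.exists_eq_add_of_le hk
    have := w_concave_add hn k t
    push_cast
    linarith
  · obtain ⟨t, rfl⟩ := Nat.exists_eq_add_of_le hk
    have := w_concave_sub hn h t
    push_cast
    linarith

lemma w_sq_le (hn : 2 ≤ n) (h : ℕ) : w n h ^ 2 ≤ 1 + (n - 2) * h := by
  have := w_concave hn h 0
  simp at this
  linarith

lemma w_one (n : ℕ) : w n 1 = √((n : ℝ) - 1) := by
  rw [show (1 : ℕ) = 0 + 1 from rfl, w_succ]
  simp

end Pool.Agent.Lib.MP_b0a977_co.DW
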