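import Pool.Agent.Lib.MP_b0a977_co.DW.Seq

/-!
# The tree bound
-/

namespace Pool.Agent.Lib.MP_b0a977_co.DW

open Finset

namespace TreeB

variable {V : Type} (G : SimpleGraph V) (v : V) (A : Finset V) (par : V → V)

/-- the hypothesis on the parent map -/
def IsPar : Prop := ∀ x ∈ A, G.Adj x (par x) ∧ G.dist (par x) v + 1 = G.dist x v ∧
  (par x = v ∨ par x ∈ A)

variable {G v A par}

lemma walk_iter (hp : IsPar G v A par) {x : V} (hx : x ∈ A) : ∀ k, k ≤ G.dist x v →
    (G.dist (par^[k] x) v + k = G.dist x v ∧ (par^[k] x = v ∨ par^[k] x ∈ A) ∧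
      ∃ p : G.Walk x (par^[k] x), p.length = k) := by
  intro k
  induction k with
  | zero => intro _; exact ⟨by simp, Or.inr (by simpa using hx), ⟨SimpleGraph.Walk.nil, rfl⟩⟩
  | succ k ih =>
    intro hk
    obtain ⟨h1, h2, p, hp1⟩ := ih (by omega)
    have h3 : par^[k] x ∈ A := by
      rcases h2 with h2 | h2
      · rw [h2, SimpleGraph.dist_self] at h1
        omega
      · exact h2
    obtain ⟨h4, h5, h6⟩ := hp _ h3
    rw [Function.iterate_succ_apply']
    refine ⟨by omega, h6, ⟨p.concat h4, by simp [hp1]⟩⟩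

/-- the ancestor at depth `j` -/
noncomputable def anc (G : SimpleGraph V) (v : V) (par : V → V) (j : ℕ) (x : V) : V := par^[G.dist x v - j] x

lemma anc_spec (hp : IsPar G v A par) {x : V} (hx : x ∈ A) {j : ℕ} (hj : j ≤ G.dist x v) :
    G.dist (anc G v par j x) v = j ∧ (anc G v par j x = v ∨ anc G v par j x ∈ A) ∧
      ∃ p : G.Walk x (anc G v par j x), p.length = G.dist x v - j := by
  obtain ⟨h1, h2, h3⟩ := walk_iter hp hx (G.dist x v - j) (Nat.sub_le _ _)
  exact ⟨by unfold anc; omega, h2, h3⟩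

lemma anc_zero (hp : IsPar G v A par) {x : V} (hx : x ∈ A) : anc G v par 0 x = v := by
  obtain ⟨h1, h2, h3⟩ := anc_spec hp hx (Nat.zero_le _)
  rcases h2 with h2 | h2
  · exact h2
  · have := (hp _ h2).2.1
    omega

lemma dist_le_of_anc (hp : IsPar G v A par) {x y : V} (hx : x ∈ A) (hy : y ∈ A) {j : ℕ}
    (hj : j ≤ G.dist x v) (hj' : j ≤ G.dist y v) (h : anc G v par j x = anc G v par j y) :
    G.dist x y + 2 * j ≤ G.dist x v + G.dist y v := by
  obtain ⟨-, -, p, hp1⟩ := anc_spec hp hx hj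
  obtain ⟨-, -, q, hq1⟩ := anc_spec hp hy hj'
  have h1 := SimpleGraph.dist_le (p.append (q.reverse.copy h.symm rfl))
  rw [SimpleGraph.Walk.length_append, SimpleGraph.Walk.length_copy,
    SimpleGraph.Walk.length_reverse] at h1
  omega

variable [DecidableEq V]

lemma dist_add_le (hp : IsPar G v A par) {x y : V} (hx : x ∈ A) (hy : y ∈ A) (h : ℕ) :
    G.dist x y + 2 * ((Icc 1 h).filter fun j => j ≤ G.dist x v ∧ j ≤ G.dist y v ∧
      anc G v par j x = anc G v par j y).card ≤ G.dist x v + G.dist y v := by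
  set S := (Icc 1 h).filter fun j => j ≤ G.dist x v ∧ j ≤ G.dist y v ∧
      anc G v par j x = anc G v par j y with hS
  rcases S.eq_empty_or_nonempty with h0 | h0
  · have := dist_le_of_anc hp hx hy (Nat.zero_le _) (Nat.zero_le _)
      (by rw [anc_zero hp hx, anc_zero hp hy])
    rw [h0, card_empty]
    omega
  · have h1 : S.max' h0 ∈ S := max'_mem _ _
    have h2 : S ⊆ Icc 1 (S.max' h0) := by
      intro j hj
      have h3 := S.le_max' j hj
      rw [mem_Icc]
      refine ⟨?_, h3⟩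
      rw [hS, mem_filter, mem_Icc] at hj
      exact hj.1.1
    have h3 := card_le_card h2
    rw [Nat.card_Icc] at h3
    obtain ⟨-, h4, h5, h6⟩ := mem_filter.1 h1
    have := dist_le_of_anc hp hx hy h4 h5 h6
    omega

/-- a double count: `∑_x ∑_y [f x = f y] ≥ 2 r |S| - r² |L|` -/
lemma pairs_ge {S L : Finset V} (f : V → V) (hf : ∀ x ∈ S, f x ∈ L) (r : ℝ) :
    2 * r * S.card - r ^ 2 * L.card ≤ ∑ x ∈ S, ∑ y ∈ S, (if f x = f y then (1 : ℝ) else 0) := by
  have h1 : ∀ x ∈ S, ∑ y ∈ S, (if f x = f y then (1 : ℝ) else 0)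
      = ((S.filter fun y => f y = f x).card : ℝ) := by
    intro x _
    rw [← sum_filter, sum_const, nsmul_eq_mul, mul_one]
    congr 2
    ext y
    simp [eq_comm]
  rw [sum_congr rfl h1, ← sum_fiberwise_of_maps_to hf]
  have h2 : ∀ z ∈ L, 2 * r * ((S.filter fun y => f y = z).card : ℝ) - r ^ 2
      ≤ ∑ x ∈ S.filter (fun x => f x = z), ((S.filter fun y => f y = f x).card : ℝ) := by
    intro z _
    have h3 : ∀ x ∈ S.filter (fun x => f x = z), ((S.filter fun y => f y = f x).card : ℝ)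
        = ((S.filter fun y => f y = z).card : ℝ) := by
      intro x hx
      rw [mem_filter] at hx
      rw [hx.2]
    rw [sum_congr rfl h3, sum_const, nsmul_eq_mul]
    nlinarith [sq_nonneg (((S.filter fun y => f y = z).card : ℝ) - r)]
  refine le_trans (le_of_eq ?_) (sum_le_sum h2)
  rw [sum_sub_distrib, ← mul_sum, sum_const, nsmul_eq_mul]
  have h4 : (S.card : ℝ) = ∑ z ∈ L, ((S.filter fun y => f y = z).card : ℝ) := by
    rw [card_eq_sum_card_fiberwise hf]
    push_cast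
    rfl
  rw [h4]
  ring

lemma telescope {n : ℕ} (hn : 2 ≤ n) (h t : ℕ) (ht : t ≤ h) :
    ∑ j ∈ Icc 1 t, ((n : ℝ) - 2 * w n (h - j)) + w n (h - t) ^ 2 = w n h ^ 2 := by
  induction t with
  | zero => simp
  | succ t ih =>
    rw [sum_Icc_succ_top (by omega)]
    have h1 := ih (by omega)
    have h2 := w_sq_succ hn (h - (t + 1))
    rw [show h - (t + 1) + 1 = h - t by omega] at h2
    linarith

end TreeB

open TreeB

theorem tree : TreeS := by
  intro V _ _ G v A h hv hA hh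
  rcases A.eq_empty_or_nonempty with hE | ⟨x0, hx0⟩
  · subst hE; simp
  have hn : 2 ≤ Fintype.card V := by
    have h1 : ({v, x0} : Finset V).card ≤ Fintype.card V := card_le_univ _
    rw [card_pair (by rintro rfl; exact hv hx0)] at h1
    exact h1
  classical
  set n := Fintype.card V with hnn
  have hpar : ∃ par : V → V, IsPar G v A par := by
    choose! f hf using hA
    exact ⟨f, hf⟩
  obtain ⟨par, hp⟩ := hpar
  set δ : V → ℕ := fun x => G.dist x v with hδ
  have hδ1 : ∀ x ∈ A, 1 ≤ δ x := fun x hx => by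
    have := (hp x hx).2.1
    show 1 ≤ G.dist x v
    omega
  set P : ℕ → V → V → Prop := fun j x y => j ≤ δ x ∧ j ≤ δ y ∧
      anc G v par j x = anc G v par j y with hP
  -- the pairwise bound
  have h1 : ∀ x ∈ A, ∀ y ∈ A, (G.dist x y : ℝ) ≤
      (δ x : ℝ) + δ y - 2 * ∑ j ∈ Icc 1 h, (if P j x y then (1 : ℝ) else 0) := by
    intro x hx y hy
    have h2 := dist_add_le hp hx hy h
    have h3 : ∑ j ∈ Icc 1 h, (if P j x y then (1 : ℝ) else 0)
        = (((Icc 1 h).filter fun j => j ≤ G.dist x v ∧ j ≤ G.dist y v ∧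
      anc G v par j x = anc G v par j y).card : ℝ) := by
      rw [← sum_filter, sum_const, nsmul_eq_mul, mul_one]
    rw [h3]
    have h4 : (G.dist x y : ℝ) + 2 * (((Icc 1 h).filter fun j => j ≤ G.dist x v ∧ j ≤ G.dist y v ∧
      anc G v par j x = anc G v par j y).card : ℝ) ≤ (δ x : ℝ) + δ y := by exact_mod_cast h2
    linarith
  have h2 : (∑ x ∈ A, ∑ y ∈ A, (G.dist x y : ℝ)) ≤ 2 * A.card * ∑ x ∈ A, (δ x : ℝ)
      - 2 * ∑ j ∈ Icc 1 h, ∑ x ∈ A, ∑ y ∈ A, (if P j x y then (1 : ℝ) else 0) := by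
    refine (sum_le_sum fun x hx => sum_le_sum fun y hy => h1 x hx y hy).trans (le_of_eq ?_)
    have h5 : ∑ j ∈ Icc 1 h, ∑ x ∈ A, ∑ y ∈ A, (if P j x y then (1 : ℝ) else 0)
        = ∑ x ∈ A, ∑ y ∈ A, ∑ j ∈ Icc 1 h, (if P j x y then (1 : ℝ) else 0) := by
      rw [sum_comm]
      exact sum_congr rfl fun x _ => sum_comm
    rw [h5]
    simp_rw [sum_sub_distrib, sum_add_distrib, sum_const, nsmul_eq_mul, ← mul_sum]
    ring
  -- the level bound
  have h3 : ∀ j ∈ Icc 1 h, 2 * w n (h - j) * ((A.filter fun x => j ≤ δ x).card : ℝ)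
      - w n (h - j) ^ 2 * ((A.filter fun x => δ x = j).card : ℝ)
      ≤ ∑ x ∈ A, ∑ y ∈ A, (if P j x y then (1 : ℝ) else 0) := by
    intro j hj
    rw [mem_Icc] at hj
    have h4 := pairs_ge (S := A.filter fun x => j ≤ δ x) (L := A.filter fun x => δ x = j)
      (anc G v par j) (by
        intro x hx
        rw [mem_filter] at hx ⊢
        obtain ⟨h5, h6, -⟩ := anc_spec hp hx.1 hx.2
        refine ⟨?_, h5⟩
        rcases h6 with h6 | h6
        · rw [h6, SimpleGraph.dist_self] at h5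
          omega
        · exact h6) (w n (h - j))
    refine h4.trans (le_of_eq ?_)
    rw [sum_filter]
    refine sum_congr rfl fun x _ => ?_
    rw [sum_filter]
    split_ifs with h7
    · refine sum_congr rfl fun y _ => ?_
      by_cases h8 : j ≤ δ y
      · simp [hP, h7, h8]
      · simp [hP, h8]
    · refine (sum_eq_zero fun y _ => ?_).symm
      simp [hP, h7]
  -- the sum of the depths
  have h4 : ∑ x ∈ A, (δ x : ℝ) = ∑ j ∈ Icc 1 h, ((A.filter fun x => j ≤ δ x).card : ℝ) := by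
    have h5 : ∀ j ∈ Icc 1 h, ((A.filter fun x => j ≤ δ x).card : ℝ)
        = ∑ x ∈ A, (if j ≤ δ x then (1 : ℝ) else 0) := by
      intro j _
      rw [← sum_filter, sum_const, nsmul_eq_mul, mul_one]
    rw [sum_congr rfl h5, sum_comm]
    refine sum_congr rfl fun x hx => ?_
    rw [← sum_filter, sum_const, nsmul_eq_mul, mul_one]
    congr 1
    have h6 : (Icc 1 h).filter (fun j => j ≤ δ x) = Icc 1 (δ x) := by
      ext j
      have := hh x hx
      rw [mem_filter, mem_Icc, mem_Icc]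
      show (1 ≤ j ∧ j ≤ h) ∧ j ≤ G.dist x v ↔ 1 ≤ j ∧ j ≤ G.dist x v
      omega
    rw [h6, Nat.card_Icc]
    omega
  -- the vertex count
  have h6 : ∀ x ∈ A, ∑ j ∈ Icc 1 h, ((if j ≤ δ x then ((n : ℝ) - 2 * w n (h - j)) else 0)
      + (if δ x = j then w n (h - j) ^ 2 else 0)) = w n h ^ 2 := by
    intro x hx
    rw [sum_add_distrib, ← sum_filter, ← telescope hn h (δ x) (hh x hx)]
    congr 1
    · apply sum_congr
      · ext j
        have := hh x hx
        rw [mem_filter, mem_Icc, mem_Icc]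
        show (1 ≤ j ∧ j ≤ h) ∧ j ≤ G.dist x v ↔ 1 ≤ j ∧ j ≤ G.dist x v
        omega
      · intro j _; rfl
    · rw [sum_ite_eq, if_pos (mem_Icc.2 ⟨hδ1 x hx, hh x hx⟩)]
  have h7 : ∑ j ∈ Icc 1 h, ((n : ℝ) * ((A.filter fun x => j ≤ δ x).card : ℝ)
      - (2 * w n (h - j) * ((A.filter fun x => j ≤ δ x).card : ℝ)
      - w n (h - j) ^ 2 * ((A.filter fun x => δ x = j).card : ℝ))) = w n h ^ 2 * A.card := by
    have h8 : w n h ^ 2 * A.card = ∑ x ∈ A, w n h ^ 2 := by
      rw [sum_const, nsmul_eq_mul]; ring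
    rw [h8, ← sum_congr rfl h6, sum_comm]
    refine sum_congr rfl fun j _ => ?_
    rw [sum_add_distrib, ← sum_filter, ← sum_filter, sum_const, sum_const, nsmul_eq_mul,
      nsmul_eq_mul]
    ring
  have h8 : ∑ j ∈ Icc 1 h, (2 * w n (h - j) * ((A.filter fun x => j ≤ δ x).card : ℝ)
      - w n (h - j) ^ 2 * ((A.filter fun x => δ x = j).card : ℝ))
      ≤ ∑ j ∈ Icc 1 h, ∑ x ∈ A, ∑ y ∈ A, (if P j x y then (1 : ℝ) else 0) := sum_le_sum h3
  rw [sum_sub_distrib, ← mul_sum, ← h4] at h7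
  have h9 : ∑ x ∈ A, (G.dist x v : ℝ) = ∑ x ∈ A, (δ x : ℝ) := rfl
  rw [h9]
  nlinarith

end Pool.Agent.Lib.MP_b0a977_co.DW
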